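import Mathlib

/-! An abstract lemma on rapidly decreasing sequences and closed subspaces. -/

namespace Pool.Agent.R184CA

open Filter Topology

lemma w_ineq (m j k : ℕ) (h : m < k) :
    (2⁻¹ : ℝ) ^ ((k + j) * (k + j)) * (2⁻¹ : ℝ) ^ (m * m) ≤
      (2⁻¹ : ℝ) ^ (k * k) * (2⁻¹ : ℝ) ^ ((m + j) * (m + j)) * (2⁻¹ : ℝ) ^ j := by
  obtain ⟨l, rfl⟩ := Nat.exists_eq_add_of_lt h
  rw [← pow_add, ← pow_add, ← pow_add]
  refine pow_le_pow_of_le_one (by norm_num) (by norm_num) ?_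
  nlinarith [Nat.zero_le (j * l), Nat.zero_le j]

/-- The abstract lemma. -/
theorem rapid {𝕜 : Type*} [RCLike 𝕜] {E : Type*} [NormedAddCommGroup E] [NormedSpace 𝕜 E]
    (b : ℕ → E) (hb : ∀ k, ‖b k‖ ≤ (2⁻¹ : ℝ) ^ (k * k)) (J : Submodule 𝕜 E)
    (hJ : IsClosed (J : Set E)) (c : ℕ → 𝕜)
    (hc : Summable fun k => ‖c k‖ * (2⁻¹ : ℝ) ^ (k * k)) (m : ℕ) (h0 : ∀ i, i < m → c i = 0)
    (hm : c m ≠ 0) (y : ℕ → E) (hy : ∀ j, y j ∈ J)
    (hsum : ∀ j, HasSum (fun k => c k • b (k + j)) (y j)) : ∀ k, m ≤ k → b k ∈ J := by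
  classical
  let N : E → ℝ := fun x => ‖(Submodule.Quotient.mk x : E ⧸ J)‖
  have hN0 : ∀ x, 0 ≤ N x := fun x => norm_nonneg _
  have hNle : ∀ x, N x ≤ ‖x‖ := fun x => Submodule.Quotient.norm_mk_le J x
  have hNmem : ∀ x, N x = 0 → x ∈ J := by
    intro x hx
    have h1 : (Submodule.Quotient.mk x : E ⧸ J) = 0 := by
      have := hJ
      exact norm_eq_zero.1 hx
    exact (Submodule.Quotient.mk_eq_zero J).1 h1
  have hmk : Continuous J.mkQ := AddMonoidHomClass.continuous_of_bound J.mkQ 1 fun x => by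
    rw [one_mul]
    exact hNle x
  have hq : ∀ j, HasSum (fun k => c k • (Submodule.Quotient.mk (b (k + j)) : E ⧸ J)) 0 := by
    intro j
    have h1 := (hsum j).map J.mkQ hmk
    have h2 : J.mkQ (y j) = 0 := (Submodule.Quotient.mk_eq_zero J).2 (hy j)
    rw [h2] at h1
    exact h1
  -- the main inequality
  have key : ∀ j (g : ℕ → ℝ) (s : ℝ), (∀ k, 0 ≤ g k) → HasSum g s →
      (∀ k, m < k → ‖c k‖ * N (b (k + j)) ≤ g k) → ‖c m‖ * N (b (m + j)) ≤ s := by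
    intro j g s hg0 hg h
    have h1 := (hq j).update m 0
    have h2 := h1.norm_le_of_bounded hg fun k => ?_
    · rw [zero_sub, add_zero, norm_neg, norm_smul] at h2
      exact h2
    · rcases lt_trichotomy k m with hk | hk | hk
      · rw [Function.update_of_ne hk.ne, h0 k hk, zero_smul, norm_zero]
        exact hg0 k
      · rw [hk, Function.update_self, norm_zero]
        exact hg0 m
      · rw [Function.update_of_ne hk.ne', norm_smul]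
        exact h k hk
  set S : ℝ := ∑' k, ‖c k‖ * (2⁻¹ : ℝ) ^ (k * k) with hS
  have hS0 : 0 ≤ S := tsum_nonneg fun k => by positivity
  have hcm : 0 < ‖c m‖ := norm_pos_iff.2 hm
  -- choice of `j₀`
  obtain ⟨j₀, hj₀⟩ : ∃ j₀ : ℕ, ((2⁻¹ : ℝ) ^ (m * m))⁻¹ * (2⁻¹ : ℝ) ^ j₀ * S ≤ ‖c m‖ / 2 := by
    have h1 : Tendsto (fun j : ℕ => ((2⁻¹ : ℝ) ^ (m * m))⁻¹ * (2⁻¹ : ℝ) ^ j * S) atTop
        (𝓝 (((2⁻¹ : ℝ) ^ (m * m))⁻¹ * 0 * S)) :=
      ((tendsto_pow_atTop_nhds_zero_of_lt_one (by norm_num) (by norm_num)).const_mul _).mul_const _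
    rw [mul_zero, zero_mul] at h1
    obtain ⟨j, hj⟩ := (h1.eventually (gt_mem_nhds (half_pos hcm))).exists
    exact ⟨j, hj.le⟩
  have step : ∀ D : ℝ, 0 ≤ D → (∀ i, m + j₀ ≤ i → N (b i) ≤ D * (2⁻¹ : ℝ) ^ (i * i)) →
      ∀ i, m + j₀ ≤ i → N (b i) ≤ (D / 2) * (2⁻¹ : ℝ) ^ (i * i) := by
    intro D hD hind i hi
    obtain ⟨j, rfl⟩ : ∃ j, i = m + j := ⟨i - m, by omega⟩
    have hj : j₀ ≤ j := by omega
    have hw : (0 : ℝ) < (2⁻¹ : ℝ) ^ (m * m) := by positivity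
    have h1 := key j (fun k => (D * ((2⁻¹ : ℝ) ^ (m * m))⁻¹ *
      (2⁻¹ : ℝ) ^ ((m + j) * (m + j)) * (2⁻¹ : ℝ) ^ j) * (‖c k‖ * (2⁻¹ : ℝ) ^ (k * k)))
      ((D * ((2⁻¹ : ℝ) ^ (m * m))⁻¹ *
      (2⁻¹ : ℝ) ^ ((m + j) * (m + j)) * (2⁻¹ : ℝ) ^ j) * S) (fun k => by positivity)
      (hc.hasSum.mul_left _) (fun k hk => by
        have h2 := hind (k + j) (by omega)
        have h3 := w_ineq m j k hk
        calc ‖c k‖ * N (b (k + j)) ≤ ‖c k‖ * (D * (2⁻¹ : ℝ) ^ ((k + j) * (k + j))) := by gcongr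
          _ = ‖c k‖ * D * ((2⁻¹ : ℝ) ^ (m * m))⁻¹ *
              ((2⁻¹ : ℝ) ^ ((k + j) * (k + j)) * (2⁻¹ : ℝ) ^ (m * m)) := by field_simp
          _ ≤ ‖c k‖ * D * ((2⁻¹ : ℝ) ^ (m * m))⁻¹ * ((2⁻¹ : ℝ) ^ (k * k) *
              (2⁻¹ : ℝ) ^ ((m + j) * (m + j)) * (2⁻¹ : ℝ) ^ j) := by gcongr
          _ = _ := by ring)
    have h4 : (2⁻¹ : ℝ) ^ j ≤ (2⁻¹ : ℝ) ^ j₀ :=
      pow_le_pow_of_le_one (by norm_num) (by norm_num) hj
    have h5 : ((2⁻¹ : ℝ) ^ (m * m))⁻¹ * (2⁻¹ : ℝ) ^ j * S ≤ ‖c m‖ / 2 := by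
      refine le_trans ?_ hj₀
      gcongr
    have h6 : ‖c m‖ * N (b (m + j)) ≤
        ‖c m‖ * ((D / 2) * (2⁻¹ : ℝ) ^ ((m + j) * (m + j))) := by
      refine h1.trans ?_
      calc (D * ((2⁻¹ : ℝ) ^ (m * m))⁻¹ * (2⁻¹ : ℝ) ^ ((m + j) * (m + j)) * (2⁻¹ : ℝ) ^ j) * S
          = D * (2⁻¹ : ℝ) ^ ((m + j) * (m + j)) *
            (((2⁻¹ : ℝ) ^ (m * m))⁻¹ * (2⁻¹ : ℝ) ^ j * S) := by ring
        _ ≤ D * (2⁻¹ : ℝ) ^ ((m + j) * (m + j)) * (‖c m‖ / 2) := by gcongr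
        _ = _ := by ring
    exact le_of_mul_le_mul_left h6 hcm
  have hall : ∀ n : ℕ, ∀ i, m + j₀ ≤ i → N (b i) ≤ (2⁻¹ : ℝ) ^ n * (2⁻¹ : ℝ) ^ (i * i) := by
    intro n
    induction n with
    | zero =>
      intro i _
      rw [pow_zero, one_mul]
      exact (hNle _).trans (hb i)
    | succ n ih =>
      intro i hi
      have := step _ (by positivity) ih i hi
      rw [pow_succ]
      simpa [div_eq_mul_inv] using this
  have hfar : ∀ i, m + j₀ ≤ i → b i ∈ J := by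
    intro i hi
    refine hNmem _ (le_antisymm ?_ (hN0 _))
    have h1 : Tendsto (fun n : ℕ => (2⁻¹ : ℝ) ^ n * (2⁻¹ : ℝ) ^ (i * i)) atTop
        (𝓝 (0 * (2⁻¹ : ℝ) ^ (i * i))) :=
      (tendsto_pow_atTop_nhds_zero_of_lt_one (by norm_num) (by norm_num)).mul_const _
    rw [zero_mul] at h1
    exact ge_of_tendsto h1 (Eventually.of_forall fun n => hall n i hi)
  have hdown : ∀ t i, m ≤ i → m + j₀ ≤ i + t → b i ∈ J := by
    intro t
    induction t with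
    | zero =>
      intro i _ h
      exact hfar i (by omega)
    | succ t ih =>
      intro i hi h
      obtain ⟨j, rfl⟩ : ∃ j, i = m + j := ⟨i - m, by omega⟩
      refine hNmem _ (le_antisymm ?_ (hN0 _))
      have h1 := key j (fun _ => 0) 0 (fun _ => le_rfl) hasSum_zero fun k hk => by
        have h2 : b (k + j) ∈ J := ih (k + j) (by omega) (by omega)
        have h3 : N (b (k + j)) = 0 := by
          change ‖(Submodule.Quotient.mk (b (k + j)) : E ⧸ J)‖ = 0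
          rw [(Submodule.Quotient.mk_eq_zero J).2 h2, norm_zero]
        rw [h3, mul_zero]
      nlinarith
  intro k hk
  exact hdown j₀ k hk (by omega)

end Pool.Agent.R184CA
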