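import Pool.Agent.R184CA.Main
import Pool.Agent.R184CA.Rapid
import Pool.Agent.R184CA.IdealsX

/-! A separable space `X` such that `L(X)` has exactly countably many closed ideals: the general
part. -/

namespace Pool.Agent.R184CA

open Filter Topology

/-- The data: a quasinilpotent weighted shift and its commutant. -/
structure RadData (𝕜 : Type) [RCLike 𝕜] (H : Type) [NormedAddCommGroup H] [NormedSpace 𝕜 H] where
  Q : ℕ → (H →L[𝕜] H)
  B : ℕ → (H →L[𝕜] H)
  cf : (H →L[𝕜] H) → ℕ → 𝕜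
  Q_mul : ∀ m n, Q m * Q n = Q (min m n)
  norm_Q : ∀ n, ‖Q n‖ ≤ 1
  Q_fin : ∀ n, FiniteDimensional 𝕜 (LinearMap.range (Q n : H →ₗ[𝕜] H))
  Q_lim : ∀ x, Tendsto (fun n => Q n x) atTop (𝓝 x)
  norm_B : ∀ k, ‖B k‖ ≤ (2⁻¹ : ℝ) ^ (k * k)
  B_mul : ∀ j k, B j * B k = B (j + k)
  invar : ∀ s, s * B 1 = B 1 * s → ∀ n, Q n * (s * Q n) = s * Q n
  B_Q : ∀ m, B m * Q m = 0
  summable : ∀ s, Summable fun k => ‖cf s k‖ * (2⁻¹ : ℝ) ^ (k * k)
  hasSum : ∀ s, s * B 1 = B 1 * s → HasSum (fun k => cf s k • B k) s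
  cf_zero : ∀ s m, s * Q m = 0 → ∀ i < m, cf s i = 0
  cf_B : ∀ m, cf (B m) m ≠ 0

namespace RadData

variable {𝕜 : Type} [RCLike 𝕜] {H : Type} [NormedAddCommGroup H] [NormedSpace 𝕜 H]
  (D : RadData 𝕜 H)

lemma B_Q_zero {m k : ℕ} (h : m ≤ k) : D.B k * D.Q m = 0 := by
  obtain ⟨j, rfl⟩ := Nat.exists_eq_add_of_le' h
  rw [← D.B_mul, mul_assoc, D.B_Q, mul_zero]

lemma hasSum_mul_right {f : ℕ → (H →L[𝕜] H)} {s : H →L[𝕜] H} (h : HasSum f s) (t : H →L[𝕜] H) :
    HasSum (fun k => f k * t) (s * t) :=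
  h.mul_right t

lemma mul_Q_iff {s : H →L[𝕜] H} (hs : s * D.B 1 = D.B 1 * s) (m : ℕ) :
    s * D.Q m = 0 ↔ ∀ i < m, D.cf s i = 0 := by
  constructor
  · exact D.cf_zero s m
  · intro h
    have h1 := (D.hasSum s hs).mul_right (D.Q m)
    have h2 : (fun k => D.cf s k • D.B k * D.Q m) = fun _ => 0 := by
      funext k
      rcases lt_or_ge k m with hk | hk
      · rw [h k hk, zero_smul, zero_mul]
      · rw [smul_mul_assoc, D.B_Q_zero hk, smul_zero]
    rw [h2] at h1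
    exact h1.unique hasSum_zero

lemma eq_zero_of_cf {s : H →L[𝕜] H} (hs : s * D.B 1 = D.B 1 * s) (h : ∀ i, D.cf s i = 0) :
    s = 0 := by
  have h1 := D.hasSum s hs
  simp only [h, zero_smul] at h1
  exact h1.unique hasSum_zero

/-- The closed ideals of the commutant of the shift. -/
theorem key_ideal (J : Submodule 𝕜 (H →L[𝕜] H)) (hJ : IsClosed (J : Set (H →L[𝕜] H)))
    (hB : ∀ j, ∀ f ∈ J, D.B j * f ∈ J) (hcomm : ∀ f ∈ J, f * D.B 1 = D.B 1 * f) (m : ℕ)
    (h0 : ∀ f ∈ J, ∀ i < m, D.cf f i = 0) (f : H →L[𝕜] H) (hf : f ∈ J)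
    (hm : D.cf f m ≠ 0) (s : H →L[𝕜] H) (hs : s * D.B 1 = D.B 1 * s) :
    s ∈ J ↔ s * D.Q m = 0 := by
  rw [D.mul_Q_iff hs]
  constructor
  · exact h0 s
  · intro h
    have hBJ : ∀ k, m ≤ k → D.B k ∈ J := by
      refine rapid D.B D.norm_B J hJ (D.cf f) (D.summable f) m (h0 f hf) hm
        (fun j => D.B j * f) (fun j => hB j f hf) ?_
      intro j
      have h1 := (D.hasSum f (hcomm f hf)).mul_left (D.B j)
      have h2 : (fun k => D.B j * (D.cf f k • D.B k)) = fun k => D.cf f k • D.B (k + j) := by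
        funext k
        rw [mul_smul_comm, D.B_mul, add_comm]
      rw [h2] at h1
      exact h1
    refine hJ.mem_of_tendsto (D.hasSum s hs) (Eventually.of_forall fun t => ?_)
    refine Submodule.sum_mem _ fun k _ => ?_
    rcases lt_or_ge k m with hk | hk
    · rw [h k hk, zero_smul]
      exact J.zero_mem
    · exact J.smul_mem _ (hBJ k hk)

/-- the system -/
noncomputable def S : HSys 𝕜 H where
  Q := D.Q
  W := fun _ => {1, D.B 1}
  mul := D.Q_mul
  norm := D.norm_Q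
  fin := D.Q_fin
  lim := D.Q_lim
  W_count := fun _ => (Set.countable_singleton _).insert _
  W_norm := by
    rintro n w (rfl | rfl)
    · exact ContinuousLinearMap.norm_id_le
    · exact (D.norm_B 1).trans (pow_le_one₀ (by norm_num) (by norm_num))
  W_one := fun _ => Set.mem_insert _ _
  W_map := by
    rintro n w (rfl | rfl)
    · refine ⟨n, ?_⟩
      rw [one_mul, D.Q_mul, min_self]
    · exact ⟨n, D.invar _ rfl n⟩

/-- the commutant -/
def RA : Subalgebra 𝕜 (H →L[𝕜] H) := Subalgebra.centralizer 𝕜 {D.B 1}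

lemma mem_RA {s : H →L[𝕜] H} : s ∈ D.RA ↔ s * D.B 1 = D.B 1 * s := by
  rw [RA, Subalgebra.mem_centralizer_iff]
  simp only [Set.mem_singleton_iff, forall_eq]
  exact eq_comm

lemma isClosed_RA : IsClosed (D.RA : Set (H →L[𝕜] H)) := by
  have h : (D.RA : Set (H →L[𝕜] H)) = {s | s * D.B 1 = D.B 1 * s} := by
    ext s
    exact D.mem_RA
  rw [h]
  exact isClosed_eq (continuous_id.mul continuous_const) (continuous_const.mul continuous_id)

/-- the space -/
theorem exists_space [CompleteSpace H] :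
    ∃ (X : Type) (_ : NormedAddCommGroup X) (_ : NormedSpace 𝕜 X) (_ : CompleteSpace X)
      (P : ℕ → (X →L[𝕜] X)) (φ : (X →L[𝕜] X) →ₐ[𝕜] D.RA),
      (∀ n, FiniteDimensional 𝕜 (LinearMap.range (P n : X →ₗ[𝕜] X))) ∧
      (∀ n, ‖P n‖ ≤ 2) ∧ (∀ m n, P m * P n = P (min m n)) ∧
      (∀ x, Tendsto (fun n => P n x) atTop (𝓝 x)) ∧
      Continuous φ ∧ Function.Surjective φ ∧ ∀ T, φ T = 0 ↔ IsCompactOperator T := by
  have hc : CompleteSpace D.RA := D.isClosed_RA.completeSpace_coe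
  refine main D.S D.RA.val 1 one_pos
    (fun a => by rw [one_mul]; exact le_refl _) (fun a => by rw [one_mul]; exact le_refl _)
    ?_ Set.univ ?_ ?_
  · intro s hs
    have h1 : s * D.B 1 = D.B 1 * s := by
      ext1 x
      rw [← sub_eq_zero, ← sub_apply, ← norm_eq_zero]
      refine le_antisymm (le_of_forall_pos_le_add fun ε hε => ?_) (norm_nonneg _)
      rw [zero_add]
      have hδ : 0 < ε / (2 * (‖x‖ + 1)) := by positivity
      obtain ⟨N, hN⟩ := (Metric.tendsto_atTop.1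
        ((((s * D.B 1 - D.B 1 * s).continuous.tendsto _).comp (D.Q_lim x)))) (ε / 2) (half_pos hε)
      obtain ⟨n, hn, hn2⟩ := hs _ hδ N
      have e1 := hN n hn
      have e2 : ‖(s * D.B 1 - D.B 1 * s) * D.Q n‖ ≤ ε / (2 * (‖x‖ + 1)) :=
        hn2 (D.B 1) (Or.inr rfl)
      rw [dist_eq_norm] at e1
      have e3 : ‖(s * D.B 1 - D.B 1 * s) (D.Q n x)‖ ≤ ε / 2 := by
        have := ((s * D.B 1 - D.B 1 * s) * D.Q n).le_opNorm x
        rw [mul_apply_eq_comp] at this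
        refine this.trans ?_
        calc ‖(s * D.B 1 - D.B 1 * s) * D.Q n‖ * ‖x‖ ≤ (ε / (2 * (‖x‖ + 1))) * (‖x‖ + 1) := by
              apply mul_le_mul e2 _ (norm_nonneg _) hδ.le
              linarith
          _ = ε / 2 := by field_simp
      have e4 := norm_sub_le ((s * D.B 1 - D.B 1 * s) (D.Q n x))
        ((s * D.B 1 - D.B 1 * s) (D.Q n x) - (s * D.B 1 - D.B 1 * s) x)
      rw [sub_sub_cancel] at e4
      simp only [Function.comp_apply] at e1
      linarith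
    exact ⟨⟨s, D.mem_RA.2 h1⟩, rfl⟩
  · rw [Algebra.adjoin_univ]
    exact closure_univ
  · intro g _
    have hg : (g : H →L[𝕜] H) * D.B 1 = D.B 1 * g := D.mem_RA.1 g.2
    refine ⟨0, fun n _ => ⟨D.invar _ hg n, ?_⟩⟩
    rintro w (rfl | rfl)
    · rw [one_mul, mul_one]
    · exact hg

section ideals

variable {X : Type} [NormedAddCommGroup X] [NormedSpace 𝕜 X] [CompleteSpace X]
  (φ : (X →L[𝕜] X) →ₐ[𝕜] D.RA)

/-- the ideals -/
def JJ (m : ℕ) : TwoSidedIdeal (X →L[𝕜] X) :=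
  TwoSidedIdeal.mk' {T | (φ T : H →L[𝕜] H) * D.Q m = 0}
    (by
      change (φ 0 : H →L[𝕜] H) * D.Q m = 0
      rw [map_zero]
      exact zero_mul _)
    (fun {S T} hS hT => by
      change (φ S : H →L[𝕜] H) * D.Q m = 0 at hS
      change (φ T : H →L[𝕜] H) * D.Q m = 0 at hT
      change (φ (S + T) : H →L[𝕜] H) * D.Q m = 0
      rw [map_add, Subalgebra.coe_add, add_mul, hS, hT, add_zero])
    (fun {S} hS => by
      change (φ S : H →L[𝕜] H) * D.Q m = 0 at hS
      change (φ (-S) : H →L[𝕜] H) * D.Q m = 0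
      rw [map_neg, Subalgebra.coe_neg, neg_mul, hS, neg_zero])
    (fun {S T} hT => by
      change (φ T : H →L[𝕜] H) * D.Q m = 0 at hT
      change (φ (S * T) : H →L[𝕜] H) * D.Q m = 0
      rw [map_mul, Subalgebra.coe_mul, mul_assoc, hT, mul_zero])
    (fun {S T} hS => by
      change (φ S : H →L[𝕜] H) * D.Q m = 0 at hS
      change (φ (S * T) : H →L[𝕜] H) * D.Q m = 0
      have h := D.invar _ (D.mem_RA.1 (φ T).2) m
      rw [map_mul, Subalgebra.coe_mul, mul_assoc, ← h, ← mul_assoc, hS, zero_mul])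

omit [CompleteSpace X] in
lemma mem_JJ (m : ℕ) (T : X →L[𝕜] X) : T ∈ D.JJ φ m ↔ (φ T : H →L[𝕜] H) * D.Q m = 0 := by
  rw [JJ, TwoSidedIdeal.mem_mk']
  rfl

/-- the ideal of the compact operators -/
def KK : TwoSidedIdeal (X →L[𝕜] X) :=
  TwoSidedIdeal.mk' {T | φ T = 0} (map_zero φ)
    (fun {S T} hS hT => by
      change φ S = 0 at hS
      change φ T = 0 at hT
      change φ (S + T) = 0
      rw [map_add, hS, hT, add_zero])
    (fun {S} hS => by
      change φ S = 0 at hS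
      change φ (-S) = 0
      rw [map_neg, hS, neg_zero])
    (fun {S T} hT => by
      change φ T = 0 at hT
      change φ (S * T) = 0
      rw [map_mul, hT, mul_zero])
    (fun {S T} hS => by
      change φ S = 0 at hS
      change φ (S * T) = 0
      rw [map_mul, hS, zero_mul])

omit [CompleteSpace X] in
lemma mem_KK (T : X →L[𝕜] X) : T ∈ D.KK φ ↔ φ T = 0 := by
  rw [KK, TwoSidedIdeal.mem_mk']
  rfl

variable (P : ℕ → (X →L[𝕜] X))
  (p1 : ∀ n, FiniteDimensional 𝕜 (LinearMap.range (P n : X →ₗ[𝕜] X)))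
  (p2 : ∀ n, ‖P n‖ ≤ 2) (p4 : ∀ x, Tendsto (fun n => P n x) atTop (𝓝 x))
  (f1 : Continuous φ) (f2 : Function.Surjective φ) (f3 : ∀ T, φ T = 0 ↔ IsCompactOperator T)

include p1 p2 p4 f1 f2 f3 in
/-- the classification of the closed ideals -/
theorem classify [CompleteSpace H] (I : TwoSidedIdeal (X →L[𝕜] X)) (hI : IsClosed (I : Set (X →L[𝕜] X))) :
    I = ⊥ ∨ I = D.KK φ ∨ ∃ m, I = D.JJ φ m := by
  have hc : CompleteSpace D.RA := D.isClosed_RA.completeSpace_coe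
  by_cases h0 : I = ⊥
  · exact Or.inl h0
  right
  have hK : ∀ T, φ T = 0 → T ∈ I := fun T hT =>
    compact_mem P p1 2 p2 p4 h0 hI ((f3 T).1 hT)
  have hpre : ∀ S T, T ∈ I → φ S = φ T → S ∈ I := by
    intro S T hT h
    have h1 : S = T + (S - T) := by abel
    rw [h1]
    exact I.add_mem hT (hK _ (by rw [map_sub, h, sub_self]))
  -- the image
  let J : Submodule 𝕜 (H →L[𝕜] H) :=
    { carrier := {s | ∃ T ∈ I, (φ T : H →L[𝕜] H) = s}
      add_mem' := by
        rintro _ _ ⟨S, hS, rfl⟩ ⟨T, hT, rfl⟩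
        exact ⟨S + T, I.add_mem hS hT, by rw [map_add]; rfl⟩
      zero_mem' := ⟨0, I.zero_mem, by rw [map_zero]; rfl⟩
      smul_mem' := by
        rintro c _ ⟨S, hS, rfl⟩
        refine ⟨c • S, ?_, by rw [map_smul]; rfl⟩
        have : c • S = (c • (1 : X →L[𝕜] X)) * S := by rw [smul_mul_assoc, one_mul]
        rw [this]
        exact I.mul_mem_left _ _ hS }
  have hJmem : ∀ s, s ∈ J ↔ ∃ T ∈ I, (φ T : H →L[𝕜] H) = s := fun _ => Iff.rfl
  have hJφ : ∀ T, (φ T : H →L[𝕜] H) ∈ J ↔ T ∈ I := by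
    intro T
    constructor
    · rintro ⟨S, hS, h⟩
      exact hpre T S hS (Subtype.ext h).symm
    · exact fun h => ⟨T, h, rfl⟩
  have hJcl : IsClosed (J : Set (H →L[𝕜] H)) := by
    have h1 : IsClosed {a : D.RA | (a : H →L[𝕜] H) ∈ J} := by
      have h2 : IsOpenMap φ := by
        let φ' : (X →L[𝕜] X) →L[𝕜] D.RA := ⟨φ.toLinearMap, f1⟩
        exact φ'.isOpenMap f2
      rw [← (h2.isQuotientMap f1 f2).isClosed_preimage]
      have h3 : φ ⁻¹' {a : D.RA | (a : H →L[𝕜] H) ∈ J} = (I : Set (X →L[𝕜] X)) := by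
        ext T
        exact hJφ T
      rw [h3]
      exact hI
    have h4 := (D.isClosed_RA.isClosedEmbedding_subtypeVal).isClosedMap _ h1
    have h5 : Subtype.val '' {a : D.RA | (a : H →L[𝕜] H) ∈ J} = (J : Set (H →L[𝕜] H)) := by
      ext s
      constructor
      · rintro ⟨a, ha, rfl⟩
        exact ha
      · rintro ⟨T, hT, rfl⟩
        exact ⟨φ T, ⟨T, hT, rfl⟩, rfl⟩
    rw [← h5]
    exact h4
  have hcomm : ∀ f ∈ J, f * D.B 1 = D.B 1 * f := by
    rintro _ ⟨T, _, rfl⟩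
    exact D.mem_RA.1 (φ T).2
  have hBRA : ∀ j, D.B j ∈ D.RA := fun j => by
    rw [D.mem_RA, D.B_mul, D.B_mul, add_comm]
  have hBJ : ∀ j, ∀ f ∈ J, D.B j * f ∈ J := by
    rintro j _ ⟨T, hT, rfl⟩
    obtain ⟨S, hS⟩ := f2 ⟨D.B j, hBRA j⟩
    refine ⟨S * T, I.mul_mem_left _ _ hT, ?_⟩
    rw [map_mul, hS]
    rfl
  by_cases h1 : ∃ m, ∃ f ∈ J, D.cf f m ≠ 0
  · right
    classical
    obtain ⟨f, hf, hm⟩ := Nat.find_spec h1
    refine ⟨Nat.find h1, TwoSidedIdeal.ext fun T => ?_⟩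
    rw [D.mem_JJ φ, ← hJφ]
    refine D.key_ideal J hJcl hBJ hcomm _ (fun g hg i hi => ?_) f hf hm _
      (D.mem_RA.1 (φ T).2)
    have := Nat.find_min h1 hi
    push Not at this
    exact this g hg
  · left
    push Not at h1
    refine TwoSidedIdeal.ext fun T => ?_
    rw [D.mem_KK φ]
    constructor
    · intro hT
      have h2 : (φ T : H →L[𝕜] H) ∈ J := (hJφ T).2 hT
      have h3 := D.eq_zero_of_cf (hcomm _ h2) (fun i => h1 i _ h2)
      exact Subtype.ext h3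
    · exact hK T

include f1 in
lemma isClosed_JJ (m : ℕ) : IsClosed (D.JJ φ m : Set (X →L[𝕜] X)) := by
  have h : (D.JJ φ m : Set (X →L[𝕜] X)) = {T | (φ T : H →L[𝕜] H) * D.Q m = 0} := by
    ext T
    exact D.mem_JJ φ m T
  rw [h]
  exact isClosed_eq ((continuous_subtype_val.comp f1).mul continuous_const) continuous_const

include f1 in
lemma isClosed_KK : IsClosed (D.KK φ : Set (X →L[𝕜] X)) := by
  have h : (D.KK φ : Set (X →L[𝕜] X)) = {T | φ T = 0} := by
    ext T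
    exact D.mem_KK φ T
  rw [h]
  exact isClosed_eq f1 continuous_const

lemma JJ_anti {m n : ℕ} (h : m ≤ n) : D.JJ φ n ≤ D.JJ φ m := by
  intro T hT
  rw [D.mem_JJ φ] at hT ⊢
  have h1 : D.Q m = D.Q n * D.Q m := by rw [D.Q_mul, min_eq_right h]
  rw [h1, ← mul_assoc, hT, zero_mul]

lemma KK_le (m : ℕ) : D.KK φ ≤ D.JJ φ m := by
  intro T hT
  rw [D.mem_KK φ] at hT
  rw [D.mem_JJ φ, hT]
  exact zero_mul _

include f2 in
lemma JJ_ne {m n : ℕ} (h : m < n) : D.JJ φ m ≠ D.JJ φ n := by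
  intro heq
  have hBRA : D.B m ∈ D.RA := by rw [D.mem_RA, D.B_mul, D.B_mul, add_comm]
  obtain ⟨S, hS⟩ := f2 ⟨D.B m, hBRA⟩
  have h1 : S ∈ D.JJ φ m := by
    rw [D.mem_JJ φ, hS]
    exact D.B_Q m
  rw [heq, D.mem_JJ φ, hS] at h1
  exact D.cf_B m (D.cf_zero _ n h1 m h)

include p1 p2 p4 f1 f2 f3 in
/-- exactly countably many closed ideals -/
theorem card_eq [CompleteSpace H] :
    Cardinal.mk {I : TwoSidedIdeal (X →L[𝕜] X) // IsClosed (I : Set (X →L[𝕜] X))} =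
      Cardinal.aleph0 := by
  have hcl := D.classify φ P p1 p2 p4 f1 f2 f3
  have h1 : Countable {I : TwoSidedIdeal (X →L[𝕜] X) // IsClosed (I : Set (X →L[𝕜] X))} := by
    let g : Option (Option ℕ) → TwoSidedIdeal (X →L[𝕜] X) := fun o =>
      o.elim ⊥ (fun o => o.elim (D.KK φ) (fun m => D.JJ φ m))
    have h2 : {I : TwoSidedIdeal (X →L[𝕜] X) | IsClosed (I : Set (X →L[𝕜] X))} ⊆ Set.range g := by
      intro I hI
      rcases hcl I hI with h | h | ⟨m, h⟩
      · exact ⟨none, h.symm⟩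
      · exact ⟨some none, h.symm⟩
      · exact ⟨some (some m), h.symm⟩
    exact ((Set.countable_range g).mono h2).to_subtype
  have h3 : Infinite {I : TwoSidedIdeal (X →L[𝕜] X) // IsClosed (I : Set (X →L[𝕜] X))} := by
    refine Infinite.of_injective (fun m : ℕ => ⟨D.JJ φ m, D.isClosed_JJ φ f1 m⟩) ?_
    intro m n h
    have h4 : D.JJ φ m = D.JJ φ n := congrArg Subtype.val h
    rcases lt_trichotomy m n with h5 | h5 | h5
    · exact absurd h4 (D.JJ_ne φ f2 h5)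
    · exact h5
    · exact absurd h4.symm (D.JJ_ne φ f2 h5)
  exact Cardinal.mk_eq_aleph0 _

include p1 p2 p4 f1 f2 f3 in
/-- the closed ideals form a chain -/
theorem chain [CompleteSpace H] (I J : TwoSidedIdeal (X →L[𝕜] X)) (hI : IsClosed (I : Set (X →L[𝕜] X)))
    (hJ : IsClosed (J : Set (X →L[𝕜] X))) : I ≤ J ∨ J ≤ I := by
  have hcl := D.classify φ P p1 p2 p4 f1 f2 f3
  rcases hcl I hI with rfl | rfl | ⟨m, rfl⟩
  · exact Or.inl bot_le
  · rcases hcl J hJ with rfl | rfl | ⟨n, rfl⟩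
    · exact Or.inr bot_le
    · exact Or.inl le_rfl
    · exact Or.inl (D.KK_le φ n)
  · rcases hcl J hJ with rfl | rfl | ⟨n, rfl⟩
    · exact Or.inr bot_le
    · exact Or.inr (D.KK_le φ m)
    · rcases le_total m n with h | h
      · exact Or.inr (D.JJ_anti φ h)
      · exact Or.inl (D.JJ_anti φ h)

end ideals

include D in
/-- The main theorem. -/
theorem exists_aleph [CompleteSpace H] :
    ∃ (X : Type) (_ : NormedAddCommGroup X) (_ : NormedSpace 𝕜 X),
      CompleteSpace X ∧ TopologicalSpace.SeparableSpace X ∧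
      Cardinal.mk {I : TwoSidedIdeal (X →L[𝕜] X) // IsClosed (I : Set (X →L[𝕜] X))} =
        Cardinal.aleph0 ∧
      ∀ I J : TwoSidedIdeal (X →L[𝕜] X), IsClosed (I : Set (X →L[𝕜] X)) →
        IsClosed (J : Set (X →L[𝕜] X)) → I ≤ J ∨ J ≤ I := by
  obtain ⟨X, i1, i2, i3, P, φ, p1, p2, p3, p4, f1, f2, f3⟩ := D.exists_space
  exact ⟨X, i1, i2, i3, separable_of_proj P p1 p4, D.card_eq φ P p1 p2 p4 f1 f2 f3,
    D.chain φ P p1 p2 p4 f1 f2 f3⟩

end RadData

end Pool.Agent.R184CA
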