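import Pool.Agent.R184CA.Dep

/-! Consequences for operators: asymptotic commutation. -/

namespace Pool.Agent.R184CA

open Filter Topology

variable {𝕜 : Type*} [RCLike 𝕜] {E : Type*} [NormedAddCommGroup E] [NormedSpace 𝕜 E]
variable {X : Type*} [NormedAddCommGroup X] [NormedSpace 𝕜 X]
variable {D : Nodes 𝕜 E} {V : ℕ → Submodule 𝕜 E} {ok : ℕ → (E →L[𝕜] E) → Prop}

/-- The kit of operators on the coordinate space. -/
structure Kit (V : ℕ → Submodule 𝕜 E) (ok : ℕ → (E →L[𝕜] E) → Prop) (f0 : E →L[𝕜] 𝕜)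
    (R : Set (E →L[𝕜] E)) (K : ℕ → Set (E →L[𝕜] E)) : Prop where
  mono : Monotone V
  fin : ∀ n, FiniteDimensional 𝕜 (V n)
  f0_norm : ‖f0‖ ≤ 1
  ok_zero : ∀ η, ok η 0
  ok_R : ∀ η, ∀ r ∈ R, ok η r
  ok_RK : ∀ η, ∀ r ∈ R, ∀ k ∈ K η, ok η (r.comp k)
  norm_R : ∀ r ∈ R, ‖r‖ ≤ 1 / 2
  norm_K : ∀ η, ∀ k ∈ K η, ‖k‖ ≤ 1
  map_R : ∀ r ∈ R, ∀ m, ∃ M, ∀ v ∈ V m, r v ∈ V M
  map_K : ∀ η, ∀ k ∈ K η, ∃ M, ∀ v ∈ V η, k v ∈ V M
  norming : ∀ m, ∀ v ∈ V m, ∃ r ∈ R, ‖v‖ / 4 ≤ (RCLike.re (f0 (r v)))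
  id_K : ∀ η, ContinuousLinearMap.id 𝕜 E ∈ K η

namespace BD

variable {B : BD D V X} {C δ : ℝ} {f0 : E →L[𝕜] 𝕜}
variable {R : Set (E →L[𝕜] E)} {K : ℕ → Set (E →L[𝕜] E)}

lemma eq_zero_of_co {q : ℕ} {x : X} (B : BD D V X) (hq : B.P q x = x)
    (h : ∀ γ < q, B.co γ x = 0) : x = 0 := by
  have := B.norm_P_le q x 0 le_rfl fun γ hγ => by rw [h γ hγ, norm_zero]
  rw [hq, mul_zero] at this
  exact norm_le_zero_iff.1 this

lemma P_eq_zero_of_co {q : ℕ} {x : X} (B : BD D V X)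
    (h : ∀ γ < q, B.co γ x = 0) : B.P q x = 0 := by
  have := B.norm_P_le q x 0 le_rfl fun γ hγ => by rw [h γ hγ, norm_zero]
  rw [mul_zero] at this
  exact norm_le_zero_iff.1 this

lemma exists_sv (B : BD D V X) (γ : ℕ) (hγ : γ ≠ 0) (h : E) (hh : h ∈ V γ) :
    ∃ x : X, B.P γ x = 0 ∧ B.P (γ + 1) x = x ∧ B.co γ x = h ∧ ‖x‖ ≤ 2 * ‖h‖ := by
  classical
  obtain ⟨x, hx1, hx2⟩ := B.lift (γ + 1) (fun i => if i = γ then h else 0)
    (fun i => by
      by_cases hi : i = γ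
      · simp only [hi, if_true]; exact hh
      · simp only [hi, if_false]; exact Submodule.zero_mem _)
    (by simp [Ne.symm hγ])
  have h0 : ∀ δ < γ, B.co δ x = 0 := fun δ hδ => by
    rw [hx2 δ (by omega)]; simp [hδ.ne]
  have h1 : B.co γ x = h := by rw [hx2 γ (by omega)]; simp
  refine ⟨x, B.P_eq_zero_of_co h0, hx1, h1, ?_⟩
  have := B.norm_P_le (γ + 1) x ‖h‖ (norm_nonneg _) (fun δ hδ => by
    rcases Nat.lt_succ_iff_lt_or_eq.1 hδ with h' | h'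
    · rw [h0 δ h', norm_zero]; exact norm_nonneg _
    · rw [h', h1])
  rwa [hx1] at this

open Classical in
/-- the vector with the single coordinate `h` at `γ` -/
noncomputable def sv (B : BD D V X) (γ : ℕ) (h : E) : X :=
  if H : γ ≠ 0 ∧ h ∈ V γ then (B.exists_sv γ H.1 h H.2).choose else 0

lemma sv_spec (B : BD D V X) {γ : ℕ} (hγ : γ ≠ 0) {h : E} (hh : h ∈ V γ) :
    B.P γ (B.sv γ h) = 0 ∧ B.P (γ + 1) (B.sv γ h) = B.sv γ h ∧ B.co γ (B.sv γ h) = h ∧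
      ‖B.sv γ h‖ ≤ 2 * ‖h‖ := by
  unfold sv
  rw [dif_pos ⟨hγ, hh⟩]
  exact (B.exists_sv γ hγ h hh).choose_spec

lemma sv_unique (B : BD D V X) {γ : ℕ} (hγ : γ ≠ 0) {h : E} (hh : h ∈ V γ) {x : X}
    (h1 : B.P γ x = 0) (h2 : B.P (γ + 1) x = x) (h3 : B.co γ x = h) : x = B.sv γ h := by
  obtain ⟨g1, g2, g3, -⟩ := B.sv_spec hγ hh
  rw [← sub_eq_zero]
  refine B.eq_zero_of_co (q := γ + 1) (by rw [map_sub, h2, g2]) fun δ hδ => ?_
  rw [map_sub]
  rcases Nat.lt_succ_iff_lt_or_eq.1 hδ with h' | h'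
  · rw [B.co_of_P_zero h1 h', B.co_of_P_zero g1 h', sub_zero]
  · rw [h', h3, g3, sub_self]

lemma sv_add (B : BD D V X) {γ : ℕ} (hγ : γ ≠ 0) {h h' : E} (hh : h ∈ V γ) (hh' : h' ∈ V γ) :
    B.sv γ (h + h') = B.sv γ h + B.sv γ h' := by
  obtain ⟨g1, g2, g3, -⟩ := B.sv_spec hγ hh
  obtain ⟨k1, k2, k3, -⟩ := B.sv_spec hγ hh'
  refine (B.sv_unique hγ (Submodule.add_mem _ hh hh') ?_ ?_ ?_).symm
  · rw [map_add, g1, k1, add_zero]
  · rw [map_add, g2, k2]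
  · rw [map_add, g3, k3]

lemma sv_smul (B : BD D V X) {γ : ℕ} (hγ : γ ≠ 0) {h : E} (c : 𝕜) (hh : h ∈ V γ) :
    B.sv γ (c • h) = c • B.sv γ h := by
  obtain ⟨g1, g2, g3, -⟩ := B.sv_spec hγ hh
  refine (B.sv_unique hγ (Submodule.smul_mem _ c hh) ?_ ?_ ?_).symm
  · rw [map_smul, g1, smul_zero]
  · rw [map_smul, g2]
  · rw [map_smul, g3]

lemma RV_sv (B : BD D V X) (hD : D.Ok V ok) {γ : ℕ} (hγ : γ ≠ 0) {h : E} (hh : h ∈ V γ)
    {M : ℝ} (hM : ‖h‖ ≤ M) : B.RV (6 * M) (D.wt γ) (γ + 1) (B.sv γ h) := by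
  obtain ⟨g1, g2, g3, g4⟩ := B.sv_spec hγ hh
  have hM0 : 0 ≤ M := (norm_nonneg _).trans hM
  have hw := hD.wt_le γ hγ
  refine ⟨by omega, B.P_of_P_zero g1 hw, g2, by linarith, ?_⟩
  intro γ1 hγ1 hw1
  have := B.local_weight hD (q := γ + 1) (w := D.wt γ1) g2 (fun γ2 h1 h2 h3 => by
    rcases Nat.lt_succ_iff_lt_or_eq.1 h1 with h' | h'
    · exact B.co_of_P_zero g1 h'
    · rw [h'] at h3; omega) γ1 hγ1 rfl
  refine this.trans ?_
  have hβ := β_pos (D.wt γ1)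
  have h2 : 3 * β (D.wt γ1) * ‖B.sv γ h‖ ≤ 3 * β (D.wt γ1) * (2 * M) := by
    gcongr; linarith
  linarith

lemma exists_wt (hD : D.Ok V ok) (hk : ∀ η, ok η 0) (l N : ℕ) :
    ∃ γ, N ≤ γ ∧ γ ≠ 0 ∧ l ≤ D.wt γ := by
  obtain ⟨γ, h1, h2, h3, h4, -⟩ := hD.rich_even (2 * l) ⟨l, by ring⟩ 0 (Or.inl rfl)
    (fun _ => 1) (fun _ => 0) (fun _ => 0) (fun _ => by norm_num) (fun _ => hk _) (by simp)
    ⟨0, fun γ _ i v _ => by simp⟩ N
  exact ⟨γ, h1, h2, by omega⟩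

/-- The diagonal part of `T`. -/
noncomputable def F (B : BD D V X) (T : X →L[𝕜] X) (γ : ℕ) (h : E) : E :=
  B.co γ (T (B.sv γ h))

lemma F_mem (B : BD D V X) (T : X →L[𝕜] X) (γ : ℕ) (h : E) : B.F T γ h ∈ V γ := B.co_mem γ _

lemma norm_F (B : BD D V X) (T : X →L[𝕜] X) {γ : ℕ} (hγ : γ ≠ 0) {h : E} (hh : h ∈ V γ) :
    ‖B.F T γ h‖ ≤ 2 * ‖T‖ * ‖h‖ := by
  unfold F
  refine (B.norm_co _ _).trans ((T.le_opNorm _).trans ?_)
  have := (B.sv_spec hγ hh).2.2.2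
  calc ‖T‖ * ‖B.sv γ h‖ ≤ ‖T‖ * (2 * ‖h‖) := by gcongr
    _ = _ := by ring

lemma F_add (B : BD D V X) (T : X →L[𝕜] X) {γ : ℕ} (hγ : γ ≠ 0) {h h' : E} (hh : h ∈ V γ)
    (hh' : h' ∈ V γ) : B.F T γ (h + h') = B.F T γ h + B.F T γ h' := by
  unfold F; rw [B.sv_add hγ hh hh', map_add, map_add]

lemma F_smul (B : BD D V X) (T : X →L[𝕜] X) {γ : ℕ} (hγ : γ ≠ 0) {h : E} (c : 𝕜)
    (hh : h ∈ V γ) : B.F T γ (c • h) = c • B.F T γ h := by
  unfold F; rw [B.sv_smul hγ c hh, map_smul, map_smul]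

/-- The comparison supply. -/
lemma compare (hD : D.Ok V ok) (hK : Kit V ok f0 R K) (T : X →L[𝕜] X)
    (hC : 0 ≤ C) (hδ : 0 < δ)
    (hbad : ∀ N : ℕ, ∃ (p q γ : ℕ) (x : X) (k : E →L[𝕜] E), N ≤ p ∧ B.RV C p q x ∧ γ ≠ 0 ∧
      k ∈ K γ ∧ ∀ N' : ℕ, ∃ γ', γ' ≠ 0 ∧ N' ≤ D.wt γ' ∧
        δ < ‖k (B.co γ (T x)) - B.F T γ' (k (B.co γ x))‖) : False := by
  have hsup : B.Supply ok T f0 (C + 6 * C) (δ / 8) := by
    intro N ε hε
    -- small epsilon
    obtain ⟨e, he0, he1, he2⟩ : ∃ e : ℝ, 0 < e ∧ e ≤ ε ∧ 2 * e ≤ δ / 8 :=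
      ⟨min ε (δ / 16), by positivity, min_le_left _ _, by
        have := min_le_right ε (δ / 16); linarith⟩
    obtain ⟨M1, hM1⟩ := B.weak_null hD hK.fin T N he0 (C := C + 6 * C) (by positivity)
    obtain ⟨p, q, γ, x, k, hp, hRV, hγ, hk, hγ'⟩ := hbad (max N M1)
    obtain ⟨t, ht⟩ := B.eventually_P (T x) he0
    obtain ⟨t', ht'⟩ : ∃ t', t' = max (max t q) (max (γ + 1) N) := ⟨_, rfl⟩
    obtain ⟨M2, hM2⟩ := B.weak_null hD hK.fin T t' he0 (C := C + 6 * C) (by positivity)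
    obtain ⟨Mk, hMk⟩ := hK.map_K γ k hk
    obtain ⟨γ', hγ'0, hwγ', hbig⟩ := hγ' (max (max M2 t') (max Mk p))
    have hγ'w := hD.wt_le γ' hγ'0
    set h := B.co γ x with hh
    have hhV : h ∈ V γ := B.co_mem _ _
    have hkh : k h ∈ V γ' := hK.mono (by omega : Mk ≤ γ') (hMk h hhV)
    have hhC : ‖h‖ ≤ C := (B.norm_co _ _).trans hRV.2.2.2.1
    have hkC : ‖k h‖ ≤ C := by
      refine (k.le_opNorm h).trans ?_
      have := hK.norm_K γ k hk
      have := norm_nonneg h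
      nlinarith
    obtain ⟨g1, g2, g3, g4⟩ := B.sv_spec hγ'0 hkh
    have hRV2 := B.RV_sv hD hγ'0 hkh hkC
    set x2 := B.sv γ' (k h) with hx2
    have hRV3 : B.RV (C + 6 * C) p (γ' + 1) (x - x2) :=
      (hRV.mono_q (by omega)).sub (hRV2.mono_p (by omega))
    set v := k (B.co γ (T x)) - B.F T γ' (k h) with hv
    have hvV : ∃ m, v ∈ V m := by
      refine ⟨γ', Submodule.sub_mem _ ?_ (B.F_mem _ _ _)⟩
      exact hK.mono (by omega : Mk ≤ γ') (hMk _ (B.co_mem _ _))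
    obtain ⟨m, hvm⟩ := hvV
    obtain ⟨r, hr, hrv⟩ := hK.norming m v hvm
    have hrn := hK.norm_R r hr
    have hkn := hK.norm_K γ k hk
    refine ⟨p, γ' + 1, x - x2, ![N, t'], ![γ, γ'], ![r.comp k, r], by omega, hRV3, ?_, ?_, ?_, ?_,
      ?_, ?_, ?_⟩
    · exact (hM1 _ _ _ (by omega) hRV3).trans he1
    · intro i; fin_cases i
      · exact le_rfl
      · change N ≤ t'; omega
    · intro i; fin_cases i
      · exact hK.ok_RK γ r hr k hk
      · exact hK.ok_R γ' r hr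
    · change ‖r.comp k‖ + ‖r‖ ≤ 1
      have h1 : ‖r.comp k‖ ≤ 1 / 2 := by
        refine (ContinuousLinearMap.opNorm_comp_le _ _).trans ?_
        have := norm_nonneg r
        have := norm_nonneg k
        nlinarith
      linarith
    · obtain ⟨Ma, hMa⟩ := hK.map_R r hr Mk
      obtain ⟨Mb, hMb⟩ := hK.map_R r hr γ'
      refine ⟨max Ma Mb, fun γ1 hγ1 i => ?_⟩
      fin_cases i
      · intro v hv
        exact hK.mono (by omega : Ma ≤ γ1) (hMa _ (hMk v hv))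
      · intro v hv
        exact hK.mono (by omega : Mb ≤ γ1) (hMb v hv)
    · rw [Fin.sum_univ_two]
      change ‖r (k (B.co γ (x - x2 - B.P N (x - x2)))) + r (B.co γ' (x - x2 - B.P t' (x - x2)))‖ ≤ ε
      have e1 : B.co γ (x - x2 - B.P N (x - x2)) = h := by
        rw [B.P_of_P_zero hRV3.2.1 (by omega), sub_zero, map_sub,
          B.co_of_P_zero g1 (by omega), sub_zero]
      have e2 : B.co γ' (x - x2 - B.P t' (x - x2)) = - k h := by
        rw [map_sub (B.P t'), B.P_of_P_eq hRV.2.2.1 (by omega), B.P_of_P_zero g1 (by omega)]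
        rw [sub_zero, sub_sub_cancel_left, map_neg, g3]
      rw [e1, e2, map_neg, add_neg_cancel, norm_zero]
      exact hε.le
    · rw [Fin.sum_univ_two]
      change δ / 8 ≤ (RCLike.re (f0 (r (k (B.co γ (T (x - x2) - B.P N (T (x - x2))))) +
        r (B.co γ' (T (x - x2) - B.P t' (T (x - x2)))))))
      obtain ⟨w1, hw1⟩ : ∃ w1, w1 = - B.co γ (T x2) - B.co γ (B.P N (T (x - x2))) := ⟨_, rfl⟩
      obtain ⟨w2, hw2⟩ : ∃ w2, w2 = B.co γ' (T x - B.P t' (T x)) + B.co γ' (B.P t' (T x2)) :=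
        ⟨_, rfl⟩
      have e1 : B.co γ (T (x - x2) - B.P N (T (x - x2))) = B.co γ (T x) + w1 := by
        rw [hw1]; simp only [map_sub]; abel
      have e2 : B.co γ' (T (x - x2) - B.P t' (T (x - x2))) = - B.F T γ' (k h) + w2 := by
        rw [hw2]; unfold F; rw [← hx2]; simp only [map_sub]; abel
      have n1 : ‖w1‖ ≤ 2 * e := by
        rw [hw1]
        refine (norm_sub_le _ _).trans ?_
        rw [norm_neg]
        have a1 : B.co γ (T x2) = B.co γ (B.P t' (T x2)) := (B.co_P t' γ _ (by omega)).symm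
        have a2 : ‖B.co γ (T x2)‖ ≤ e := by
          rw [a1]
          refine (B.norm_co _ _).trans (hM2 _ _ _ ?_ (hRV2.mono (by linarith)))
          omega
        have a3 : ‖B.co γ (B.P N (T (x - x2)))‖ ≤ e :=
          (B.norm_co _ _).trans (hM1 _ _ _ (by omega) hRV3)
        linarith
      have n2 : ‖w2‖ ≤ 2 * e := by
        rw [hw2]
        refine (norm_add_le _ _).trans ?_
        have a1 : ‖B.co γ' (T x - B.P t' (T x))‖ ≤ e := (B.norm_co _ _).trans (ht _ (by omega))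
        have a2 : ‖B.co γ' (B.P t' (T x2))‖ ≤ e := by
          refine (B.norm_co _ _).trans (hM2 _ _ _ ?_ (hRV2.mono (by linarith)))
          omega
        linarith
      have e3 : r (k (B.co γ (T (x - x2) - B.P N (T (x - x2))))) +
          r (B.co γ' (T (x - x2) - B.P t' (T (x - x2)))) = r v + (r (k w1) + r w2) := by
        rw [e1, e2, hv]; simp only [map_add, map_sub, map_neg]; abel
      rw [e3, map_add, add_reK]
      have n3 : ‖r (k w1) + r w2‖ ≤ 2 * e := by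
        have b1 : ‖r (k w1)‖ ≤ e := by
          refine (r.le_opNorm _).trans ?_
          have b2 : ‖k w1‖ ≤ 2 * e := by
            refine (k.le_opNorm _).trans ?_
            have := norm_nonneg w1
            nlinarith
          have := norm_nonneg (k w1)
          nlinarith
        have b3 : ‖r w2‖ ≤ e := by
          refine (r.le_opNorm _).trans ?_
          have := norm_nonneg w2
          nlinarith
        exact (norm_add_le _ _).trans (by linarith)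
      have n4 := (abs_le.1 (re_f0_le hK.f0_norm (r (k w1) + r w2))).1
      linarith
  exact B.no_supply hD hK.f0_norm (by positivity) hsup

/-- Asymptotic commutation, first form. -/
lemma comm1 (hD : D.Ok V ok) (hK : Kit V ok f0 R K) (T : X →L[𝕜] X) (hδ : 0 < δ) :
    ∃ N, ∀ γ, γ ≠ 0 → N ≤ D.wt γ → ∀ h ∈ V γ, ‖h‖ ≤ 1 → ∀ k ∈ K γ,
      ∃ N', ∀ γ', γ' ≠ 0 → N' ≤ D.wt γ' → ‖B.F T γ' (k h) - k (B.F T γ h)‖ ≤ δ := by
  by_contra hcon
  push Not at hcon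
  refine B.compare hD hK T (C := 6) (by norm_num) hδ fun N => ?_
  obtain ⟨γ, hγ, hw, h, hh, hh1, k, hk, H⟩ := hcon N
  obtain ⟨g1, g2, g3, g4⟩ := B.sv_spec hγ hh
  refine ⟨D.wt γ, γ + 1, γ, B.sv γ h, k, hw, ?_, hγ, hk, fun N' => ?_⟩
  · have := B.RV_sv hD hγ hh hh1
    simpa using this
  · obtain ⟨γ', h1, h2, h3⟩ := H N'
    refine ⟨γ', h1, h2, ?_⟩
    rw [g3, norm_sub_rev]
    exact h3

/-- Asymptotic commutation. -/
theorem comm (hD : D.Ok V ok) (hK : Kit V ok f0 R K) (T : X →L[𝕜] X) (hδ : 0 < δ) :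
    ∃ N, ∀ γ γ', γ ≠ 0 → γ' ≠ 0 → N ≤ D.wt γ → N ≤ D.wt γ' → ∀ h ∈ V γ, ‖h‖ ≤ 1 → ∀ k ∈ K γ,
      k h ∈ V γ' → ‖B.F T γ' (k h) - k (B.F T γ h)‖ ≤ δ := by
  obtain ⟨N, hN⟩ := B.comm1 hD hK T (half_pos hδ)
  refine ⟨N, fun γ γ' hγ hγ' hw hw' h hh hh1 k hk hkh => ?_⟩
  obtain ⟨N1, hN1⟩ := hN γ hγ hw h hh hh1 k hk
  have hkh1 : ‖k h‖ ≤ 1 := by
    refine (k.le_opNorm h).trans ?_
    have := hK.norm_K γ k hk
    have := norm_nonneg h
    have := norm_nonneg k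
    nlinarith
  obtain ⟨N2, hN2⟩ := hN γ' hγ' hw' (k h) hkh hkh1 _ (hK.id_K γ')
  obtain ⟨γ'', -, g1, g2⟩ := exists_wt hD hK.ok_zero (max N1 N2) 0
  have a1 := hN1 γ'' g1 (by omega)
  have a2 := hN2 γ'' g1 (by omega)
  simp only [ContinuousLinearMap.id_apply] at a2
  have : B.F T γ' (k h) - k (B.F T γ h) = (B.F T γ'' (k h) - k (B.F T γ h)) -
      (B.F T γ'' (k h) - B.F T γ' (k h)) := by abel
  rw [this]
  refine (norm_sub_le _ _).trans ?_
  linarith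

/-- From single coordinates to rapid vectors. -/
lemma rapid_of_sv (hD : D.Ok V ok) (hK : Kit V ok f0 R K) (T : X →L[𝕜] X) (a : E →L[𝕜] E)
    (ha : ∀ ε > 0, ∃ N, ∀ γ, γ ≠ 0 → N ≤ D.wt γ → ∀ h ∈ V γ, ‖h‖ ≤ 1 → ‖B.F T γ h - a h‖ ≤ ε)
    (hC : 0 ≤ C) {ε : ℝ} (hε : 0 < ε) :
    ∃ M, ∀ p q x, M ≤ p → B.RV C p q x → ∀ γ, ‖B.co γ (T x) - a (B.co γ x)‖ ≤ ε := by
  by_contra hcon
  push Not at hcon
  obtain ⟨N0, hN0⟩ := ha (ε / (2 * (C + 1))) (by positivity)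
  refine B.compare hD hK T hC (half_pos hε) fun N => ?_
  obtain ⟨p, q, x, hp, hRV, γ, hbig⟩ := hcon N
  have hγ : γ ≠ 0 := by
    rintro rfl
    rw [B.co_zero, B.co_zero, map_zero, sub_zero, norm_zero] at hbig
    linarith
  refine ⟨p, q, γ, x, _, hp, hRV, hγ, hK.id_K γ, fun N' => ?_⟩
  obtain ⟨γ', g0, g1, g2⟩ := exists_wt hD hK.ok_zero (max N' N0) γ
  refine ⟨γ', g1, by omega, ?_⟩
  simp only [ContinuousLinearMap.id_apply]
  have hhV : B.co γ x ∈ V γ' := hK.mono g0 (B.co_mem _ _)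
  have hhC : ‖B.co γ x‖ ≤ C := (B.norm_co _ _).trans hRV.2.2.2.1
  -- scale
  have key : ‖B.F T γ' (B.co γ x) - a (B.co γ x)‖ ≤ ε / 2 := by
    have h1 := hN0 γ' g1 (by omega) (((C + 1 : ℝ) : 𝕜)⁻¹ • B.co γ x)
      (Submodule.smul_mem _ _ hhV) (by
        rw [norm_smul, norm_inv, norm_realK, Real.norm_eq_abs, abs_of_pos (by linarith)]
        rw [inv_mul_le_iff₀ (by linarith)]
        linarith)
    rw [B.F_smul T g1 _ hhV, map_smul, ← smul_sub, norm_smul, norm_inv, norm_realK,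
      Real.norm_eq_abs, abs_of_pos (by linarith), inv_mul_le_iff₀ (by linarith)] at h1
    refine h1.trans (le_of_eq ?_)
    field_simp
  have : B.co γ (T x) - a (B.co γ x) = (B.co γ (T x) - B.F T γ' (B.co γ x)) +
      (B.F T γ' (B.co γ x) - a (B.co γ x)) := by abel
  rw [this] at hbig
  have := norm_add_le (B.co γ (T x) - B.F T γ' (B.co γ x)) (B.F T γ' (B.co γ x) - a (B.co γ x))
  linarith

/-- The splitting of a block vector according to the local weights. -/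
lemma split (hD : D.Ok V ok) (l N q : ℕ) (hq : N ≤ q) {x : X} (hN : B.P N x = 0)
    (hx : B.P q x = x) (hx1 : ‖x‖ ≤ 1) :
    ∃ x1 x2 : X, x = x1 + x2 ∧ B.RV (max 6 (2 / β l)) N q x1 ∧ B.RV 6 (min l N) q x2 := by
  classical
  obtain ⟨x1, h1, h2⟩ := B.lift q (fun γ => if D.wt γ < l then B.co γ x else 0)
    (fun γ => by
      by_cases h : D.wt γ < l
      · simp only [h, if_true]; exact B.co_mem _ _
      · simp only [h, if_false]; exact Submodule.zero_mem _)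
    (by simp [B.co_zero])
  have hco : ∀ γ < q, ‖B.co γ x1‖ ≤ 1 := by
    intro γ hγ
    rw [h2 γ hγ]
    split_ifs
    · exact (B.norm_co _ _).trans hx1
    · simp
  have hn1 : ‖x1‖ ≤ 2 := by
    have := B.norm_P_le q x1 1 zero_le_one hco
    rw [h1] at this; linarith
  have hco2 : ∀ γ < q, B.co γ (x - x1) = if D.wt γ < l then 0 else B.co γ x := by
    intro γ hγ
    rw [map_sub, h2 γ hγ]
    split_ifs <;> simp
  have hP2 : B.P q (x - x1) = x - x1 := by rw [map_sub, hx, h1]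
  have hn2 : ‖x - x1‖ ≤ 2 := by
    have := B.norm_P_le q (x - x1) 1 zero_le_one (fun γ hγ => by
      rw [hco2 γ hγ]
      split_ifs
      · simp
      · exact (B.norm_co _ _).trans hx1)
    rw [hP2] at this; linarith
  have hN1 : B.P N x1 = 0 := B.P_eq_zero_of_co fun γ hγ => by
    rw [h2 γ (by omega), B.co_of_P_zero hN hγ]; simp
  have hβl := β_pos l
  refine ⟨x1, x - x1, by abel, ⟨hq, hN1, h1, hn1.trans (by
    have := le_max_left (6:ℝ) (2 / β l); linarith), ?_⟩, ⟨by omega, ?_, hP2, by linarith, ?_⟩⟩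
  · intro γ hγ hw
    have hβ := β_pos (D.wt γ)
    by_cases hl : D.wt γ < l
    · have h3 : β l ≤ β (D.wt γ) := β_anti hl.le
      calc ‖B.co γ x1‖ ≤ 2 := (B.norm_co _ _).trans hn1
        _ = 2 / β l * β l := by field_simp
        _ ≤ max 6 (2 / β l) * β (D.wt γ) := by
            gcongr
            exact le_max_right _ _
    · have := B.local_weight hD (w := D.wt γ) h1 (fun γ1 g1 g2 g3 => by
        rw [h2 γ1 g1, if_neg (by omega)]) γ hγ rfl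
      refine this.trans ?_
      calc 3 * β (D.wt γ) * ‖x1‖ ≤ 3 * β (D.wt γ) * 2 := by gcongr
        _ = 6 * β (D.wt γ) := by ring
        _ ≤ _ := by gcongr; exact le_max_left _ _
  · rw [map_sub, B.P_of_P_zero hN (min_le_right _ _), B.P_of_P_zero hN1 (min_le_right _ _),
      sub_zero]
  · intro γ hγ hw
    have hβ := β_pos (D.wt γ)
    have := B.local_weight hD (w := D.wt γ) hP2 (fun γ1 g1 g2 g3 => by
        rw [hco2 γ1 g1, if_pos (by omega)]) γ hγ rfl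
    refine this.trans ?_
    calc 3 * β (D.wt γ) * ‖x - x1‖ ≤ 3 * β (D.wt γ) * 2 := by gcongr
      _ = 6 * β (D.wt γ) := by ring

/-- From single coordinates to all vectors. -/
theorem tail_of_sv (hD : D.Ok V ok) (hK : Kit V ok f0 R K) (T : X →L[𝕜] X) (a : E →L[𝕜] E)
    (ha : ∀ ε > 0, ∃ N, ∀ γ, γ ≠ 0 → N ≤ D.wt γ → ∀ h ∈ V γ, ‖h‖ ≤ 1 → ‖B.F T γ h - a h‖ ≤ ε)
    {ε : ℝ} (hε : 0 < ε) :
    ∃ N, ∀ x, B.P N x = 0 → ∀ γ, ‖B.co γ (T x) - a (B.co γ x)‖ ≤ ε * ‖x‖ := by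
  obtain ⟨l, hl⟩ := B.rapid_of_sv hD hK T a ha (C := 6) (by norm_num) (ε := ε / 4) (by positivity)
  obtain ⟨N1, hN1⟩ := B.rapid_of_sv hD hK T a ha (C := max 6 (2 / β l))
    (le_max_of_le_left (by norm_num)) (ε := ε / 4) (by positivity)
  have step1 : ∀ x q, max l N1 ≤ q → B.P (max l N1) x = 0 → B.P q x = x → ‖x‖ ≤ 1 →
      ∀ γ, ‖B.co γ (T x) - a (B.co γ x)‖ ≤ ε / 2 := by
    intro x q hq hN hx hx1 γ
    obtain ⟨x1, x2, h1, h2, h3⟩ := B.split hD l (max l N1) q hq hN hx hx1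
    have a1 := hN1 _ _ _ (le_max_right _ _) h2 γ
    have a2 := hl _ _ _ (by omega) h3 γ
    have : B.co γ (T x) - a (B.co γ x) = (B.co γ (T x1) - a (B.co γ x1)) +
        (B.co γ (T x2) - a (B.co γ x2)) := by rw [h1]; simp only [map_add]; abel
    rw [this]
    refine (norm_add_le _ _).trans ?_
    linarith
  have step2 : ∀ x q, max l N1 ≤ q → B.P (max l N1) x = 0 → B.P q x = x →
      ∀ γ, ‖B.co γ (T x) - a (B.co γ x)‖ ≤ ε / 2 * ‖x‖ := by
    intro x q hq hN hx γ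
    by_cases h0 : ‖x‖ = 0
    · rw [norm_eq_zero] at h0; rw [h0]; simp
    · have hpos : 0 < ‖x‖ := lt_of_le_of_ne (norm_nonneg _) (Ne.symm h0)
      have h1 := step1 (((‖x‖ : ℝ) : 𝕜)⁻¹ • x) q hq (by rw [map_smul, hN, smul_zero])
        (by rw [map_smul, hx]) (by
          rw [norm_smul, norm_inv, norm_realK, norm_norm, inv_mul_cancel₀ h0]) γ
      rw [map_smul, map_smul, map_smul, map_smul, ← smul_sub, norm_smul, norm_inv,
        norm_realK, norm_norm, inv_mul_le_iff₀ hpos] at h1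
      linarith
  refine ⟨max l N1, fun x hx γ => ?_⟩
  have hlim := B.P_tendsto x
  have h1 : Tendsto (fun q => ‖B.co γ (T (B.P q x)) - a (B.co γ (B.P q x))‖) atTop
      (𝓝 ‖B.co γ (T x) - a (B.co γ x)‖) := by
    refine Tendsto.norm (Tendsto.sub ?_ ?_)
    · exact (((B.co γ).continuous.comp T.continuous).tendsto x).comp hlim
    · exact ((a.continuous.comp (B.co γ).continuous).tendsto x).comp hlim
  refine le_of_tendsto h1 ?_
  filter_upwards [eventually_ge_atTop (max l N1)] with q hq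
  have h2 := step2 (B.P q x) q hq (by
    rw [B.P_P, min_eq_left hq, hx]) (by rw [B.P_P, min_self]) γ
  refine h2.trans ?_
  have := B.norm_P q x
  calc ε / 2 * ‖B.P q x‖ ≤ ε / 2 * (2 * ‖x‖) := by gcongr
    _ = _ := by ring

end BD

end Pool.Agent.R184CA
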