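import Pool.Agent.R184CA.Main

/-! The regular representation: algebras with an approximating sequence of projections. -/

namespace Pool.Agent.R184CA

open Filter Topology

universe u

variable {𝕜 : Type} [RCLike 𝕜] {A : Type u} [NormedAddCommGroup A] [NormedSpace 𝕜 A]

/-- renorming: the projections become contractions -/
theorem exists_renorm [CompleteSpace A] (q : ℕ → (A →L[𝕜] A)) (C : ℝ) (hC : ∀ n, ‖q n‖ ≤ C)
    (hqq : ∀ m n a, q m (q n a) = q (min m n) a)
    (hlim : ∀ a, Tendsto (fun n => q n a) atTop (𝓝 a)) :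
    ∃ (H : Type u) (_ : NormedAddCommGroup H) (_ : NormedSpace 𝕜 H) (_ : CompleteSpace H)
      (ι : A ≃L[𝕜] H), ∀ n a, ‖ι (q n a)‖ ≤ ‖ι a‖ := by
  have hb : ∀ a n, ‖q n a‖ ≤ C * ‖a‖ := fun a n =>
    ((q n).le_opNorm a).trans (mul_le_mul_of_nonneg_right (hC n) (norm_nonneg a))
  have hC0 : 0 ≤ C := (norm_nonneg (q 0)).trans (hC 0)
  let f : A →ₗ[𝕜] (BoundedContinuousFunction ℕ A) :=
    { toFun := fun a => BoundedContinuousFunction.ofNormedAddCommGroupDiscrete (fun n => q n a)
        (C * ‖a‖) (hb a)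
      map_add' := fun a b => by ext n; simp
      map_smul' := fun c a => by ext n; simp }
  have hf : ∀ a n, f a n = q n a := fun _ _ => rfl
  have hf1 : ∀ a, ‖f a‖ ≤ C * ‖a‖ := fun a => by
    rw [BoundedContinuousFunction.norm_le (by positivity)]
    exact fun n => hb a n
  have hf2 : ∀ a, ‖a‖ ≤ ‖f a‖ := fun a => by
    refine le_of_tendsto (hlim a).norm (Eventually.of_forall fun n => ?_)
    rw [← hf]
    exact BoundedContinuousFunction.norm_coe_le_norm _ _
  have hinj : Function.Injective f := by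
    rw [injective_iff_map_eq_zero]
    intro a ha
    have := hf2 a
    rw [ha, norm_zero] at this
    exact norm_le_zero_iff.1 this
  let e : A ≃ₗ[𝕜] LinearMap.range f := LinearEquiv.ofInjective f hinj
  have he : ∀ a, ((e a : LinearMap.range f) : BoundedContinuousFunction ℕ A) = f a := fun _ => rfl
  let ι : A ≃L[𝕜] LinearMap.range f := e.toContinuousLinearEquivOfBounds C 1
    (fun a => hf1 a) (fun x => by
      obtain ⟨a, rfl⟩ := e.surjective x
      rw [LinearEquiv.symm_apply_apply, one_mul]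
      exact hf2 a)
  refine ⟨LinearMap.range f, inferInstance, inferInstance, ?_, ι, fun n a => ?_⟩
  · exact (completeSpace_congr (e := ι.toEquiv) ι.isUniformEmbedding).1 inferInstance
  · change ‖f (q n a)‖ ≤ ‖f a‖
    rw [BoundedContinuousFunction.norm_le (norm_nonneg _)]
    intro m
    rw [hf, hqq, ← hf]
    exact BoundedContinuousFunction.norm_coe_le_norm _ _

/-- conjugation -/
noncomputable def cj {H : Type u} [NormedAddCommGroup H] [NormedSpace 𝕜 H] (ι : A ≃L[𝕜] H)
    (T : A →L[𝕜] A) : H →L[𝕜] H :=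
  (ι : A →L[𝕜] H) ∘L T ∘L (ι.symm : H →L[𝕜] A)

section cj

variable {H : Type u} [NormedAddCommGroup H] [NormedSpace 𝕜 H] (ι : A ≃L[𝕜] H)

@[simp] lemma cj_apply (T : A →L[𝕜] A) (a : A) : cj ι T (ι a) = ι (T a) := by
  simp [cj]

lemma cj_ext {S T : H →L[𝕜] H} (h : ∀ a, S (ι a) = T (ι a)) : S = T := by
  ext x
  obtain ⟨a, rfl⟩ := ι.surjective x
  exact h a

lemma norm_cj_le (T : A →L[𝕜] A) :
    ‖cj ι T‖ ≤ ‖(ι : A →L[𝕜] H)‖ * ‖(ι.symm : H →L[𝕜] A)‖ * ‖T‖ := by
  refine (ContinuousLinearMap.opNorm_comp_le _ _).trans ?_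
  have := ContinuousLinearMap.opNorm_comp_le T (ι.symm : H →L[𝕜] A)
  have h := norm_nonneg (ι : A →L[𝕜] H)
  nlinarith

lemma cj_add (S T : A →L[𝕜] A) : cj ι (S + T) = cj ι S + cj ι T :=
  cj_ext ι fun a => by simp

lemma cj_smul (c : 𝕜) (T : A →L[𝕜] A) : cj ι (c • T) = c • cj ι T :=
  cj_ext ι fun a => by simp

lemma cj_mul (S T : A →L[𝕜] A) : cj ι S * cj ι T = cj ι (S ∘L T) :=
  cj_ext ι fun a => by
    rw [mul_apply_eq_comp, cj_apply, cj_apply, cj_apply]
    rfl

lemma cj_one : cj ι (ContinuousLinearMap.id 𝕜 A) = 1 :=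
  cj_ext ι fun a => by simp

end cj

/-- The Calkin algebra theorem for Banach algebras (with a possibly not submultiplicative norm)
with an approximating sequence of commuting finite rank projections whose ranges are
subalgebras. -/
theorem bilin [CompleteSpace A] (m : A →L[𝕜] A →L[𝕜] A)
    (hassoc : ∀ a b c, m (m a b) c = m a (m b c))
    (e : A) (he1 : ∀ a, m e a = a) (he2 : ∀ a, m a e = a)
    (q : ℕ → (A →L[𝕜] A)) (C : ℝ) (hC : ∀ n, ‖q n‖ ≤ C)
    (hqq : ∀ m n a, q m (q n a) = q (min m n) a)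
    (hfin : ∀ n, FiniteDimensional 𝕜 (LinearMap.range (q n : A →ₗ[𝕜] A)))
    (hlim : ∀ a, Tendsto (fun n => q n a) atTop (𝓝 a))
    (hmul : ∀ n a b, q n (m (q n a) (q n b)) = m (q n a) (q n b)) :
    ∃ (X : Type u) (_ : NormedAddCommGroup X) (_ : NormedSpace 𝕜 X) (_ : CompleteSpace X)
      (P : ℕ → (X →L[𝕜] X)) (φ : (X →L[𝕜] X) →L[𝕜] A),
      (∀ n, FiniteDimensional 𝕜 (LinearMap.range (P n : X →ₗ[𝕜] X))) ∧
      (∀ n, ‖P n‖ ≤ 2) ∧ (∀ m n, P m * P n = P (min m n)) ∧
      (∀ x, Tendsto (fun n => P n x) atTop (𝓝 x)) ∧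
      φ 1 = e ∧ (∀ S T, φ (S * T) = m (φ S) (φ T)) ∧
      Function.Surjective φ ∧ ∀ T, φ T = 0 ↔ IsCompactOperator T := by
  classical
  obtain ⟨H, i1, i2, i3, ι, hι⟩ := exists_renorm q C hC hqq hlim
  -- separability
  have hsep : TopologicalSpace.SeparableSpace A := by
    have h1 : ∀ n, TopologicalSpace.IsSeparable (LinearMap.range (q n : A →ₗ[𝕜] A) : Set A) := by
      intro n
      have := hfin n
      have : ProperSpace (LinearMap.range (q n : A →ₗ[𝕜] A)) := FiniteDimensional.proper_rclike 𝕜 _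
      exact TopologicalSpace.IsSeparable.of_subtype _
    have h2 := (TopologicalSpace.IsSeparable.iUnion h1).closure
    have h3 : closure (⋃ n, (LinearMap.range (q n : A →ₗ[𝕜] A) : Set A)) = Set.univ := by
      refine Set.eq_univ_of_forall fun a => mem_closure_of_tendsto (hlim a) ?_
      exact Eventually.of_forall fun n => Set.mem_iUnion.2 ⟨n, a, rfl⟩
    rw [h3] at h2
    exact TopologicalSpace.isSeparable_univ_iff.1 h2
  have : Nonempty A := ⟨0⟩
  let d : ℕ → A := TopologicalSpace.denseSeq A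
  have hd : DenseRange d := TopologicalSpace.denseRange_denseSeq A
  -- the right multiplications
  let R : A → (H →L[𝕜] H) := fun c => cj ι (m.flip c)
  have hR : ∀ c a, R c (ι a) = ι (m a c) := fun c a => by simp [R]
  let sc : A → 𝕜 := fun c => (((‖R c‖ + 1 : ℝ))⁻¹ : ℝ)
  have hsc0 : ∀ c, sc c ≠ 0 := fun c => by
    have : (0 : ℝ) < (‖R c‖ + 1)⁻¹ := by positivity
    simp only [sc]
    exact_mod_cast this.ne'
  have hscn : ∀ c, ‖sc c‖ = (‖R c‖ + 1)⁻¹ := fun c => by
    have : (0 : ℝ) ≤ (‖R c‖ + 1)⁻¹ := by positivity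
    simp only [sc]
    rw [norm_realK, Real.norm_of_nonneg this]
  let S : HSys 𝕜 H :=
    { Q := fun n => cj ι (q n)
      W := fun _ => insert 1 (Set.range fun p : ℕ × ℕ => sc (q p.1 (d p.2)) • R (q p.1 (d p.2)))
      mul := fun k n => cj_ext ι fun a => by
        rw [mul_apply_eq_comp, cj_apply, cj_apply, cj_apply, hqq]
      norm := fun n => ContinuousLinearMap.opNorm_le_bound _ zero_le_one fun x => by
        obtain ⟨a, rfl⟩ := ι.surjective x
        rw [cj_apply, one_mul]
        exact hι n a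
      fin := fun n => by
        have := hfin n
        have h : LinearMap.range (cj ι (q n) : H →ₗ[𝕜] H) =
            (LinearMap.range (q n : A →ₗ[𝕜] A)).map (ι : A →ₗ[𝕜] H) := by
          ext x
          constructor
          · rintro ⟨y, rfl⟩
            obtain ⟨a, rfl⟩ := ι.surjective y
            exact ⟨q n a, ⟨a, rfl⟩, (cj_apply ι _ _).symm⟩
          · rintro ⟨_, ⟨a, rfl⟩, rfl⟩
            exact ⟨ι a, cj_apply ι _ _⟩
        rw [h]
        infer_instance
      lim := fun x => by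
        obtain ⟨a, rfl⟩ := ι.surjective x
        simp only [cj_apply]
        exact (ι.continuous.tendsto _).comp (hlim a)
      W_count := fun n => (Set.countable_range _).insert _
      W_norm := fun n w hw => by
        rcases hw with rfl | ⟨p, rfl⟩
        · exact ContinuousLinearMap.opNorm_le_bound _ zero_le_one fun x => by simp
        · simp only
          rw [norm_smul, hscn, inv_mul_le_iff₀ (by positivity)]
          linarith
      W_one := fun n => Set.mem_insert _ _
      W_map := fun n w hw => by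
        rcases hw with rfl | ⟨p, rfl⟩
        · refine ⟨n, cj_ext ι fun a => ?_⟩
          rw [one_mul, mul_apply_eq_comp, cj_apply, cj_apply, hqq, min_self]
        · refine ⟨max n p.1, cj_ext ι fun a => ?_⟩
          simp only [mul_apply_eq_comp, cj_apply, smul_apply, hR, map_smul]
          have h1 : q n a = q (max n p.1) (q n a) := by
            rw [hqq, min_eq_right (le_max_left _ _)]
          have h2 : q p.1 (d p.2) = q (max n p.1) (q p.1 (d p.2)) := by
            rw [hqq, min_eq_right (le_max_right _ _)]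
          have h3 := hmul (max n p.1) (q n a) (q p.1 (d p.2))
          rw [← h1, ← h2] at h3
          rw [h3] }
  -- the algebra
  let 𝔸 : Subalgebra 𝕜 (H →L[𝕜] H) :=
    { carrier := Set.range fun a => cj ι (m a)
      mul_mem' := by
        rintro _ _ ⟨a, rfl⟩ ⟨b, rfl⟩
        refine ⟨m a b, cj_ext ι fun c => ?_⟩
        rw [mul_apply_eq_comp]
        simp only [cj_apply, hassoc]
      add_mem' := by
        rintro _ _ ⟨a, rfl⟩ ⟨b, rfl⟩
        refine ⟨a + b, cj_ext ι fun c => ?_⟩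
        simp
      algebraMap_mem' := fun r => ⟨r • e, cj_ext ι fun c => by
        rw [Algebra.algebraMap_eq_smul_one]
        simp [he1]⟩ }
  have hmem : ∀ T : H →L[𝕜] H, T ∈ 𝔸 ↔ ∃ a, cj ι (m a) = T := fun _ => Iff.rfl
  -- bounded below
  have hlow : ∀ a, ‖a‖ ≤ ‖(ι.symm : H →L[𝕜] A)‖ * ‖ι e‖ * ‖cj ι (m a)‖ := by
    intro a
    have h1 : a = (ι.symm : H →L[𝕜] A) (cj ι (m a) (ι e)) := by
      rw [cj_apply, he2]; simp
    calc ‖a‖ = ‖(ι.symm : H →L[𝕜] A) (cj ι (m a) (ι e))‖ := by rw [← h1]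
      _ ≤ ‖(ι.symm : H →L[𝕜] A)‖ * (‖cj ι (m a)‖ * ‖ι e‖) :=
        (ContinuousLinearMap.le_opNorm _ _).trans
          (mul_le_mul_of_nonneg_left (ContinuousLinearMap.le_opNorm _ _) (norm_nonneg _))
      _ = _ := by ring
  let Lc : A →L[𝕜] (H →L[𝕜] H) :=
    LinearMap.mkContinuous
      { toFun := fun a => cj ι (m a)
        map_add' := fun a b => cj_ext ι fun c => by simp
        map_smul' := fun r a => cj_ext ι fun c => by simp }
      (‖(ι : A →L[𝕜] H)‖ * ‖(ι.symm : H →L[𝕜] A)‖ * ‖m‖) (fun a => by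
        refine (norm_cj_le ι _).trans ?_
        rw [mul_assoc _ ‖m‖ ‖a‖]
        exact mul_le_mul_of_nonneg_left (m.le_opNorm a) (by positivity))
  have hLc : ∀ a, Lc a = cj ι (m a) := fun _ => rfl
  have hclosed : IsClosed (𝔸 : Set (H →L[𝕜] H)) := by
    have h1 : AntilipschitzWith (‖(ι.symm : H →L[𝕜] A)‖₊ * ‖ι e‖₊) Lc := by
      refine AddMonoidHomClass.antilipschitz_of_bound Lc fun a => ?_
      have := hlow a
      rw [← hLc] at this
      simpa using this
    have h2 : (𝔸 : Set (H →L[𝕜] H)) = Set.range Lc := by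
      ext T
      rfl
    rw [h2]
    exact h1.isClosed_range Lc.uniformContinuous
  have hcomp : CompleteSpace 𝔸 := hclosed.completeSpace_coe
  -- the inverse on the algebra
  have hsym : ∀ s : H →L[𝕜] H, (∀ δ > 0, ∀ N, ∃ n, N ≤ n ∧ ∀ w ∈ S.W n,
      ‖(s * w - w * s) * S.Q n‖ ≤ δ) → s ∈ Set.range 𝔸.val := by
    intro s hs
    have h1 : ∀ w ∈ S.W 0, s * w = w * s := by
      intro w hw
      ext x
      rw [← sub_eq_zero, ← sub_apply, ← norm_eq_zero]
      refine le_antisymm (le_of_forall_pos_le_add fun ε hε => ?_) (norm_nonneg _)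
      rw [zero_add]
      have hδ : 0 < ε / (2 * (‖x‖ + 1)) := by positivity
      obtain ⟨N, hN⟩ := (Metric.tendsto_atTop.1
        ((((s * w - w * s).continuous.tendsto _).comp (S.lim x)))) (ε / 2) (half_pos hε)
      obtain ⟨n, hn, hn2⟩ := hs _ hδ N
      have e1 := hN n hn
      have e2 := hn2 w hw
      rw [dist_eq_norm] at e1
      have e3 : ‖(s * w - w * s) (S.Q n x)‖ ≤ ε / 2 := by
        have := ((s * w - w * s) * S.Q n).le_opNorm x
        rw [mul_apply_eq_comp] at this
        refine this.trans ?_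
        calc ‖(s * w - w * s) * S.Q n‖ * ‖x‖ ≤ (ε / (2 * (‖x‖ + 1))) * (‖x‖ + 1) := by
              gcongr
              linarith
          _ = ε / 2 := by field_simp
      have e4 := norm_sub_le ((s * w - w * s) (S.Q n x))
        ((s * w - w * s) (S.Q n x) - (s * w - w * s) x)
      rw [sub_sub_cancel] at e4
      simp only [Function.comp_apply] at e1
      linarith
    have h2 : ∀ k j, s * R (q k (d j)) = R (q k (d j)) * s := by
      intro k j
      have := h1 _ (Set.mem_insert_of_mem _ ⟨(k, j), rfl⟩)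
      simp only [mul_smul_comm, smul_mul_assoc] at this
      exact smul_right_injective _ (hsc0 _) this
    have hRc : ∀ x, Continuous fun c => R c x := by
      intro x
      obtain ⟨a, rfl⟩ := ι.surjective x
      simp only [hR]
      exact ι.continuous.comp (m a).continuous
    have h3 : ∀ j, s * R (d j) = R (d j) * s := by
      intro j
      refine cj_ext ι fun a => ?_
      rw [mul_apply_eq_comp, mul_apply_eq_comp]
      refine tendsto_nhds_unique (f := fun k => s (R (q k (d j)) (ι a))) (l := atTop) ?_ ?_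
      · exact (s.continuous.tendsto _).comp (((hRc (ι a)).tendsto _).comp (hlim (d j)))
      · have : (fun k => s (R (q k (d j)) (ι a))) = fun k => R (q k (d j)) (s (ι a)) := by
          funext k
          have := DFunLike.congr_fun (h2 k j) (ι a)
          exact this
        rw [this]
        exact ((hRc (s (ι a))).tendsto _).comp (hlim (d j))
    have h4 : ∀ c, s (R c (ι e)) = R c (s (ι e)) := by
      intro c
      have hcl : IsClosed {c | s (R c (ι e)) = R c (s (ι e))} :=
        isClosed_eq (s.continuous.comp (hRc _)) (hRc _)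
      have : Set.range d ⊆ {c | s (R c (ι e)) = R c (s (ι e))} := by
        rintro _ ⟨j, rfl⟩
        exact DFunLike.congr_fun (h3 j) (ι e)
      exact hcl.closure_subset_iff.2 this (hd c)
    have h5 : s ∈ 𝔸 := by
      rw [hmem]
      refine ⟨ι.symm (s (ι e)), cj_ext ι fun c => ?_⟩
      have := h4 c
      rw [hR, he1] at this
      rw [this]
      obtain ⟨t, ht⟩ := ι.surjective (s (ι e))
      rw [← ht, ContinuousLinearEquiv.symm_apply_apply, cj_apply, hR]
    exact ⟨⟨s, h5⟩, rfl⟩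
  -- the generators
  let G : Set 𝔸 := {g | ∃ k a, (g : H →L[𝕜] H) = cj ι (m (q k a))}
  have hG : closure (Algebra.adjoin 𝕜 G : Set 𝔸) = Set.univ := by
    refine Set.eq_univ_of_forall ?_
    rintro ⟨T, hT⟩
    obtain ⟨a, rfl⟩ := hT
    have h1 : Tendsto (fun k => (⟨cj ι (m (q k a)), ⟨q k a, rfl⟩⟩ : 𝔸)) atTop
        (𝓝 ⟨cj ι (m a), ⟨a, rfl⟩⟩) := by
      rw [tendsto_subtype_rng]
      exact (Lc.continuous.tendsto _).comp (hlim a)
    exact mem_closure_of_tendsto h1 (Eventually.of_forall fun k =>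
      Algebra.subset_adjoin ⟨k, a, rfl⟩)
  have hGQ : ∀ g ∈ G, ∃ N, ∀ n, N ≤ n → S.Q n * (𝔸.val g * S.Q n) = 𝔸.val g * S.Q n ∧
      ∀ w ∈ S.W n, 𝔸.val g * w = w * 𝔸.val g := by
    rintro g ⟨k, a, hg⟩
    refine ⟨k, fun n hn => ⟨?_, ?_⟩⟩
    · rw [Subalgebra.coe_val, hg]
      refine cj_ext ι fun c => ?_
      change cj ι (q n) (cj ι (m (q k a)) (cj ι (q n) (ι c))) = cj ι (m (q k a)) (cj ι (q n) (ι c))
      simp only [cj_apply]
      have h1 : q k a = q n (q k a) := by rw [hqq, min_eq_right hn]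
      have h3 := hmul n (q k a) c
      rw [← h1] at h3
      rw [h3]
    · rw [Subalgebra.coe_val, hg]
      rintro w (rfl | ⟨p, rfl⟩)
      · rw [one_mul, mul_one]
      · refine cj_ext ι fun c => ?_
        simp only [mul_apply_eq_comp, smul_apply, map_smul, hR, cj_apply, hassoc]
  obtain ⟨X, j1, j2, j3, P, φ, p1, p2, p3, p4, f1, f2, f3⟩ := main S 𝔸.val 1 one_pos
    (fun a => by rw [one_mul]; exact le_refl _) (fun a => by rw [one_mul]; exact le_refl _)
    hsym G hG hGQ
  have hφ : ∀ T, ∃ a, ((φ T : 𝔸) : H →L[𝕜] H) = cj ι (m a) := fun T => by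
    obtain ⟨a, ha⟩ := (φ T).2
    exact ⟨a, ha.symm⟩
  let ev : 𝔸 →L[𝕜] A :=
    { toFun := fun T => ι.symm ((T : H →L[𝕜] H) (ι e))
      map_add' := fun S T => by simp
      map_smul' := fun r T => by simp
      cont := by fun_prop }
  have hev : ∀ (T : 𝔸) (a : A), (T : H →L[𝕜] H) = cj ι (m a) → ev T = a := by
    intro T a h
    change ι.symm ((T : H →L[𝕜] H) (ι e)) = a
    rw [h, cj_apply, he2, ContinuousLinearEquiv.symm_apply_apply]
  let φ' : (X →L[𝕜] X) →L[𝕜] 𝔸 := ⟨φ.toLinearMap, f1⟩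
  refine ⟨X, j1, j2, j3, P, ev ∘L φ', p1, p2, p3, p4, ?_, ?_, ?_, ?_⟩
  · refine hev _ _ ?_
    change ((φ 1 : 𝔸) : H →L[𝕜] H) = _
    rw [map_one]
    refine cj_ext ι fun a => ?_
    rw [cj_apply, he1]
    rfl
  · intro S T
    obtain ⟨a, ha⟩ := hφ S
    obtain ⟨b, hb⟩ := hφ T
    change ev (φ (S * T)) = m (ev (φ S)) (ev (φ T))
    rw [hev _ _ ha, hev _ _ hb]
    refine hev _ _ ?_
    rw [map_mul, Subalgebra.coe_mul, ha, hb]
    refine cj_ext ι fun c => ?_
    rw [mul_apply_eq_comp]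
    simp only [cj_apply, hassoc]
  · intro a
    obtain ⟨T, hT⟩ := f2 ⟨cj ι (m a), ⟨a, rfl⟩⟩
    refine ⟨T, hev _ _ ?_⟩
    change ((φ T : 𝔸) : H →L[𝕜] H) = _
    rw [hT]
  · intro T
    rw [← f3]
    obtain ⟨a, ha⟩ := hφ T
    have h1 : (ev ∘L φ') T = a := hev _ _ ha
    rw [h1]
    constructor
    · rintro rfl
      refine Subtype.ext ?_
      rw [ha]
      refine cj_ext ι fun c => ?_
      simp
    · intro h
      have h2 : ev (φ T) = a := hev _ _ ha
      rw [← h2, h, map_zero]

end Pool.Agent.R184CA
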