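import Pool.Agent.R184CA.Main

/-! The space `c₀` and its weighted (backward) shifts. -/

namespace Pool.Agent.R184CA.C0

open Filter Topology ZeroAtInfty

variable {𝕜 : Type} [RCLike 𝕜]

lemma norm_le_iff (f : C₀(ℕ, 𝕜)) {C : ℝ} (hC : 0 ≤ C) : ‖f‖ ≤ C ↔ ∀ n, ‖f n‖ ≤ C := by
  rw [← ZeroAtInftyContinuousMap.norm_toBCF_eq_norm, BoundedContinuousFunction.norm_le hC]
  rfl

lemma norm_apply_le (f : C₀(ℕ, 𝕜)) (n : ℕ) : ‖f n‖ ≤ ‖f‖ :=
  (norm_le_iff f (norm_nonneg _)).1 le_rfl n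

lemma tendsto_zero (f : C₀(ℕ, 𝕜)) : Tendsto f atTop (𝓝 0) := by
  have := f.zero_at_infty'
  rwa [cocompact_eq_cofinite, Nat.cofinite_eq_atTop] at this

/-- a null sequence as an element of `c₀` -/
def mk (f : ℕ → 𝕜) (hf : Tendsto f atTop (𝓝 0)) : C₀(ℕ, 𝕜) where
  toFun := f
  continuous_toFun := continuous_of_discreteTopology
  zero_at_infty' := by rwa [cocompact_eq_cofinite, Nat.cofinite_eq_atTop]

@[simp] lemma mk_apply (f : ℕ → 𝕜) (hf : Tendsto f atTop (𝓝 0)) (n : ℕ) : mk f hf n = f n := rfl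

lemma wc_aux (a : ℕ → 𝕜) (C : ℝ) (ha : ∀ n, ‖a n‖ ≤ C) (k : ℕ) (x : C₀(ℕ, 𝕜)) :
    Tendsto (fun n => a n * x (n + k)) atTop (𝓝 0) := by
  have h1 : Tendsto (fun n => C * ‖x (n + k)‖) atTop (𝓝 0) := by
    have := ((tendsto_add_atTop_iff_nat k).2 (tendsto_zero x)).norm
    simpa using this.const_mul C
  refine squeeze_zero_norm (fun n => ?_) h1
  rw [norm_mul]
  exact mul_le_mul_of_nonneg_right (ha n) (norm_nonneg _)

/-- the operator `x ↦ (a n * x (n + k))_n` -/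
noncomputable def wc (a : ℕ → 𝕜) (C : ℝ) (ha : ∀ n, ‖a n‖ ≤ C) (k : ℕ) :
    C₀(ℕ, 𝕜) →L[𝕜] C₀(ℕ, 𝕜) :=
  LinearMap.mkContinuous
    { toFun := fun x => mk (fun n => a n * x (n + k)) (wc_aux a C ha k x)
      map_add' := fun x y => by
        ext n
        simp [mul_add]
      map_smul' := fun c x => by
        ext n
        simp [mul_left_comm] } C
    (fun x => by
      have hC : 0 ≤ C := (norm_nonneg _).trans (ha 0)
      rw [norm_le_iff _ (by positivity)]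
      intro n
      change ‖a n * x (n + k)‖ ≤ _
      rw [norm_mul]
      exact mul_le_mul (ha n) (norm_apply_le x _) (norm_nonneg _) hC)

@[simp] lemma wc_apply (a : ℕ → 𝕜) (C : ℝ) (ha : ∀ n, ‖a n‖ ≤ C) (k : ℕ) (x : C₀(ℕ, 𝕜)) (n : ℕ) :
    wc a C ha k x n = a n * x (n + k) := rfl

lemma norm_wc_le (a : ℕ → 𝕜) (C : ℝ) (ha : ∀ n, ‖a n‖ ≤ C) (k : ℕ) : ‖wc a C ha k‖ ≤ C :=
  LinearMap.mkContinuous_norm_le _ ((norm_nonneg _).trans (ha 0)) _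

lemma wc_bound (p : ℕ → Prop) [DecidablePred p] (n : ℕ) : ‖(if p n then (1 : 𝕜) else 0)‖ ≤ 1 := by
  split_ifs <;> simp

/-- truncation -/
noncomputable def Q (n : ℕ) : C₀(ℕ, 𝕜) →L[𝕜] C₀(ℕ, 𝕜) :=
  wc (fun k => if k < n then 1 else 0) 1 (wc_bound (fun k => k < n)) 0

lemma Q_apply (n : ℕ) (x : C₀(ℕ, 𝕜)) (k : ℕ) : Q n x k = if k < n then x k else 0 := by
  unfold Q; rw [wc_apply, add_zero]; split_ifs <;> simp

lemma Q_mul (m n : ℕ) : (Q m * Q n : C₀(ℕ, 𝕜) →L[𝕜] C₀(ℕ, 𝕜)) = Q (min m n) := by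
  ext x k
  rw [mul_apply_eq_comp, Q_apply, Q_apply, Q_apply]
  by_cases h1 : k < m <;> by_cases h2 : k < n <;> simp [h1, h2]

lemma norm_Q (n : ℕ) : ‖(Q n : C₀(ℕ, 𝕜) →L[𝕜] C₀(ℕ, 𝕜))‖ ≤ 1 := norm_wc_le _ _ _ _

lemma Q_fin (n : ℕ) : FiniteDimensional 𝕜 (LinearMap.range
    ((Q n : C₀(ℕ, 𝕜) →L[𝕜] C₀(ℕ, 𝕜)) : C₀(ℕ, 𝕜) →ₗ[𝕜] C₀(ℕ, 𝕜))) := by
  let L : LinearMap.range
    ((Q n : C₀(ℕ, 𝕜) →L[𝕜] C₀(ℕ, 𝕜)) : C₀(ℕ, 𝕜) →ₗ[𝕜] C₀(ℕ, 𝕜)) →ₗ[𝕜] (Fin n → 𝕜) :=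
    { toFun := fun z k => (z : C₀(ℕ, 𝕜)) k
      map_add' := fun a b => rfl
      map_smul' := fun c a => rfl }
  refine FiniteDimensional.of_injective L ((injective_iff_map_eq_zero _).2 fun z hz => ?_)
  obtain ⟨y, hy⟩ := z.2
  apply Subtype.ext
  ext k
  by_cases hk : k < n
  · exact congrFun hz ⟨k, hk⟩
  · rw [← hy]
    change Q n y k = 0
    rw [Q_apply, if_neg hk]

lemma Q_lim (x : C₀(ℕ, 𝕜)) : Tendsto (fun n => Q n x) atTop (𝓝 x) := by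
  rw [tendsto_iff_norm_sub_tendsto_zero]
  rw [Metric.tendsto_atTop]
  intro ε hε
  obtain ⟨N, hN⟩ := Metric.tendsto_atTop.1 (tendsto_zero x) (ε / 2) (half_pos hε)
  refine ⟨N, fun n hn => ?_⟩
  rw [dist_zero_right, norm_norm]
  refine lt_of_le_of_lt ?_ (half_lt_self hε)
  rw [norm_le_iff _ (half_pos hε).le]
  intro k
  rw [ZeroAtInftyContinuousMap.sub_apply, Q_apply]
  split_ifs with h
  · simp only [sub_self, norm_zero]; positivity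
  · rw [zero_sub, norm_neg]
    have := hN k (by omega)
    rw [dist_zero_right] at this
    exact this.le

/-- unit vector -/
noncomputable def e (n : ℕ) : C₀(ℕ, 𝕜) :=
  mk (fun k => if k = n then 1 else 0) (by
    refine tendsto_const_nhds.congr' ?_
    filter_upwards [eventually_gt_atTop n] with k hk
    rw [if_neg (by omega)])

lemma e_apply (n k : ℕ) : (e n : C₀(ℕ, 𝕜)) k = if k = n then 1 else 0 := rfl

lemma norm_e (n : ℕ) : ‖(e n : C₀(ℕ, 𝕜))‖ ≤ 1 := by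
  rw [norm_le_iff _ zero_le_one]
  intro k
  rw [e_apply]; split_ifs <;> simp

end Pool.Agent.R184CA.C0
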