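import Pool.Agent.R184CA.Radical
import Pool.Agent.R184CA.AlephIdeals

/-! The weighted shift on `c₀` gives the data. -/

namespace Pool.Agent.R184CA.Rad

open Filter Topology ZeroAtInfty C0

variable {𝕜 : Type} [RCLike 𝕜]

lemma Q_e {i m : ℕ} (h : i < m) : Q m (e i : C₀(ℕ, 𝕜)) = e i := by
  ext k
  rw [Q_apply, e_apply]
  by_cases hk : k = i
  · rw [if_pos hk, if_pos (by omega)]
  · rw [if_neg hk]
    split_ifs <;> rfl

lemma al_Bk (m : ℕ) : al (Bk m : C₀(ℕ, 𝕜) →L[𝕜] C₀(ℕ, 𝕜)) m ≠ 0 := by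
  rw [al, Bk_apply, e_apply, if_pos (by omega), mul_one]
  exact half_ne _

lemma cf_zero (s : C₀(ℕ, 𝕜) →L[𝕜] C₀(ℕ, 𝕜)) (m : ℕ) (h : s * Q m = 0) (i : ℕ) (hi : i < m) :
    cf s i = 0 := by
  have h1 : (s * Q m : C₀(ℕ, 𝕜) →L[𝕜] C₀(ℕ, 𝕜)) (e i) = 0 := by rw [h]; rfl
  rw [mul_apply_eq_comp, Q_e hi] at h1
  rw [cf, al, h1]
  exact mul_zero _

/-- the data -/
noncomputable def D (𝕜 : Type) [RCLike 𝕜] : RadData 𝕜 C₀(ℕ, 𝕜) where
  Q := Q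
  B := Bk
  cf := cf
  Q_mul := Q_mul
  norm_Q := norm_Q
  Q_fin := Q_fin
  Q_lim := Q_lim
  norm_B := norm_Bk
  B_mul := Bk_mul
  invar := fun _ hs n => invar hs n
  B_Q := Bk_mul_Q
  summable := fun s => by
    simp only [norm_cf_mul]
    exact summable_al s
  hasSum := fun _ hs => hasSum_Bk hs
  cf_zero := cf_zero
  cf_B := fun m => mul_ne_zero (pow_ne_zero _ two_ne_zero) (al_Bk m)

end Pool.Agent.R184CA.Rad
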