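import Pool.Agent.R184CA.Unit

/-! Completions: unitizations of completions as Calkin algebras. -/

namespace Pool.Agent.R184CA

open Filter Topology UniformSpace

universe u

variable {𝕜 : Type} [RCLike 𝕜] {E : Type u} [NormedAddCommGroup E] [NormedSpace 𝕜 E]

lemma compl_dense : DenseRange (Completion.toComplL (𝕜 := 𝕜) (E := E)) :=
  Completion.denseRange_coe

lemma compl_unif : IsUniformInducing (Completion.toComplL (𝕜 := 𝕜) (E := E)) :=
  Completion.isUniformInducing_coe E

/-- extension of an operator to the completion -/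
noncomputable def cext {F : Type u} [NormedAddCommGroup F] [NormedSpace 𝕜 F] [CompleteSpace F]
    (T : E →L[𝕜] F) : Completion E →L[𝕜] F :=
  T.extend (Completion.toComplL (𝕜 := 𝕜) (E := E))

lemma cext_coe {F : Type u} [NormedAddCommGroup F] [NormedSpace 𝕜 F] [CompleteSpace F]
    (T : E →L[𝕜] F) (a : E) : cext T (a : Completion E) = T a :=
  T.extend_eq compl_dense compl_unif a

lemma norm_cext_le {F : Type u} [NormedAddCommGroup F] [NormedSpace 𝕜 F] [CompleteSpace F]
    (T : E →L[𝕜] F) : ‖cext T‖ ≤ ‖T‖ := by
  have h := T.opNorm_extend_le (e := Completion.toComplL (𝕜 := 𝕜) (E := E)) (N := 1)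
    compl_dense (fun x => by simp)
  rw [NNReal.coe_one, one_mul] at h
  exact h

lemma compl_ext {F : Type u} [NormedAddCommGroup F] [NormedSpace 𝕜 F]
    {S T : Completion E →L[𝕜] F} (h : ∀ a : E, S a = T a) : S = T := by
  ext x
  induction x using Completion.induction_on with
  | hp => exact isClosed_eq S.continuous T.continuous
  | ih a => exact h a

/-- the extension of a multiplication to the completion -/
theorem exists_mul_ext (m₀ : E →L[𝕜] E →L[𝕜] E) :
    ∃ m : Completion E →L[𝕜] Completion E →L[𝕜] Completion E,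
      ∀ a b : E, m a b = ((m₀ a b : E) : Completion E) := by
  have h0 : ∀ a b : E, cext ((Completion.toComplL (𝕜 := 𝕜) (E := E)) ∘L m₀ a) b =
      ((m₀ a b : E) : Completion E) := fun a b => cext_coe _ _
  let m₁ : E →L[𝕜] (Completion E →L[𝕜] Completion E) :=
    LinearMap.mkContinuous
      { toFun := fun a => cext ((Completion.toComplL (𝕜 := 𝕜) (E := E)) ∘L m₀ a)
        map_add' := fun a b => compl_ext fun c => by
          rw [add_apply, h0, h0, h0, map_add, add_apply, Completion.coe_add]
        map_smul' := fun r a => compl_ext fun c => by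
          rw [smul_apply, h0, h0, map_smul, smul_apply, Completion.coe_smul, RingHom.id_apply] }
      ‖m₀‖ (fun a => by
        refine (norm_cext_le _).trans ?_
        refine ContinuousLinearMap.opNorm_le_bound _ (by positivity) fun b => ?_
        change ‖((m₀ a b : E) : Completion E)‖ ≤ _
        rw [Completion.norm_coe]
        exact m₀.le_opNorm₂ a b)
  have h1 : ∀ a b : E, m₁ a b = ((m₀ a b : E) : Completion E) := h0
  refine ⟨cext m₁, fun a b => ?_⟩
  rw [cext_coe, h1]

/-- The Calkin algebra theorem for the unitization of a completion. -/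
theorem completion_unit (m₀ : E →L[𝕜] E →L[𝕜] E)
    (hassoc : ∀ a b c, m₀ (m₀ a b) c = m₀ a (m₀ b c))
    (p : ℕ → (E →L[𝕜] E)) (C : ℝ) (hC : ∀ n, ‖p n‖ ≤ C)
    (hpp : ∀ m n a, p m (p n a) = p (min m n) a)
    (hfin : ∀ n, FiniteDimensional 𝕜 (LinearMap.range (p n : E →ₗ[𝕜] E)))
    (hlim : ∀ a, Tendsto (fun n => p n a) atTop (𝓝 a))
    (hmul : ∀ n a b, p n (m₀ (p n a) (p n b)) = m₀ (p n a) (p n b)) :
    ∃ m : Completion E →L[𝕜] Completion E →L[𝕜] Completion E,
      (∀ a b : E, m a b = ((m₀ a b : E) : Completion E)) ∧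
      IsCalkinMul 𝕜 (Completion E × 𝕜) (unitMul fun a b => m a b) := by
  obtain ⟨m, hm⟩ := exists_mul_ext m₀
  refine ⟨m, hm, ?_⟩
  let j : E →L[𝕜] Completion E := Completion.toComplL (𝕜 := 𝕜) (E := E)
  let q : ℕ → (Completion E →L[𝕜] Completion E) := fun n => cext (j ∘L p n)
  have hq : ∀ n (a : E), q n a = ((p n a : E) : Completion E) := fun n a => cext_coe _ _
  have hC0 : 0 ≤ C := (norm_nonneg (p 0)).trans (hC 0)
  have hqC : ∀ n, ‖q n‖ ≤ C := by
    intro n
    refine (norm_cext_le _).trans (ContinuousLinearMap.opNorm_le_bound _ hC0 fun b => ?_)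
    change ‖((p n b : E) : Completion E)‖ ≤ _
    rw [Completion.norm_coe]
    exact ((p n).le_opNorm b).trans (mul_le_mul_of_nonneg_right (hC n) (norm_nonneg _))
  obtain ⟨X, i1, i2, i3, P, φ, -, -, -, -, f1, f2, f3, f4⟩ := unit_bilin m
    (fun a b c => by
      induction a, b, c using Completion.induction_on₃ with
      | hp => exact isClosed_eq (by fun_prop) (by fun_prop)
      | ih a b c => rw [hm, hm, hm, hm, hassoc])
    q C hqC
    (fun k n a => by
      induction a using Completion.induction_on with
      | hp => exact isClosed_eq (by fun_prop) (by fun_prop)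
      | ih a => rw [hq, hq, hq, hpp])
    (fun n => by
      have hf := hfin n
      let V : Submodule 𝕜 (Completion E) :=
        (LinearMap.range (p n : E →ₗ[𝕜] E)).map (j : E →ₗ[𝕜] Completion E)
      have hV : FiniteDimensional 𝕜 V := inferInstance
      have hVc : IsClosed (V : Set (Completion E)) := V.closed_of_finiteDimensional
      have hle : LinearMap.range (q n : Completion E →ₗ[𝕜] Completion E) ≤ V := by
        rintro _ ⟨a, rfl⟩
        rw [ContinuousLinearMap.coe_coe]
        induction a using Completion.induction_on with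
        | hp => exact hVc.preimage (q n).continuous
        | ih a =>
          rw [hq]
          exact ⟨p n a, ⟨a, rfl⟩, rfl⟩
      exact Submodule.finiteDimensional_of_le hle)
    (fun a => by
      rw [Metric.tendsto_atTop]
      intro ε hε
      obtain ⟨b, hb⟩ : ∃ b : E, ‖a - b‖ < ε / (2 * (C + 1)) := by
        have h1 := (Completion.denseRange_coe (α := E)) a
        rw [Metric.mem_closure_iff] at h1
        obtain ⟨_, ⟨b, rfl⟩, hb⟩ := h1 (ε / (2 * (C + 1))) (by positivity)
        exact ⟨b, by rwa [dist_eq_norm] at hb⟩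
      obtain ⟨N, hN⟩ := (Metric.tendsto_atTop.1 (hlim b)) (ε / 2) (half_pos hε)
      refine ⟨N, fun n hn => ?_⟩
      have h2 := hN n hn
      rw [dist_eq_norm] at h2 ⊢
      have h3 : q n a - a = q n (a - b) + ((p n b - b : E) : Completion E) + (b - a) := by
        rw [map_sub, Completion.coe_sub, hq]
        abel
      have h4 : ‖q n (a - b)‖ ≤ C * ‖a - b‖ :=
        ((q n).le_opNorm _).trans (mul_le_mul_of_nonneg_right (hqC n) (norm_nonneg _))
      have h5 : (C + 1) * ‖a - b‖ < ε / 2 := by
        have := mul_lt_mul_of_pos_left hb (show 0 < C + 1 by positivity)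
        refine this.trans_le (le_of_eq ?_)
        field_simp
      rw [h3]
      refine (norm_add₃_le).trans_lt ?_
      rw [Completion.norm_coe, norm_sub_rev (b : Completion E) a]
      linarith)
    (fun n a b => by
      induction a, b using Completion.induction_on₂ with
      | hp => exact isClosed_eq (by fun_prop) (by fun_prop)
      | ih a b => rw [hq, hq, hm, hq, hmul])
  exact isCalkinMul_of_hom _ φ f2 f3 f4

end Pool.Agent.R184CA
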