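import Pool.Agent.R184CA.Params

/-! Basic definitions: node data of a vector valued Bourgain-Delbaen space, and the interface
through which the space is used. -/

namespace Pool.Agent.R184CA

open Filter Topology

/-- Data of the nodes: parent, weight index, age, and two terms `(s, η, A)`. -/
structure Nodes (𝕜 : Type*) [RCLike 𝕜] (E : Type*) [NormedAddCommGroup E] [NormedSpace 𝕜 E] where
  par : ℕ → ℕ
  wt : ℕ → ℕ
  age : ℕ → ℕ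
  s : ℕ → Fin 2 → ℕ
  η : ℕ → Fin 2 → ℕ
  A : ℕ → Fin 2 → (E →L[𝕜] E)

variable {𝕜 : Type*} [RCLike 𝕜] {E : Type*} [NormedAddCommGroup E] [NormedSpace 𝕜 E]

/-- The rules for the nodes. -/
structure Nodes.Ok (D : Nodes 𝕜 E) (V : ℕ → Submodule 𝕜 E)
    (ok : ℕ → (E →L[𝕜] E) → Prop) : Prop where
  par_lt : ∀ γ, γ ≠ 0 → D.par γ < γ
  wt_par : ∀ γ, γ ≠ 0 → D.par γ ≠ 0 → D.wt (D.par γ) = D.wt γ
  wt_le : ∀ γ, γ ≠ 0 → D.wt γ ≤ γ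
  age_zero : D.age 0 = 0
  age_succ : ∀ γ, γ ≠ 0 → D.age γ = D.age (D.par γ) + 1
  age_le : ∀ γ, γ ≠ 0 → D.age γ ≤ nn (D.wt γ)
  s_gt : ∀ γ i, γ ≠ 0 → D.par γ < D.s γ i
  η_lt : ∀ γ i, γ ≠ 0 → D.η γ i < γ
  A_norm : ∀ γ, γ ≠ 0 → ‖D.A γ 0‖ + ‖D.A γ 1‖ ≤ 1
  A_ok : ∀ γ i, γ ≠ 0 → ok (D.η γ i) (D.A γ i)
  A_map : ∀ γ i, γ ≠ 0 → ∀ v ∈ V (D.η γ i), D.A γ i v ∈ V γ
  odd_A : ∀ γ, γ ≠ 0 → Odd (D.wt γ) →
    D.A γ 0 = ContinuousLinearMap.id 𝕜 E ∧ D.A γ 1 = 0 ∧ D.s γ 0 = D.par γ + 1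
  odd_Lam : ∀ γ, γ ≠ 0 → Odd (D.wt γ) → Lam (D.wt γ) ≤ D.wt (D.η γ 0) ∧ D.η γ 0 ≠ 0
  odd_first : ∀ γ, γ ≠ 0 → Odd (D.wt γ) → D.par γ = 0 → D.wt (D.η γ 0) % 4 = 2
  odd_next : ∀ γ, γ ≠ 0 → Odd (D.wt γ) → D.par γ ≠ 0 → D.wt (D.η γ 0) = 4 * D.par γ + 4
  rich_even : ∀ j, Even j → ∀ ξ, (ξ = 0 ∨ (ξ ≠ 0 ∧ D.wt ξ = j ∧ D.age ξ < nn j)) →
    ∀ (s η : Fin 2 → ℕ) (A : Fin 2 → (E →L[𝕜] E)), (∀ i, ξ < s i) → (∀ i, ok (η i) (A i)) →
    ‖A 0‖ + ‖A 1‖ ≤ 1 → (∃ M, ∀ γ, M ≤ γ → ∀ i, ∀ v ∈ V (η i), A i v ∈ V γ) →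
    ∀ N, ∃ γ, N ≤ γ ∧ γ ≠ 0 ∧ D.par γ = ξ ∧ D.wt γ = j ∧ D.s γ = s ∧ D.η γ = η ∧ D.A γ = A
  rich_odd : ∀ j, Odd j → ∀ ξ η, (ξ = 0 ∨ (ξ ≠ 0 ∧ D.wt ξ = j ∧ D.age ξ < nn j)) →
    ξ < η → Lam j ≤ D.wt η → (ξ = 0 → D.wt η % 4 = 2) → (ξ ≠ 0 → D.wt η = 4 * ξ + 4) →
    ∀ N, ∃ γ, N ≤ γ ∧ γ ≠ 0 ∧ D.par γ = ξ ∧ D.wt γ = j ∧ D.η γ 0 = η

/-- The interface of the Bourgain-Delbaen space `X` built from the node data `D`. -/
structure BD (D : Nodes 𝕜 E) (V : ℕ → Submodule 𝕜 E) (X : Type*) [NormedAddCommGroup X]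
    [NormedSpace 𝕜 X] where
  co : ℕ → (X →L[𝕜] E)
  P : ℕ → (X →L[𝕜] X)
  co_zero : ∀ x, co 0 x = 0
  co_mem : ∀ γ x, co γ x ∈ V γ
  norm_co : ∀ γ x, ‖co γ x‖ ≤ ‖x‖
  norm_le : ∀ x C, 0 ≤ C → (∀ γ, ‖co γ x‖ ≤ C) → ‖x‖ ≤ C
  co_P : ∀ n γ x, γ < n → co γ (P n x) = co γ x
  P_P : ∀ m n x, P m (P n x) = P (min m n) x
  norm_P_le : ∀ n x C, 0 ≤ C → (∀ γ < n, ‖co γ x‖ ≤ C) → ‖P n x‖ ≤ 2 * C
  P_tendsto : ∀ x, Tendsto (fun n => P n x) atTop (𝓝 x)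
  rec_eq : ∀ γ x, γ ≠ 0 → co γ (P γ x) = co (D.par γ) x +
    (β (D.wt γ) : 𝕜) • ∑ i, D.A γ i (co (D.η γ i) (x - P (D.s γ i) x))
  lift : ∀ (q : ℕ) (u : ℕ → E), (∀ γ, u γ ∈ V γ) → u 0 = 0 →
    ∃ x : X, P q x = x ∧ ∀ γ < q, co γ x = u γ

variable {X : Type*} [NormedAddCommGroup X] [NormedSpace 𝕜 X]
variable {D : Nodes 𝕜 E} {V : ℕ → Submodule 𝕜 E} {ok : ℕ → (E →L[𝕜] E) → Prop}

namespace BD

variable (B : BD D V X)

/-- The functional part of the node `γ` (before multiplying with the weight). -/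
noncomputable def fn (γ : ℕ) (x : X) : E := ∑ i, D.A γ i (B.co (D.η γ i) (x - B.P (D.s γ i) x))

/-- The coefficient of `x` at `γ`. -/
noncomputable def dd (γ : ℕ) (x : X) : E := B.co γ (x - B.P γ x)

/-- Rapid vectors. -/
def RV (C : ℝ) (p q : ℕ) (x : X) : Prop :=
  p ≤ q ∧ B.P p x = 0 ∧ B.P q x = x ∧ ‖x‖ ≤ C ∧
    ∀ γ, γ ≠ 0 → D.wt γ < p → ‖B.co γ x‖ ≤ C * β (D.wt γ)

lemma norm_P (n : ℕ) (x : X) : ‖B.P n x‖ ≤ 2 * ‖x‖ :=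
  B.norm_P_le n x ‖x‖ (norm_nonneg _) fun γ _ => B.norm_co γ x

lemma norm_sub_P (n : ℕ) (x : X) : ‖x - B.P n x‖ ≤ 3 * ‖x‖ := by
  calc ‖x - B.P n x‖ ≤ ‖x‖ + ‖B.P n x‖ := norm_sub_le _ _
    _ ≤ ‖x‖ + 2 * ‖x‖ := by gcongr; exact B.norm_P n x
    _ = 3 * ‖x‖ := by ring

lemma co_eq (γ : ℕ) (x : X) (hγ : γ ≠ 0) :
    B.co γ x = B.co (D.par γ) x + (β (D.wt γ) : 𝕜) • B.fn γ x + B.dd γ x := by
  have h := B.rec_eq γ x hγ
  unfold fn dd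
  rw [← h, map_sub]; abel

lemma P_of_P_eq {m n : ℕ} {x : X} (h : B.P m x = x) (hmn : m ≤ n) : B.P n x = x := by
  have := B.P_P n m x
  rw [h, min_eq_right hmn, h] at this
  exact this

lemma P_of_P_zero {m n : ℕ} {x : X} (h : B.P n x = 0) (hmn : m ≤ n) : B.P m x = 0 := by
  have := B.P_P m n x
  rw [h, min_eq_left hmn, map_zero] at this
  exact this.symm

lemma co_of_P_zero {n γ : ℕ} {x : X} (h : B.P n x = 0) (hγ : γ < n) : B.co γ x = 0 := by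
  rw [← B.co_P n γ x hγ, h, map_zero]

lemma ext_co {x y : X} (h : ∀ γ, B.co γ x = B.co γ y) : x = y := by
  have : ‖x - y‖ ≤ 0 := B.norm_le _ 0 le_rfl fun γ => by rw [map_sub, h γ, sub_self, norm_zero]
  exact sub_eq_zero.1 (norm_le_zero_iff.1 this)

lemma P_zero' (hD : D.Ok V ok) (x : X) : B.P 0 x = 0 := by
  have key : ∀ γ, B.co γ (B.P 0 x) = 0 := by
    intro γ
    induction γ using Nat.strong_induction_on with
    | _ γ ih =>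
      rcases Nat.eq_zero_or_pos γ with rfl | hγ
      · exact B.co_zero _
      · have hne : γ ≠ 0 := hγ.ne'
        have hP : ∀ n, B.P n (B.P 0 x) = B.P 0 x := fun n => by
          rw [B.P_P, Nat.min_eq_right (Nat.zero_le n)]
        have h := B.rec_eq γ (B.P 0 x) hne
        rw [hP] at h
        rw [h, ih _ (hD.par_lt γ hne)]
        simp [hP]
  exact B.ext_co fun γ => by rw [key, map_zero]

lemma dd_eq_zero_of_P_eq {γ q : ℕ} {x : X} (h : B.P q x = x) (hγ : q ≤ γ) : B.dd γ x = 0 := by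
  unfold dd; rw [B.P_of_P_eq h hγ]; simp

lemma dd_eq_zero_of_P_zero {γ p : ℕ} {x : X} (h : B.P p x = 0) (hγ : γ < p) : B.dd γ x = 0 := by
  unfold dd; rw [B.P_of_P_zero h hγ.le, sub_zero, B.co_of_P_zero h hγ]

lemma norm_dd (γ : ℕ) (x : X) : ‖B.dd γ x‖ ≤ 3 * ‖x‖ :=
  (B.norm_co _ _).trans (B.norm_sub_P _ _)

lemma dd_add (γ : ℕ) (x y : X) : B.dd γ (x + y) = B.dd γ x + B.dd γ y := by
  unfold dd; simp only [map_add, map_sub]; abel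

lemma dd_sub (γ : ℕ) (x y : X) : B.dd γ (x - y) = B.dd γ x - B.dd γ y := by
  unfold dd; simp only [map_sub]; abel

lemma dd_smul (γ : ℕ) (c : 𝕜) (x : X) : B.dd γ (c • x) = c • B.dd γ x := by
  unfold dd; simp only [map_sub, map_smul, smul_sub]

lemma dd_sum {ι : Type*} (γ : ℕ) (S : Finset ι) (f : ι → X) :
    B.dd γ (∑ i ∈ S, f i) = ∑ i ∈ S, B.dd γ (f i) := by
  unfold dd; simp only [map_sub, map_sum, Finset.sum_sub_distrib]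

lemma fn_add (γ : ℕ) (x y : X) : B.fn γ (x + y) = B.fn γ x + B.fn γ y := by
  unfold fn; simp only [Fin.sum_univ_two, map_add, map_sub]; abel

lemma fn_sub (γ : ℕ) (x y : X) : B.fn γ (x - y) = B.fn γ x - B.fn γ y := by
  unfold fn; simp only [Fin.sum_univ_two, map_sub]; abel

lemma fn_smul (γ : ℕ) (c : 𝕜) (x : X) : B.fn γ (c • x) = c • B.fn γ x := by
  unfold fn; simp only [Fin.sum_univ_two, map_sub, map_smul, smul_add, smul_sub]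

lemma fn_zero (γ : ℕ) : B.fn γ (0 : X) = 0 := by
  unfold fn; simp

lemma fn_sum {ι : Type*} (γ : ℕ) (S : Finset ι) (f : ι → X) :
    B.fn γ (∑ i ∈ S, f i) = ∑ i ∈ S, B.fn γ (f i) := by
  classical
  induction S using Finset.induction_on with
  | empty => simp [fn_zero]
  | insert a S ha ih => rw [Finset.sum_insert ha, Finset.sum_insert ha, fn_add, ih]

/-- a bound for the functional part -/
lemma norm_fn_le (hD : D.Ok V ok) {γ : ℕ} (hγ : γ ≠ 0) {x : X} {M : ℝ}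
    (h : ∀ i, ‖B.co (D.η γ i) (x - B.P (D.s γ i) x)‖ ≤ M) : ‖B.fn γ x‖ ≤ M := by
  have hM : 0 ≤ M := (norm_nonneg _).trans (h 0)
  have hA := hD.A_norm γ hγ
  unfold fn
  rw [Fin.sum_univ_two]
  calc ‖D.A γ 0 (B.co (D.η γ 0) (x - B.P (D.s γ 0) x)) +
        D.A γ 1 (B.co (D.η γ 1) (x - B.P (D.s γ 1) x))‖
      ≤ ‖D.A γ 0‖ * M + ‖D.A γ 1‖ * M := by
        refine (norm_add_le _ _).trans (add_le_add ?_ ?_)
        · exact ((D.A γ 0).le_opNorm _).trans (mul_le_mul_of_nonneg_left (h 0) (norm_nonneg _))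
        · exact ((D.A γ 1).le_opNorm _).trans (mul_le_mul_of_nonneg_left (h 1) (norm_nonneg _))
    _ = (‖D.A γ 0‖ + ‖D.A γ 1‖) * M := by ring
    _ ≤ 1 * M := by gcongr
    _ = M := one_mul M

lemma norm_fn (hD : D.Ok V ok) {γ : ℕ} (hγ : γ ≠ 0) (x : X) : ‖B.fn γ x‖ ≤ 3 * ‖x‖ :=
  B.norm_fn_le hD hγ fun _ => (B.norm_co _ _).trans (B.norm_sub_P _ _)

/-- `(x - P_s x)(η) = 0` if `P_s x = x`. -/
lemma fn_eq_zero_of_P_eq (hD : D.Ok V ok) {γ q : ℕ} (hγ : γ ≠ 0) {x : X} (h : B.P q x = x)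
    (hq : q ≤ D.par γ + 1) : B.fn γ x = 0 := by
  unfold fn
  refine Finset.sum_eq_zero fun i _ => ?_
  have : q ≤ D.s γ i := hq.trans (hD.s_gt γ i hγ)
  rw [B.P_of_P_eq h this]; simp

/-- `x - P_s x` vanishes at `η` if `P_p x = 0` and `η < p`. -/
lemma co_sub_P_eq_zero {s η p : ℕ} {x : X} (h : B.P p x = 0) (hη : η < p) :
    B.co η (x - B.P s x) = 0 := by
  rw [map_sub, B.co_of_P_zero h hη]
  by_cases hs : s ≤ η
  · rw [B.P_of_P_zero h (hs.trans hη.le)]; simp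
  · rw [B.co_P s η x (not_le.1 hs), B.co_of_P_zero h hη]; simp

lemma fn_eq_zero_of_P_zero (hD : D.Ok V ok) {γ p : ℕ} (hγ : γ ≠ 0) {x : X} (h : B.P p x = 0)
    (hq : γ ≤ p) : B.fn γ x = 0 := by
  unfold fn
  refine Finset.sum_eq_zero fun i _ => ?_
  rw [B.co_sub_P_eq_zero h ((hD.η_lt γ i hγ).trans_le hq), map_zero]

/-- If no coordinate below `q` of weight `w` sees `x = P_q x`, then the nodes of weight `w`
see at most `3 β_w ‖x‖`. -/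
lemma local_weight (hD : D.Ok V ok) {q w : ℕ} {x : X} (hq : B.P q x = x)
    (h0 : ∀ γ < q, γ ≠ 0 → D.wt γ = w → B.co γ x = 0) :
    ∀ γ, γ ≠ 0 → D.wt γ = w → ‖B.co γ x‖ ≤ 3 * β w * ‖x‖ := by
  have hβ := β_pos w
  intro γ
  induction γ using Nat.strong_induction_on with
  | _ γ ih =>
    intro hγ hw
    by_cases hlt : γ < q
    · rw [h0 γ hlt hγ hw]; simp; positivity
    · push Not at hlt
      rw [B.co_eq γ x hγ, B.dd_eq_zero_of_P_eq hq hlt, add_zero]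
      by_cases hp0 : D.par γ = 0
      · rw [hp0, B.co_zero, zero_add, hw, norm_smul]
        have := B.norm_fn hD hγ x
        simp only [norm_realK, Real.norm_eq_abs, abs_of_pos hβ]
        nlinarith
      · have hwp : D.wt (D.par γ) = w := (hD.wt_par γ hγ hp0).trans hw
        by_cases hpq : D.par γ < q
        · rw [h0 _ hpq hp0 hwp, zero_add, hw, norm_smul]
          have := B.norm_fn hD hγ x
          simp only [norm_realK, Real.norm_eq_abs, abs_of_pos hβ]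
          nlinarith
        · push Not at hpq
          rw [B.fn_eq_zero_of_P_eq hD hγ hq (by omega), smul_zero, add_zero]
          exact ih _ (hD.par_lt γ hγ) hp0 hwp

end BD

end Pool.Agent.R184CA
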