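import Pool.Agent.R184CA.Compl

/-! The unconditional algebra of finitely supported matrices on `ℓ_p`. -/

namespace Pool.Agent.R184CA

open Filter Topology
open scoped ENNReal

/-- The space `ℓ_p` over `𝕜`. -/
abbrev ellp (𝕜 : Type) [RCLike 𝕜] (p : ℝ≥0∞) : Type := lp (fun _ : ℕ => 𝕜) p

/-- Matrices `(a (i, j))` with rows and columns indexed by `ℕ` and finitely many nonzero entries
in `𝕜`. The parameter `p` only serves for the norm. -/
def FinMat (𝕜 : Type) [RCLike 𝕜] (_p : ℝ≥0∞) : Type := (ℕ × ℕ) →₀ 𝕜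

noncomputable instance (𝕜 : Type) [RCLike 𝕜] (p : ℝ≥0∞) : AddCommGroup (FinMat 𝕜 p) :=
  Finsupp.instAddCommGroup

noncomputable instance (𝕜 : Type) [RCLike 𝕜] (p : ℝ≥0∞) : Module 𝕜 (FinMat 𝕜 p) :=
  Finsupp.module (ℕ × ℕ) 𝕜

namespace FinMat

variable {𝕜 : Type} [RCLike 𝕜] {p : ℝ≥0∞}

/-- the entry `a (i, j)` -/
def entry (A : FinMat 𝕜 p) (i j : ℕ) : 𝕜 := (show (ℕ × ℕ) →₀ 𝕜 from A) (i, j)

@[ext] lemma ext {A B : FinMat 𝕜 p} (h : ∀ i j, A.entry i j = B.entry i j) : A = B :=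
  Finsupp.ext fun ij => h ij.1 ij.2

@[simp] lemma entry_add (A B : FinMat 𝕜 p) (i j : ℕ) :
    (A + B).entry i j = A.entry i j + B.entry i j := rfl

@[simp] lemma entry_smul (c : 𝕜) (A : FinMat 𝕜 p) (i j : ℕ) :
    (c • A).entry i j = c * A.entry i j := rfl

@[simp] lemma entry_zero (i j : ℕ) : (0 : FinMat 𝕜 p).entry i j = 0 := rfl

lemma exists_bound (A : FinMat 𝕜 p) : ∃ N, ∀ i j, N ≤ i ∨ N ≤ j → A.entry i j = 0 := by
  classical
  let s : Finset (ℕ × ℕ) := (show (ℕ × ℕ) →₀ 𝕜 from A).support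
  refine ⟨s.sup (fun ij => max ij.1 ij.2) + 1, fun i j hij => ?_⟩
  by_contra h
  have h1 : (i, j) ∈ s := Finsupp.mem_support_iff.2 h
  have h2 : max i j ≤ s.sup (fun ij => max ij.1 ij.2) :=
    Finset.le_sup (f := fun ij : ℕ × ℕ => max ij.1 ij.2) h1
  have h3 := le_max_left i j
  have h4 := le_max_right i j
  omega

/-- The matrix with the entries `a i j` for `i, j < N` and `0` otherwise. -/
noncomputable def ofFun (N : ℕ) (a : ℕ → ℕ → 𝕜) : FinMat 𝕜 p :=
  Finsupp.onFinset (Finset.range N ×ˢ Finset.range N)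
    (fun ij => if ij.1 < N ∧ ij.2 < N then a ij.1 ij.2 else 0)
    (fun ij h => by
      rw [Finset.mem_product, Finset.mem_range, Finset.mem_range]
      by_contra h1
      exact h (if_neg h1))

lemma entry_ofFun (N : ℕ) (a : ℕ → ℕ → 𝕜) (i j : ℕ) :
    (ofFun (p := p) N a).entry i j = if i < N ∧ j < N then a i j else 0 := rfl

/-- a bound for the support -/
noncomputable def size (A : FinMat 𝕜 p) : ℕ := Classical.choose A.exists_bound

lemma entry_of_size (A : FinMat 𝕜 p) {i j : ℕ} (h : A.size ≤ i ∨ A.size ≤ j) :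
    A.entry i j = 0 := Classical.choose_spec A.exists_bound i j h

/-- The product of matrices. -/
noncomputable def mul (A B : FinMat 𝕜 p) : FinMat 𝕜 p :=
  ofFun (max A.size B.size)
    (fun i k => ∑ j ∈ Finset.range (max A.size B.size), A.entry i j * B.entry j k)

/-- The entries of the product: the usual formula. -/
lemma hasSum_mul (A B : FinMat 𝕜 p) (i k : ℕ) :
    HasSum (fun j => A.entry i j * B.entry j k) ((mul A B).entry i k) := by
  have h0 : ∀ j ∉ Finset.range (max A.size B.size), A.entry i j * B.entry j k = 0 := by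
    intro j hj
    rw [Finset.mem_range, not_lt] at hj
    rw [A.entry_of_size (Or.inr ((le_max_left _ _).trans hj)), zero_mul]
  have h1 : HasSum (fun j => A.entry i j * B.entry j k)
      (∑ j ∈ Finset.range (max A.size B.size), A.entry i j * B.entry j k) :=
    hasSum_sum_of_ne_finset_zero h0
  convert h1 using 1
  rw [mul, entry_ofFun]
  split_ifs with h
  · rfl
  · symm
    refine Finset.sum_eq_zero fun j _ => ?_
    rw [not_and_or, not_lt, not_lt] at h
    rcases h with h | h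
    · rw [A.entry_of_size (Or.inl ((le_max_left _ _).trans h)), zero_mul]
    · rw [B.entry_of_size (Or.inr ((le_max_right _ _).trans h)), mul_zero]

lemma entry_mul (A B : FinMat 𝕜 p) (N : ℕ) (hA : ∀ i j, N ≤ i ∨ N ≤ j → A.entry i j = 0)
    (i k : ℕ) : (mul A B).entry i k = ∑ j ∈ Finset.range N, A.entry i j * B.entry j k := by
  have h0 : ∀ j ∉ Finset.range N, A.entry i j * B.entry j k = 0 := by
    intro j hj
    rw [Finset.mem_range, not_lt] at hj
    rw [hA i j (Or.inr hj), zero_mul]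
  exact (hasSum_mul A B i k).unique (hasSum_sum_of_ne_finset_zero h0)

section

variable [Fact (1 ≤ p)]

/-- The matrix unit `E i j` as an operator on `ℓ_p`. -/
noncomputable def unitOp (𝕜 : Type) [RCLike 𝕜] (p : ℝ≥0∞) [Fact (1 ≤ p)] (i j : ℕ) :
    ellp 𝕜 p →L[𝕜] ellp 𝕜 p :=
  (lp.singleContinuousLinearMap 𝕜 (fun _ : ℕ => 𝕜) p i) ∘L (lp.evalCLM 𝕜 (fun _ : ℕ => 𝕜) p j)

/-- The operator `∑ a (i, j) E i j` on `ℓ_p` with the matrix `A`. -/
noncomputable def matOp (A : FinMat 𝕜 p) : ellp 𝕜 p →L[𝕜] ellp 𝕜 p :=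
  ∑ i ∈ Finset.range A.size, ∑ j ∈ Finset.range A.size, A.entry i j • unitOp 𝕜 p i j

/-- the same operator -/
noncomputable def matOpL (A : FinMat 𝕜 p) : ellp 𝕜 p →L[𝕜] ellp 𝕜 p :=
  Finsupp.linearCombination 𝕜 (fun ij : ℕ × ℕ => unitOp 𝕜 p ij.1 ij.2) A

lemma matOpL_eq (A : FinMat 𝕜 p) {N : ℕ} (hA : ∀ i j, N ≤ i ∨ N ≤ j → A.entry i j = 0) :
    matOpL A = ∑ i ∈ Finset.range N, ∑ j ∈ Finset.range N, A.entry i j • unitOp 𝕜 p i j := by
  classical
  rw [← Finset.sum_product']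
  change Finsupp.linearCombination 𝕜 (fun ij : ℕ × ℕ => unitOp 𝕜 p ij.1 ij.2) A = _
  rw [Finsupp.linearCombination_apply,
    Finsupp.sum_of_support_subset _ (s := Finset.range N ×ˢ Finset.range N) _ _ (by simp)]
  · rfl
  · intro ij hij
    rw [Finset.mem_product, Finset.mem_range, Finset.mem_range]
    by_contra h
    rw [not_and_or, not_lt, not_lt] at h
    exact (Finsupp.mem_support_iff.1 hij) (hA _ _ h)

lemma matOp_eq (A : FinMat 𝕜 p) : matOp A = matOpL A :=
  (matOpL_eq A fun _ _ h => A.entry_of_size h).symm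

/-- The matrix of the absolute values of the entries. -/
noncomputable def absMat (A : FinMat 𝕜 p) : FinMat 𝕜 p :=
  Finsupp.mapRange (fun z : 𝕜 => ((‖z‖ : ℝ) : 𝕜)) (by simp) A

omit [Fact (1 ≤ p)] in
@[simp] lemma entry_absMat (A : FinMat 𝕜 p) (i j : ℕ) :
    (absMat A).entry i j = ((‖A.entry i j‖ : ℝ) : 𝕜) := rfl

lemma unitOp_apply (i j : ℕ) (x : ellp 𝕜 p) (k : ℕ) :
    (unitOp 𝕜 p i j x) k = if k = i then x j else 0 := by
  change (lp.single p i (x j) : ellp 𝕜 p) k = _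
  rw [lp.single_apply]
  by_cases h : k = i
  · subst h
    simp [Pi.single]
  · simp [Pi.single, h]

lemma matOp_apply (A : FinMat 𝕜 p) {N : ℕ} (hA : ∀ i j, N ≤ i ∨ N ≤ j → A.entry i j = 0)
    (x : ellp 𝕜 p) (i : ℕ) : (matOp A x) i = ∑ j ∈ Finset.range N, A.entry i j * x j := by
  classical
  rw [matOp_eq, matOpL_eq A hA]
  simp only [sum_apply, lp.coeFn_sum, Finset.sum_apply]
  have h2 : ∀ i' ∈ Finset.range N, (∑ j ∈ Finset.range N,
      ((A.entry i' j • unitOp 𝕜 p i' j) x) i) =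
      if i = i' then ∑ j ∈ Finset.range N, A.entry i j * x j else 0 := by
    intro i' _
    by_cases h : i = i'
    · subst h
      rw [if_pos rfl]
      refine Finset.sum_congr rfl fun j _ => ?_
      rw [smul_apply, lp.coeFn_smul, Pi.smul_apply, unitOp_apply, if_pos rfl, smul_eq_mul]
    · rw [if_neg h]
      refine Finset.sum_eq_zero fun j _ => ?_
      rw [smul_apply, lp.coeFn_smul, Pi.smul_apply, unitOp_apply, if_neg h, smul_zero]
  rw [Finset.sum_congr rfl h2, Finset.sum_ite_eq]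
  split_ifs with h
  · rfl
  · rw [Finset.mem_range, not_lt] at h
    symm
    refine Finset.sum_eq_zero fun j _ => ?_
    rw [hA i j (Or.inl h), zero_mul]

lemma matOp_add (A B : FinMat 𝕜 p) : matOp (A + B) = matOp A + matOp B := by
  rw [matOp_eq, matOp_eq, matOp_eq]
  exact map_add (Finsupp.linearCombination 𝕜 (fun ij : ℕ × ℕ => unitOp 𝕜 p ij.1 ij.2)) A B

lemma matOp_smul (c : 𝕜) (A : FinMat 𝕜 p) : matOp (c • A) = c • matOp A := by
  rw [matOp_eq, matOp_eq]
  exact map_smul (Finsupp.linearCombination 𝕜 (fun ij : ℕ × ℕ => unitOp 𝕜 p ij.1 ij.2)) c A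

lemma matOp_zero : matOp (0 : FinMat 𝕜 p) = 0 := by
  rw [matOp_eq]
  exact map_zero (Finsupp.linearCombination 𝕜 (fun ij : ℕ × ℕ => unitOp 𝕜 p ij.1 ij.2))

omit [Fact (1 ≤ p)] in
/-- a common bound -/
lemma exists_bound₂ (A B : FinMat 𝕜 p) : ∃ N, (∀ i j, N ≤ i ∨ N ≤ j → A.entry i j = 0) ∧
    ∀ i j, N ≤ i ∨ N ≤ j → B.entry i j = 0 := by
  refine ⟨max A.size B.size, fun i j h => A.entry_of_size ?_, fun i j h => B.entry_of_size ?_⟩
  · exact h.imp (le_trans (le_max_left _ _)) (le_trans (le_max_left _ _))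
  · exact h.imp (le_trans (le_max_right _ _)) (le_trans (le_max_right _ _))

omit [Fact (1 ≤ p)] in
lemma entry_mul_zero (A B : FinMat 𝕜 p) {N : ℕ} (hA : ∀ i j, N ≤ i ∨ N ≤ j → A.entry i j = 0)
    (hB : ∀ i j, N ≤ i ∨ N ≤ j → B.entry i j = 0) :
    ∀ i j, N ≤ i ∨ N ≤ j → (mul A B).entry i j = 0 := by
  intro i k h
  rw [entry_mul A B N hA]
  refine Finset.sum_eq_zero fun j _ => ?_
  rcases h with h | h
  · rw [hA i j (Or.inl h), zero_mul]
  · rw [hB j k (Or.inr h), mul_zero]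

lemma matOp_mul (A B : FinMat 𝕜 p) : matOp (mul A B) = matOp A * matOp B := by
  obtain ⟨N, hA, hB⟩ := exists_bound₂ A B
  ext x i
  rw [mul_apply_eq_comp, matOp_apply _ (entry_mul_zero A B hA hB), matOp_apply A hA]
  have h1 : ∀ k ∈ Finset.range N, (mul A B).entry i k * x k =
      ∑ j ∈ Finset.range N, A.entry i j * (B.entry j k * x k) := by
    intro k _
    rw [entry_mul A B N hA, Finset.sum_mul]
    exact Finset.sum_congr rfl fun j _ => mul_assoc _ _ _
  rw [Finset.sum_congr rfl h1, Finset.sum_comm]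
  refine Finset.sum_congr rfl fun j _ => ?_
  rw [matOp_apply B hB, Finset.mul_sum]

lemma matOp_single (A : FinMat 𝕜 p) (i j : ℕ) :
    (matOp A (lp.single p j (1 : 𝕜))) i = A.entry i j := by
  obtain ⟨N, hA⟩ := A.exists_bound
  have hA' : ∀ i' j', max N (j + 1) ≤ i' ∨ max N (j + 1) ≤ j' → A.entry i' j' = 0 :=
    fun i' j' h => hA i' j' (h.imp (le_trans (le_max_left _ _)) (le_trans (le_max_left _ _)))
  rw [matOp_apply A hA', Finset.sum_eq_single j]
  · rw [lp.single_apply_self, mul_one]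
  · intro k _ hk
    rw [lp.single_apply_ne _ _ _ hk, mul_zero]
  · intro h
    exact absurd (Finset.mem_range.2 (lt_of_lt_of_le (Nat.lt_succ_self j) (le_max_right _ _))) h

lemma matOp_inj {A B : FinMat 𝕜 p} (h : matOp A = matOp B) : A = B := by
  ext i j
  rw [← matOp_single, ← matOp_single, h]

/-- the vector of absolute values -/
noncomputable def absVec (x : ellp 𝕜 p) : ellp 𝕜 p :=
  ⟨fun i => ((‖x i‖ : ℝ) : 𝕜), by
    have h := lp.memℓp x
    refine (memℓp_norm_iff).1 ?_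
    have : (fun i => ‖((‖x i‖ : ℝ) : 𝕜)‖) = fun i => ‖x i‖ := by
      funext i
      rw [norm_realK, norm_norm]
    rw [this]
    exact h.norm⟩

omit [Fact (1 ≤ p)] in
lemma absVec_apply (x : ellp 𝕜 p) (i : ℕ) : absVec x i = ((‖x i‖ : ℝ) : 𝕜) := rfl

lemma norm_absVec_le (x : ellp 𝕜 p) : ‖absVec x‖ ≤ ‖x‖ := by
  have hp : p ≠ 0 := (zero_lt_one.trans_le (Fact.out : 1 ≤ p)).ne'
  refine lp.norm_mono hp fun i => ?_
  rw [absVec_apply, norm_realK, norm_norm]

/-- monotonicity of the norm of an operator with nonnegative entries -/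
lemma norm_matOp_le (A B : FinMat 𝕜 p) (r : ℕ → ℕ → ℝ) (h1 : ∀ i j, ‖A.entry i j‖ ≤ r i j)
    (h2 : ∀ i j, B.entry i j = ((r i j : ℝ) : 𝕜)) : ‖matOp A‖ ≤ ‖matOp B‖ := by
  obtain ⟨N, hA, hB⟩ := exists_bound₂ A B
  have hp : p ≠ 0 := (zero_lt_one.trans_le (Fact.out : 1 ≤ p)).ne'
  refine ContinuousLinearMap.opNorm_le_bound _ (norm_nonneg _) fun x => ?_
  calc ‖matOp A x‖ ≤ ‖matOp B (absVec x)‖ := by
        refine lp.norm_mono hp fun i => ?_
        rw [matOp_apply A hA, matOp_apply B hB]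
        have h3 : ∑ j ∈ Finset.range N, B.entry i j * absVec x j =
            ((∑ j ∈ Finset.range N, r i j * ‖x j‖ : ℝ) : 𝕜) := by
          rw [RCLike.ofReal_sum]
          refine Finset.sum_congr rfl fun j _ => ?_
          rw [h2, absVec_apply, RCLike.ofReal_mul]
        rw [h3, norm_realK, Real.norm_of_nonneg (Finset.sum_nonneg fun j _ =>
          mul_nonneg ((norm_nonneg _).trans (h1 i j)) (norm_nonneg _))]
        refine norm_sum_le_of_le _ fun j _ => ?_
        rw [norm_mul]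
        exact mul_le_mul_of_nonneg_right (h1 i j) (norm_nonneg _)
    _ ≤ ‖matOp B‖ * ‖absVec x‖ := ContinuousLinearMap.le_opNorm _ _
    _ ≤ ‖matOp B‖ * ‖x‖ := mul_le_mul_of_nonneg_left (norm_absVec_le x) (norm_nonneg _)

/-- The vector `A x` in `ℓ_p`, with coordinates `∑ a (i, j) x j`. -/
noncomputable def matVec (A : FinMat 𝕜 p) (x : ellp 𝕜 p) : ellp 𝕜 p :=
  ∑ i ∈ Finset.range A.size, lp.single p i (∑ j ∈ Finset.range A.size, A.entry i j * x j)

omit [Fact (1 ≤ p)] in
lemma single_sum (i : ℕ) (s : Finset ℕ) (f : ℕ → 𝕜) :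
    (lp.single p i (∑ j ∈ s, f j) : ellp 𝕜 p) = ∑ j ∈ s, lp.single p i (f j) :=
  map_sum (lp.singleAddMonoidHom (E := fun _ : ℕ => 𝕜) p i) f s

lemma matVec_eq (A : FinMat 𝕜 p) (x : ellp 𝕜 p) : matVec A x = matOp A x := by
  rw [matVec, matOp, sum_apply]
  refine Finset.sum_congr rfl fun i _ => ?_
  rw [sum_apply, single_sum]
  refine Finset.sum_congr rfl fun j _ => ?_
  rw [smul_apply]
  change _ = A.entry i j • (lp.single p i (x j) : ellp 𝕜 p)
  rw [← lp.single_smul, smul_eq_mul]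

/-- The norm `‖A‖_u`: the norm, as an operator on `ℓ_p`, of the matrix of absolute values. -/
noncomputable instance : Norm (FinMat 𝕜 p) :=
  ⟨fun A => sInf {c : ℝ | 0 ≤ c ∧ ∀ x : ellp 𝕜 p, ‖matVec (absMat A) x‖ ≤ c * ‖x‖}⟩

lemma norm_def (A : FinMat 𝕜 p) : ‖A‖ = ‖matOp (absMat A)‖ := by
  rw [ContinuousLinearMap.norm_def]
  change sInf {c : ℝ | 0 ≤ c ∧ ∀ x : ellp 𝕜 p, ‖matVec (absMat A) x‖ ≤ c * ‖x‖} = _
  simp only [matVec_eq]

lemma norm_add_le' (A B : FinMat 𝕜 p) : ‖A + B‖ ≤ ‖A‖ + ‖B‖ := by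
  rw [norm_def, norm_def, norm_def]
  refine (norm_matOp_le (absMat (A + B)) (absMat A + absMat B)
    (fun i j => ‖A.entry i j‖ + ‖B.entry i j‖) (fun i j => ?_) (fun i j => ?_)).trans ?_
  · rw [entry_absMat, norm_realK, norm_norm, entry_add]
    exact norm_add_le _ _
  · rw [entry_add, entry_absMat, entry_absMat, RCLike.ofReal_add]
  · rw [matOp_add]
    exact norm_add_le _ _

lemma norm_smul' (c : 𝕜) (A : FinMat 𝕜 p) : ‖c • A‖ = ‖c‖ * ‖A‖ := by
  have h : absMat (c • A) = ((‖c‖ : ℝ) : 𝕜) • absMat A := by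
    ext i j
    rw [entry_absMat, entry_smul, entry_smul, entry_absMat, norm_mul, RCLike.ofReal_mul]
  rw [norm_def, norm_def, h, matOp_smul, norm_smul, norm_realK, norm_norm]

lemma eq_zero_of_norm (A : FinMat 𝕜 p) (h : ‖A‖ = 0) : A = 0 := by
  rw [norm_def, norm_eq_zero, ← matOp_zero] at h
  have h1 := matOp_inj h
  ext i j
  have h2 : (absMat A).entry i j = (0 : FinMat 𝕜 p).entry i j := by rw [h1]
  rw [entry_absMat, entry_zero, RCLike.ofReal_eq_zero, norm_eq_zero] at h2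
  rw [h2, entry_zero]

lemma norm_mul_le' (A B : FinMat 𝕜 p) : ‖mul A B‖ ≤ ‖A‖ * ‖B‖ := by
  obtain ⟨N, hA, hB⟩ := exists_bound₂ A B
  have hA' : ∀ i j, N ≤ i ∨ N ≤ j → (absMat A).entry i j = 0 := fun i j h => by
    rw [entry_absMat, hA i j h, norm_zero, RCLike.ofReal_zero]
  rw [norm_def, norm_def, norm_def]
  refine (norm_matOp_le (absMat (mul A B)) (mul (absMat A) (absMat B))
    (fun i k => ∑ j ∈ Finset.range N, ‖A.entry i j‖ * ‖B.entry j k‖)
    (fun i k => ?_) (fun i k => ?_)).trans ?_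
  · rw [entry_absMat, norm_realK, norm_norm, entry_mul A B N hA]
    exact norm_sum_le_of_le _ fun j _ => (norm_mul _ _).le
  · rw [entry_mul _ _ N hA', RCLike.ofReal_sum]
    exact Finset.sum_congr rfl fun j _ => by rw [entry_absMat, entry_absMat, RCLike.ofReal_mul]
  · rw [matOp_mul]
    exact norm_mul_le _ _

noncomputable instance : NormedAddCommGroup (FinMat 𝕜 p) :=
  AddGroupNorm.toNormedAddCommGroup
    { toFun := fun A => ‖A‖
      map_zero' := by
        have := norm_smul' (0 : 𝕜) (0 : FinMat 𝕜 p)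
        rwa [zero_smul, norm_zero, zero_mul] at this
      add_le' := norm_add_le'
      neg' := fun A => by
        have := norm_smul' (-1 : 𝕜) A
        rwa [neg_smul, one_smul, norm_neg, norm_one, one_mul] at this
      eq_zero_of_map_eq_zero' := eq_zero_of_norm }

lemma norm_def' (A : FinMat 𝕜 p) : ‖A‖ = ‖matOp (absMat A)‖ := norm_def A

noncomputable instance : NormedSpace 𝕜 (FinMat 𝕜 p) where
  norm_smul_le c A := (norm_smul' c A).le

/-- the product as a bounded bilinear map -/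
noncomputable def mulL (𝕜 : Type) [RCLike 𝕜] (p : ℝ≥0∞) [Fact (1 ≤ p)] :
    FinMat 𝕜 p →L[𝕜] FinMat 𝕜 p →L[𝕜] FinMat 𝕜 p :=
  LinearMap.mkContinuous₂
    (LinearMap.mk₂ 𝕜 mul
      (fun A A' B => matOp_inj (by simp only [matOp_mul, matOp_add, add_mul]))
      (fun c A B => matOp_inj (by simp only [matOp_mul, matOp_smul, smul_mul_assoc]))
      (fun A B B' => matOp_inj (by simp only [matOp_mul, matOp_add, mul_add]))
      (fun c A B => matOp_inj (by simp only [matOp_mul, matOp_smul, mul_smul_comm])))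
    1 (fun A B => by
      rw [one_mul]
      exact norm_mul_le' A B)

lemma mulL_apply (A B : FinMat 𝕜 p) : mulL 𝕜 p A B = mul A B := rfl

/-- the corner projections -/
noncomputable def projL (𝕜 : Type) [RCLike 𝕜] (p : ℝ≥0∞) [Fact (1 ≤ p)] (n : ℕ) :
    FinMat 𝕜 p →L[𝕜] FinMat 𝕜 p :=
  LinearMap.mkContinuous
    { toFun := fun A => ofFun n A.entry
      map_add' := fun A B => by
        ext i j
        simp only [entry_add, entry_ofFun]
        split_ifs <;> simp
      map_smul' := fun c A => by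
        ext i j
        simp only [entry_smul, entry_ofFun, RingHom.id_apply]
        split_ifs <;> simp }
    1 (fun A => by
      rw [one_mul, norm_def', norm_def']
      refine norm_matOp_le _ _ (fun i j => ‖A.entry i j‖) (fun i j => ?_) (fun i j => ?_)
      · rw [entry_absMat, norm_realK, norm_norm]
        change ‖(ofFun n A.entry : FinMat 𝕜 p).entry i j‖ ≤ _
        rw [entry_ofFun]
        split_ifs
        · exact le_rfl
        · rw [norm_zero]
          exact norm_nonneg _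
      · exact entry_absMat A i j)

lemma entry_projL (n : ℕ) (A : FinMat 𝕜 p) (i j : ℕ) :
    (projL 𝕜 p n A).entry i j = if i < n ∧ j < n then A.entry i j else 0 :=
  entry_ofFun n A.entry i j

theorem calkin (𝕜 : Type) [RCLike 𝕜] (p : ℝ≥0∞) [Fact (1 ≤ p)] :
    ∃ m : UniformSpace.Completion (FinMat 𝕜 p) →L[𝕜] UniformSpace.Completion (FinMat 𝕜 p) →L[𝕜]
        UniformSpace.Completion (FinMat 𝕜 p),
      (∀ A B : FinMat 𝕜 p, m A B = ((mul A B : FinMat 𝕜 p) : UniformSpace.Completion (FinMat 𝕜 p)))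
      ∧ IsCalkinMul 𝕜 (UniformSpace.Completion (FinMat 𝕜 p) × 𝕜) (unitMul fun a b => m a b) := by
  refine completion_unit (mulL 𝕜 p) ?_ (projL 𝕜 p) 1 ?_ ?_ ?_ ?_ ?_
  · intro A B C
    change mul (mul A B) C = mul A (mul B C)
    exact matOp_inj (by simp only [matOp_mul, mul_assoc])
  · intro n
    exact LinearMap.mkContinuous_norm_le _ zero_le_one _
  · intro k n A
    ext i j
    simp only [entry_projL]
    by_cases h1 : i < k ∧ j < k <;> by_cases h2 : i < n ∧ j < n
    · rw [if_pos h1, if_pos h2, if_pos]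
      simp only [lt_min_iff]
      tauto
    · rw [if_pos h1, if_neg h2, if_neg]
      simp only [lt_min_iff]
      tauto
    · rw [if_neg h1, if_neg]
      simp only [lt_min_iff]
      tauto
    · rw [if_neg h1, if_neg]
      simp only [lt_min_iff]
      tauto
  · intro n
    let f : LinearMap.range (projL 𝕜 p n : FinMat 𝕜 p →ₗ[𝕜] FinMat 𝕜 p) →ₗ[𝕜]
        (Fin n × Fin n → 𝕜) :=
      { toFun := fun A ij => (A : FinMat 𝕜 p).entry ij.1 ij.2
        map_add' := fun A B => rfl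
        map_smul' := fun c A => rfl }
    refine Module.Finite.of_injective f ?_
    rw [injective_iff_map_eq_zero]
    rintro ⟨A, B, rfl⟩ h
    refine Subtype.ext ?_
    change projL 𝕜 p n B = 0
    ext i j
    rw [entry_zero]
    by_cases hij : i < n ∧ j < n
    · exact congrFun h (⟨i, hij.1⟩, ⟨j, hij.2⟩)
    · rw [entry_projL, if_neg hij]
  · intro A
    refine tendsto_const_nhds.congr' ?_
    filter_upwards [eventually_ge_atTop A.size] with n hn
    ext i j
    rw [entry_projL]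
    split_ifs with h
    · rfl
    · rw [not_and_or, not_lt, not_lt] at h
      exact A.entry_of_size (h.imp (le_trans hn) (le_trans hn))
  · intro n A B
    change projL 𝕜 p n (mul (projL 𝕜 p n A) (projL 𝕜 p n B)) =
      mul (projL 𝕜 p n A) (projL 𝕜 p n B)
    ext i j
    rw [entry_projL]
    split_ifs with h
    · rfl
    · have hz : ∀ (A : FinMat 𝕜 p) (i j), n ≤ i ∨ n ≤ j → (projL 𝕜 p n A).entry i j = 0 := by
        intro A i j h
        rw [entry_projL, if_neg]
        rw [not_and_or, not_lt, not_lt]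
        exact h
      rw [not_and_or, not_lt, not_lt] at h
      exact (entry_mul_zero _ _ (hz A) (hz B) i j h).symm

end

end FinMat

section

variable (𝕜 : Type) [RCLike 𝕜] (p : ℝ≥0∞) [Fact (1 ≤ p)]

/-- The Banach space `K(ℓ_p)_u`: the completion of the finitely supported matrices under the norm
`‖·‖_u`. -/
abbrev Ku : Type := UniformSpace.Completion (FinMat 𝕜 p)

variable {𝕜 p}

/-- A finitely supported matrix as an element of `K(ℓ_p)_u`. -/
noncomputable def toKu (A : FinMat 𝕜 p) : Ku 𝕜 p := (A : UniformSpace.Completion (FinMat 𝕜 p))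

/-- `m` is the multiplication of `K(ℓ_p)_u`: it is continuous and on finitely supported matrices it
is the matrix multiplication. -/
def IsKuMul (m : Ku 𝕜 p → Ku 𝕜 p → Ku 𝕜 p) : Prop :=
  Continuous (fun x : Ku 𝕜 p × Ku 𝕜 p => m x.1 x.2) ∧
    ∀ A B : FinMat 𝕜 p, m (toKu A) (toKu B) = toKu (A.mul B)

theorem ku_calkin (𝕜 : Type) [RCLike 𝕜] (p : ℝ≥0∞) [Fact (1 ≤ p)] :
    ∃ m : Ku 𝕜 p → Ku 𝕜 p → Ku 𝕜 p, IsKuMul m ∧ IsCalkinMul 𝕜 (Ku 𝕜 p × 𝕜) (unitMul m) := by
  obtain ⟨m, h1, h2⟩ := FinMat.calkin 𝕜 p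
  refine ⟨fun a b => m a b, ⟨?_, h1⟩, h2⟩
  exact m.continuous₂

end

end Pool.Agent.R184CA
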