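import Pool.Agent.R184CA.Asym

/-! Operators which act asymptotically coordinatewise. -/

namespace Pool.Agent.R184CA

open Filter Topology

variable {𝕜 : Type*} [RCLike 𝕜] {E : Type*} [NormedAddCommGroup E] [NormedSpace 𝕜 E]
variable {X : Type*} [NormedAddCommGroup X] [NormedSpace 𝕜 X]
variable {D : Nodes 𝕜 E} {V : ℕ → Submodule 𝕜 E} {ok : ℕ → (E →L[𝕜] E) → Prop}

/-- `T` acts asymptotically as the coordinatewise application of `Φ`. -/
def Rel (B : BD D V X) (T : X →L[𝕜] X) (Φ : E →L[𝕜] E) : Prop :=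
  ∀ ε > 0, ∃ N, ∀ x : X, B.P N x = 0 → ∀ γ, ‖B.co γ (T x) - Φ (B.co γ x)‖ ≤ ε * ‖x‖

variable {B : BD D V X}

lemma Rel.add {T T' : X →L[𝕜] X} {Φ Φ' : E →L[𝕜] E} (h : Rel B T Φ) (h' : Rel B T' Φ') :
    Rel B (T + T') (Φ + Φ') := by
  intro ε hε
  obtain ⟨N, hN⟩ := h (ε / 2) (half_pos hε)
  obtain ⟨N', hN'⟩ := h' (ε / 2) (half_pos hε)
  refine ⟨max N N', fun x hx γ => ?_⟩
  have h1 := hN x (B.P_of_P_zero hx (le_max_left _ _)) γ
  have h2 := hN' x (B.P_of_P_zero hx (le_max_right _ _)) γ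
  have e : B.co γ ((T + T') x) - (Φ + Φ') (B.co γ x) =
      (B.co γ (T x) - Φ (B.co γ x)) + (B.co γ (T' x) - Φ' (B.co γ x)) := by
    simp only [_root_.add_apply, map_add]; abel
  rw [e]
  refine (norm_add_le _ _).trans ?_
  linarith

lemma Rel.smul {T : X →L[𝕜] X} {Φ : E →L[𝕜] E} (c : 𝕜) (h : Rel B T Φ) :
    Rel B (c • T) (c • Φ) := by
  intro ε hε
  obtain ⟨N, hN⟩ := h (ε / (‖c‖ + 1)) (by positivity)
  refine ⟨N, fun x hx γ => ?_⟩
  have h1 := hN x hx γ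
  have e : B.co γ ((c • T) x) - (c • Φ) (B.co γ x) = c • (B.co γ (T x) - Φ (B.co γ x)) := by
    simp only [_root_.smul_apply, map_smul, smul_sub]
  rw [e, norm_smul]
  calc ‖c‖ * ‖B.co γ (T x) - Φ (B.co γ x)‖ ≤ ‖c‖ * (ε / (‖c‖ + 1) * ‖x‖) := by gcongr
    _ = (‖c‖ / (‖c‖ + 1)) * (ε * ‖x‖) := by field_simp
    _ ≤ 1 * (ε * ‖x‖) := by
        gcongr
        rw [div_le_one (by positivity)]
        linarith
    _ = _ := one_mul _

lemma Rel.one : Rel B (1 : X →L[𝕜] X) (1 : E →L[𝕜] E) := by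
  intro ε hε
  refine ⟨0, fun x hx γ => ?_⟩
  simp only [_root_.one_apply_eq_self, sub_self, norm_zero]
  positivity

lemma Rel.mul {T T' : X →L[𝕜] X} {Φ Φ' : E →L[𝕜] E} (h : Rel B T Φ) (h' : Rel B T' Φ') :
    Rel B (T * T') (Φ * Φ') := by
  intro ε hε
  obtain ⟨M, hM⟩ := h (ε / (2 * (3 * ‖T'‖ + 1))) (by positivity)
  obtain ⟨ε2, hε2⟩ : ∃ ε2, ε2 = ε / (2 * (2 * ‖T‖ + 3 * ‖Φ‖ + 1)) := ⟨_, rfl⟩
  have hε2p : 0 < ε2 := by rw [hε2]; positivity
  obtain ⟨N, hN⟩ := h' ε2 hε2p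
  refine ⟨max M N, fun x hx γ => ?_⟩
  set y := T' x with hy
  have hxN := B.P_of_P_zero hx (le_max_right M N)
  have hy1 : ‖y‖ ≤ ‖T'‖ * ‖x‖ := T'.le_opNorm x
  have hPM : ‖B.P M y‖ ≤ 2 * (ε2 * ‖x‖) := by
    refine B.norm_P_le M y _ (by positivity) fun δ hδ => ?_
    have h1 := hN x hxN δ
    rw [B.co_of_P_zero hx (lt_of_lt_of_le hδ (le_max_left _ _)), map_zero, sub_zero] at h1
    exact h1
  have hPM0 : B.P M (y - B.P M y) = 0 := by rw [map_sub, B.P_P, min_self, sub_self]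
  have h1 := hM (y - B.P M y) hPM0 γ
  have h2 : ‖y - B.P M y‖ ≤ 3 * ‖y‖ := B.norm_sub_P M y
  have h3 : ‖B.co γ (T (B.P M y))‖ ≤ ‖T‖ * (2 * (ε2 * ‖x‖)) :=
    (B.norm_co _ _).trans ((T.le_opNorm _).trans (by gcongr))
  have h4 : ‖Φ (B.co γ (B.P M y))‖ ≤ ‖Φ‖ * (2 * (ε2 * ‖x‖)) :=
    (Φ.le_opNorm _).trans (by gcongr; exact (B.norm_co _ _).trans hPM)
  have h5 : ‖Φ (B.co γ y - Φ' (B.co γ x))‖ ≤ ‖Φ‖ * (ε2 * ‖x‖) :=
    (Φ.le_opNorm _).trans (by gcongr; exact hN x hxN γ)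
  have e : B.co γ ((T * T') x) - (Φ * Φ') (B.co γ x) =
      (B.co γ (T (y - B.P M y)) - Φ (B.co γ (y - B.P M y))) + B.co γ (T (B.P M y)) -
        Φ (B.co γ (B.P M y)) + Φ (B.co γ y - Φ' (B.co γ x)) +
        (Φ (B.co γ (B.P M y)) - Φ (B.co γ y) + Φ (B.co γ (y - B.P M y)))
        := by
    simp only [mul_apply_eq_comp, map_sub, ← hy]; abel
  have e2 : Φ (B.co γ (B.P M y)) - Φ (B.co γ y) + Φ (B.co γ (y - B.P M y)) = 0 := by
    simp only [map_sub]; abel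
  have e3 : B.co γ ((T * T') x) - (Φ * Φ') (B.co γ x) =
      (B.co γ (T (y - B.P M y)) - Φ (B.co γ (y - B.P M y))) + B.co γ (T (B.P M y)) -
        Φ (B.co γ (B.P M y)) + Φ (B.co γ y - Φ' (B.co γ x)) := by
    have : B.co γ y = B.co γ (y - B.P M y) + B.co γ (B.P M y) := by
      rw [← map_add, sub_add_cancel]
    have h7 : (T * T') x = T (y - B.P M y) + T (B.P M y) := by
      rw [← map_add, sub_add_cancel]; rfl
    rw [h7, map_sub Φ (B.co γ y), map_add, this, map_add]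
    change _ = _
    have h8 : (Φ * Φ') (B.co γ x) = Φ (Φ' (B.co γ x)) := rfl
    rw [h8]; abel
  rw [e3]
  have t1 : ‖B.co γ (T (y - B.P M y)) - Φ (B.co γ (y - B.P M y))‖ ≤ ε / 2 * ‖x‖ := by
    refine h1.trans ?_
    calc ε / (2 * (3 * ‖T'‖ + 1)) * ‖y - B.P M y‖ ≤
        ε / (2 * (3 * ‖T'‖ + 1)) * (3 * (‖T'‖ * ‖x‖)) := by
          gcongr; exact h2.trans (by gcongr)
      _ = (ε / 2 * ‖x‖) * ((3 * ‖T'‖) / (3 * ‖T'‖ + 1)) := by field_simp
      _ ≤ (ε / 2 * ‖x‖) * 1 := by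
          gcongr
          rw [div_le_one (by positivity)]; linarith
      _ = _ := mul_one _
  have t2 : ‖T‖ * (2 * (ε2 * ‖x‖)) + ‖Φ‖ * (2 * (ε2 * ‖x‖)) + ‖Φ‖ * (ε2 * ‖x‖) ≤
      ε / 2 * ‖x‖ := by
    calc ‖T‖ * (2 * (ε2 * ‖x‖)) + ‖Φ‖ * (2 * (ε2 * ‖x‖)) + ‖Φ‖ * (ε2 * ‖x‖)
        = (2 * ‖T‖ + 3 * ‖Φ‖) * ε2 * ‖x‖ := by ring
      _ = ((2 * ‖T‖ + 3 * ‖Φ‖) / (2 * ‖T‖ + 3 * ‖Φ‖ + 1)) * (ε / 2 * ‖x‖) := by
          rw [hε2]; field_simp
      _ ≤ 1 * (ε / 2 * ‖x‖) := by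
          gcongr
          rw [div_le_one (by positivity)]; linarith
      _ = _ := one_mul _
  refine (norm_add_le _ _).trans ?_
  have t3 := norm_sub_le ((B.co γ (T (y - B.P M y)) - Φ (B.co γ (y - B.P M y))) +
    B.co γ (T (B.P M y))) (Φ (B.co γ (B.P M y)))
  have t4 := norm_add_le (B.co γ (T (y - B.P M y)) - Φ (B.co γ (y - B.P M y)))
    (B.co γ (T (B.P M y)))
  linarith

lemma Rel.bound (hmono : Monotone V) {T : X →L[𝕜] X} {Φ : E →L[𝕜] E} (h : Rel B T Φ) :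
    ∀ t, ∀ v ∈ V t, ‖Φ v‖ ≤ 2 * ‖T‖ * ‖v‖ := by
  intro t v hv
  have key : ∀ ε > 0, ‖Φ v‖ ≤ 2 * ‖T‖ * ‖v‖ + ε * (2 * ‖v‖) := by
    intro ε hε
    obtain ⟨N, hN⟩ := h ε hε
    have hγ : max t N + 1 ≠ 0 := by omega
    have hvV : v ∈ V (max t N + 1) := hmono (by omega) hv
    obtain ⟨x, g1, g2, g3, g4⟩ := B.exists_sv _ hγ v hvV
    have h1 := hN x (B.P_of_P_zero g1 (by omega)) (max t N + 1)
    rw [g3] at h1
    have h2 : ‖B.co (max t N + 1) (T x)‖ ≤ ‖T‖ * (2 * ‖v‖) :=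
      (B.norm_co _ _).trans ((T.le_opNorm x).trans (by gcongr))
    have h3 : ‖Φ v‖ ≤ ‖B.co (max t N + 1) (T x)‖ + ‖B.co (max t N + 1) (T x) - Φ v‖ := by
      have := norm_sub_le (B.co (max t N + 1) (T x)) (B.co (max t N + 1) (T x) - Φ v)
      rwa [sub_sub_cancel] at this
    have h4 : ε * ‖x‖ ≤ ε * (2 * ‖v‖) := by gcongr
    linarith
  refine le_of_forall_pos_le_add fun δ hδ => ?_
  have h1 := key (δ / (2 * ‖v‖ + 1)) (by positivity)
  refine h1.trans ?_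
  have h2 : δ / (2 * ‖v‖ + 1) * (2 * ‖v‖) ≤ δ := by
    rw [div_mul_eq_mul_div, div_le_iff₀ (by positivity)]
    nlinarith [norm_nonneg v]
  linarith

lemma Rel.norm_sub {T : X →L[𝕜] X} {Φ : E →L[𝕜] E} (h : Rel B T Φ) {ε : ℝ} (hε : 0 < ε) :
    ∃ N, ‖T * (1 - B.P N)‖ ≤ 3 * ‖Φ‖ + ε := by
  obtain ⟨N, hN⟩ := h (ε / 3) (by positivity)
  refine ⟨N, ContinuousLinearMap.opNorm_le_bound _ (by positivity) fun x => ?_⟩
  have h0 : (T * (1 - B.P N)) x = T (x - B.P N x) := rfl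
  rw [h0]
  have hP : B.P N (x - B.P N x) = 0 := by rw [map_sub, B.P_P, min_self, sub_self]
  have h1 : ‖T (x - B.P N x)‖ ≤ (‖Φ‖ + ε / 3) * ‖x - B.P N x‖ := by
    refine B.norm_le _ _ (by positivity) fun γ => ?_
    have h2 := hN _ hP γ
    have h3 : ‖Φ (B.co γ (x - B.P N x))‖ ≤ ‖Φ‖ * ‖x - B.P N x‖ :=
      (Φ.le_opNorm _).trans (mul_le_mul_of_nonneg_left (B.norm_co _ _) (norm_nonneg _))
    have h4 := norm_add_le (B.co γ (T (x - B.P N x)) - Φ (B.co γ (x - B.P N x)))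
      (Φ (B.co γ (x - B.P N x)))
    rw [sub_add_cancel] at h4
    linarith
  calc ‖T (x - B.P N x)‖ ≤ (‖Φ‖ + ε / 3) * ‖x - B.P N x‖ := h1
    _ ≤ (‖Φ‖ + ε / 3) * (3 * ‖x‖) := by gcongr; exact B.norm_sub_P N x
    _ = (3 * ‖Φ‖ + ε) * ‖x‖ := by ring

lemma Rel.cut {T : X →L[𝕜] X} {Φ : E →L[𝕜] E} (h : Rel B T Φ) (N : ℕ) :
    Rel B (T * (1 - B.P N)) Φ := by
  intro ε hε
  obtain ⟨M, hM⟩ := h ε hε
  refine ⟨max M N, fun x hx γ => ?_⟩
  have h1 : (T * (1 - B.P N)) x = T x := by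
    have : (T * (1 - B.P N)) x = T (x - B.P N x) := rfl
    rw [this, B.P_of_P_zero hx (le_max_right _ _), sub_zero]
  rw [h1]
  exact hM x (B.P_of_P_zero hx (le_max_left _ _)) γ

lemma Rel.small {T : X →L[𝕜] X} {Φ : E →L[𝕜] E} (h : Rel B T Φ) {ε : ℝ}
    (hε : 0 < ε) : ∃ T' : X →L[𝕜] X, Rel B T' Φ ∧ ‖T'‖ ≤ 9 * ‖Φ‖ + ε := by
  obtain ⟨N, hN⟩ := h.norm_sub hε
  exact ⟨_, h.cut N, hN.trans (by have := norm_nonneg Φ; linarith)⟩

/-- the projections have finite rank -/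
lemma finite_range_P (hfin : ∀ n, FiniteDimensional 𝕜 (V n)) (N : ℕ) :
    FiniteDimensional 𝕜 (LinearMap.range (B.P N : X →ₗ[𝕜] X)) := by
  let L : LinearMap.range (B.P N : X →ₗ[𝕜] X) →ₗ[𝕜] ((n : Fin N) → V n) :=
    { toFun := fun z n => ⟨B.co n (z : X), B.co_mem n _⟩
      map_add' := by
        intro a b
        funext n
        exact Subtype.ext (by simp)
      map_smul' := by
        intro c a
        funext n
        exact Subtype.ext (by simp) }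
  have hL : Function.Injective L := by
    rw [injective_iff_map_eq_zero]
    intro z hz
    obtain ⟨y, hy⟩ := z.2
    have hPz : B.P N (z : X) = z := by
      rw [← hy]
      change B.P N (B.P N y) = B.P N y
      rw [B.P_P, min_self]
    have h1 : ∀ n < N, B.co n (z : X) = 0 := by
      intro n hn
      have h2 := congrFun hz ⟨n, hn⟩
      exact congrArg Subtype.val h2
    exact Subtype.ext (B.eq_zero_of_co hPz h1)
  exact FiniteDimensional.of_injective L hL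

lemma isCompactOperator_of_finite_range {Y Z : Type*} [NormedAddCommGroup Y] [NormedSpace 𝕜 Y]
    [NormedAddCommGroup Z] [NormedSpace 𝕜 Z] (Q : Y →L[𝕜] Z)
    (hQ : FiniteDimensional 𝕜 (LinearMap.range (Q : Y →ₗ[𝕜] Z))) : IsCompactOperator Q := by
  have hpr : ProperSpace (LinearMap.range (Q : Y →ₗ[𝕜] Z)) := FiniteDimensional.proper 𝕜 _
  let Q' : Y →L[𝕜] LinearMap.range (Q : Y →ₗ[𝕜] Z) :=
    Q.codRestrict _ fun x => ⟨x, rfl⟩
  have h6 : IsCompactOperator Q' := isCompactOperator_of_locallyCompactSpace_dom Q'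
  exact h6.clm_comp (LinearMap.range (Q : Y →ₗ[𝕜] Z)).subtypeL

lemma Rel.compact_of_zero [CompleteSpace X] (hfin : ∀ n, FiniteDimensional 𝕜 (V n))
    {T : X →L[𝕜] X} (h : Rel B T 0) : IsCompactOperator T := by
  have hcl : IsClosed {f : X →L[𝕜] X | IsCompactOperator f} :=
    isClosed_setOfPred_isCompactOperator
  have key : ∀ ε > 0, ∃ b ∈ {f : X →L[𝕜] X | IsCompactOperator f}, dist T b < ε := by
    intro ε hε
    obtain ⟨N, hN⟩ := h.norm_sub (half_pos hε)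
    refine ⟨T * B.P N, ?_, ?_⟩
    · exact (isCompactOperator_of_finite_range (B.P N) (finite_range_P hfin N)).clm_comp T
    · have h4 : T - T * B.P N = T * (1 - B.P N) := by rw [mul_sub, mul_one]
      rw [norm_zero, mul_zero, zero_add] at hN
      rw [dist_eq_norm, h4]
      linarith
  have hmem : T ∈ closure {f : X →L[𝕜] X | IsCompactOperator f} :=
    Metric.mem_closure_iff.2 key
  rw [hcl.closure_eq] at hmem
  exact hmem

lemma Rel.zero_of_compact (hmono : Monotone V) {T : X →L[𝕜] X} {Φ : E →L[𝕜] E}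
    (h : Rel B T Φ) (hT : IsCompactOperator T) : ∀ t, ∀ v ∈ V t, Φ v = 0 := by
  intro t v hv
  have hvV : ∀ k, v ∈ V (t + k + 1) := fun k => hmono (by omega) hv
  let y : ℕ → X := fun k => B.sv (t + k + 1) v
  have hy : ∀ k, B.P (t + k + 1) (y k) = 0 ∧ B.co (t + k + 1) (y k) = v ∧ ‖y k‖ ≤ 2 * ‖v‖ :=
    fun k => by
      obtain ⟨a, b, c, d⟩ := B.sv_spec (by omega : t + k + 1 ≠ 0) (hvV k)
      exact ⟨a, c, d⟩
  obtain ⟨K, hK, hK'⟩ := hT.image_closedBall_subset_compact (2 * ‖v‖)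
  have hTy : ∀ k, T (y k) ∈ K := fun k => hK' ⟨y k, by simpa using (hy k).2.2, rfl⟩
  obtain ⟨u, -, φ, hφ, hu⟩ := hK.tendsto_subseq hTy
  have hkφ : ∀ i, i ≤ φ i := fun i => hφ.id_le i
  have hPN : ∀ N i, N ≤ i → B.P N (y (φ i)) = 0 := fun N i hi =>
    B.P_of_P_zero (hy (φ i)).1 (by have := hkφ i; omega)
  have hu0 : u = 0 := by
    refine B.ext_co fun n => ?_
    rw [map_zero]
    have hle : ∀ ε > 0, ‖B.co n u‖ ≤ ε * (2 * ‖v‖) := fun ε hε => by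
      obtain ⟨N, hN⟩ := h ε hε
      have hlim : Tendsto (fun i => ‖B.co n (T (y (φ i)))‖) atTop
          (𝓝 ‖B.co n u‖) := (((B.co n).continuous.tendsto _).comp hu).norm
      refine le_of_tendsto hlim ?_
      filter_upwards [eventually_ge_atTop (max N (n + 1))] with i hi
      have h1 := hN (y (φ i)) (hPN N i ((le_max_left _ _).trans hi)) n
      have h2 : B.co n (y (φ i)) = 0 :=
        B.co_of_P_zero (hPN (n + 1) i ((le_max_right _ _).trans hi)) (Nat.lt_succ_self n)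
      rw [h2, map_zero, sub_zero] at h1
      exact h1.trans (mul_le_mul_of_nonneg_left (hy _).2.2 hε.le)
    have : ‖B.co n u‖ ≤ 0 := by
      refine le_of_forall_pos_le_add fun δ hδ => ?_
      rw [zero_add]
      have h1 := hle (δ / (2 * ‖v‖ + 1)) (by positivity)
      refine h1.trans ?_
      rw [div_mul_eq_mul_div, div_le_iff₀ (by positivity)]
      nlinarith [norm_nonneg v]
    exact norm_le_zero_iff.1 this
  rw [hu0] at hu
  have hfin : ∀ ε > 0, ‖Φ v‖ ≤ ε * (2 * ‖v‖) := fun ε hε => by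
    obtain ⟨N, hN⟩ := h ε hε
    have hlim : Tendsto (fun i => ‖T (y (φ i))‖ + ε * (2 * ‖v‖)) atTop
        (𝓝 (‖(0 : X)‖ + ε * (2 * ‖v‖))) := hu.norm.add_const _
    rw [norm_zero, zero_add] at hlim
    refine ge_of_tendsto hlim ?_
    filter_upwards [eventually_ge_atTop N] with i hi
    have h1 := hN (y (φ i)) (hPN N i hi) (t + φ i + 1)
    rw [(hy (φ i)).2.1] at h1
    have h3 : ‖Φ v‖ ≤ ‖B.co (t + φ i + 1) (T (y (φ i)))‖ +
        ‖B.co (t + φ i + 1) (T (y (φ i))) - Φ v‖ := by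
      have := norm_sub_le (B.co (t + φ i + 1) (T (y (φ i))))
        (B.co (t + φ i + 1) (T (y (φ i))) - Φ v)
      rwa [sub_sub_cancel] at this
    have h4 := B.norm_co (t + φ i + 1) (T (y (φ i)))
    have h5 := mul_le_mul_of_nonneg_left (hy (φ i)).2.2 hε.le
    linarith
  have : ‖Φ v‖ ≤ 0 := by
    refine le_of_forall_pos_le_add fun δ hδ => ?_
    rw [zero_add]
    have h1 := hfin (δ / (2 * ‖v‖ + 1)) (by positivity)
    refine h1.trans ?_
    rw [div_mul_eq_mul_div, div_le_iff₀ (by positivity)]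
    nlinarith [norm_nonneg v]
  exact norm_le_zero_iff.1 this

end Pool.Agent.R184CA
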