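import Pool.Agent.R184CA.HKit

/-! The symbol of an operator. -/

namespace Pool.Agent.R184CA

open Filter Topology

variable {𝕜 : Type*} [RCLike 𝕜] {H : Type*} [NormedAddCommGroup H] [NormedSpace 𝕜 H]

lemma repr_aux {F G : Type*} [AddCommGroup F] [Module 𝕜 F] [AddCommGroup G] [Module 𝕜 G]
    [FiniteDimensional 𝕜 F] [FiniteDimensional 𝕜 G] (j : G →ₗ[𝕜] F →ₗ[𝕜] 𝕜)
    (h1 : ∀ s, (∀ h, j s h = 0) → s = 0) (h2 : ∀ h, (∀ s, j s h = 0) → h = 0) (φ : F →ₗ[𝕜] 𝕜) :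
    ∃ s, ∀ h, φ h = j s h := by
  have hj : Function.Injective j := by
    refine (injective_iff_map_eq_zero j).2 fun s hs => h1 s fun h => ?_
    rw [hs]; rfl
  have hi : Function.Injective j.flip := by
    refine (injective_iff_map_eq_zero _).2 fun s hs => h2 s fun h => ?_
    exact DFunLike.congr_fun hs h
  have g1 := LinearMap.finrank_le_finrank_of_injective hj
  have g2 := LinearMap.finrank_le_finrank_of_injective hi
  have e1 : Module.finrank 𝕜 (F →ₗ[𝕜] 𝕜) = Module.finrank 𝕜 F := Subspace.dual_finrank_eq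
  have e2 : Module.finrank 𝕜 (G →ₗ[𝕜] 𝕜) = Module.finrank 𝕜 G := Subspace.dual_finrank_eq
  have h3 : Module.finrank 𝕜 G = Module.finrank 𝕜 (F →ₗ[𝕜] 𝕜) := by omega
  have hsurj := (LinearMap.injective_iff_surjective_of_finrank_eq_finrank h3).1 hj
  obtain ⟨s, hs⟩ := hsurj φ
  exact ⟨s, fun h => by rw [← hs]⟩

namespace HSys

variable (S : HSys 𝕜 H)

lemma corner_V (n : ℕ) (v : EE 𝕜 H) : act (S.Q n) (S.Q n) v ∈ S.V n := by
  rw [mem_V]; intro b
  rw [act_apply, act_apply]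
  congr 1
  calc S.Q n * (S.Q n * b * S.Q n) * S.Q n = (S.Q n * S.Q n) * b * (S.Q n * S.Q n) := by
        simp only [mul_assoc]
    _ = _ := by rw [S.QQ]

lemma norm_corner_V (n : ℕ) (v : EE 𝕜 H) : ‖act (S.Q n) (S.Q n) v‖ ≤ ‖v‖ := by
  refine ContinuousLinearMap.opNorm_le_bound _ (norm_nonneg _) fun b => ?_
  rw [act_apply]
  refine (v.le_opNorm _).trans ?_
  gcongr
  exact S.norm_corner n b

lemma corner_apply {n : ℕ} {s : H →L[𝕜] H} (hs : s ∈ S.SS n) (v : EE 𝕜 H) :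
    act (S.Q n) (S.Q n) v s = v s := by
  rw [act_apply, S.mem_SS.1 hs]

/-- Reflexivity of the coordinate spaces. -/
lemma exists_repr (n : ℕ) (φ : S.V n →ₗ[𝕜] 𝕜) : ∃ s ∈ S.SS n, ∀ h : S.V n, φ h = h.1 s := by
  let j : S.SS n →ₗ[𝕜] (S.V n →ₗ[𝕜] 𝕜) :=
    { toFun := fun s =>
        { toFun := fun h => h.1 s.1
          map_add' := fun h h' => rfl
          map_smul' := fun c h => rfl }
      map_add' := fun s s' => by ext h; exact map_add h.1 s.1 s'.1
      map_smul' := fun c s => by ext h; exact map_smul h.1 c s.1 }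
  have h1 : ∀ s : S.SS n, (∀ h : S.V n, j s h = 0) → s = 0 := by
    intro s hs
    by_contra hne
    have hne' : (s : H →L[𝕜] H) ≠ 0 := fun h => hne (Subtype.ext h)
    obtain ⟨v, hv1, hv2⟩ := exists_dual_vector 𝕜 (s : H →L[𝕜] H) (norm_ne_zero_iff.2 hne')
    have h1 := hs ⟨_, S.corner_V n v⟩
    have h2 : act (S.Q n) (S.Q n) v s.1 = 0 := h1
    rw [S.corner_apply s.2, hv2] at h2
    exact hne' (by simpa using h2)
  have h2 : ∀ h : S.V n, (∀ s : S.SS n, j s h = 0) → h = 0 := by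
    intro h hh
    apply Subtype.ext
    ext b
    have h1 := hh ⟨_, S.corner_mem n b⟩
    have h2 : h.1 (S.Q n * b * S.Q n) = 0 := h1
    rw [← S.mem_V.1 h.2, h2]; rfl
  obtain ⟨s, hs⟩ := repr_aux (F := S.V n) (G := S.SS n) j h1 h2 φ
  exact ⟨s.1, s.2, fun h => hs h⟩

/-- rank one operator `x ↦ f x • a` -/
noncomputable def ro (f : H →L[𝕜] 𝕜) (a : H) : H →L[𝕜] H := f.smulRight a

lemma ro_apply (f : H →L[𝕜] 𝕜) (a x : H) : ro f a x = f x • a := rfl

lemma norm_ro_le (f : H →L[𝕜] 𝕜) (a : H) : ‖ro f a‖ ≤ ‖f‖ * ‖a‖ := by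
  refine ContinuousLinearMap.opNorm_le_bound _ (by positivity) fun x => ?_
  rw [ro_apply, norm_smul]
  have := f.le_opNorm x
  have h2 := norm_nonneg a
  nlinarith

lemma ro_mem {n : ℕ} {f : H →L[𝕜] 𝕜} {a : H} (ha : S.Q n a = a) (hf : ∀ x, f (S.Q n x) = f x) :
    ro f a ∈ S.SS n := by
  rw [mem_SS]
  ext x
  simp only [mul_apply_eq_comp, ro_apply, map_smul, ha, hf]

/-- vector functional -/
noncomputable def om (f : H →L[𝕜] 𝕜) (y : H) : EE 𝕜 H :=
  f.comp (ContinuousLinearMap.apply 𝕜 H y)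

lemma om_apply (f : H →L[𝕜] 𝕜) (y : H) (b : H →L[𝕜] H) : om f y b = f (b y) := rfl

lemma norm_om_le (f : H →L[𝕜] 𝕜) (y : H) : ‖om f y‖ ≤ ‖f‖ * ‖y‖ := by
  refine ContinuousLinearMap.opNorm_le_bound _ (by positivity) fun b => ?_
  rw [om_apply]
  refine (f.le_opNorm _).trans ?_
  have := b.le_opNorm y
  have h2 := norm_nonneg f
  nlinarith

lemma om_mem {n : ℕ} {f : H →L[𝕜] 𝕜} {y : H} (hf : ∀ x, f (S.Q n x) = f x) (hy : S.Q n y = y) :
    om f y ∈ S.V n := by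
  rw [mem_V]; intro b
  simp only [om_apply, mul_apply_eq_comp, hy, hf]

/-- a norming functional supported in the corner -/
lemma exists_norming_functional {n : ℕ} {α : H} (hα : S.Q n α = α) (hα1 : ‖α‖ = 1) :
    ∃ f : H →L[𝕜] 𝕜, ‖f‖ ≤ 1 ∧ f α = 1 ∧ ∀ x, f (S.Q n x) = f x := by
  obtain ⟨f0, h1, h2⟩ := exists_dual_vector 𝕜 α (by rw [hα1]; exact one_ne_zero)
  refine ⟨f0.comp (S.Q n), ?_, ?_, ?_⟩
  · refine (ContinuousLinearMap.opNorm_comp_le _ _).trans ?_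
    rw [h1, one_mul]; exact S.norm n
  · rw [ContinuousLinearMap.comp_apply, hα, h2, hα1]; simp
  · intro x
    rw [ContinuousLinearMap.comp_apply, ContinuousLinearMap.comp_apply]
    congr 1
    exact DFunLike.congr_fun (S.QQ n) x

variable {X : Type*} [NormedAddCommGroup X] [NormedSpace 𝕜 X] {D : Nodes 𝕜 (EE 𝕜 H)}

theorem exists_symbol (hD : D.Ok S.V S.ok) (B : BD D S.V X) (T : X →L[𝕜] X) :
    ∃ s : ℕ → (H →L[𝕜] H), (∀ γ, s γ ∈ S.SS γ) ∧ (∀ γ, ‖s γ‖ ≤ 2 * ‖T‖) ∧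
      (∀ δ > 0, ∃ N, ∀ γ, γ ≠ 0 → N ≤ D.wt γ → ∀ h ∈ S.V γ, ‖h‖ ≤ 1 →
        ‖B.F T γ h - act (s γ) 1 h‖ ≤ δ) ∧
      (∀ δ > 0, ∃ N, ∀ γ γ', γ ≠ 0 → γ ≤ γ' → N ≤ D.wt γ → N ≤ D.wt γ' → ∀ w ∈ S.W γ,
        S.Q γ' * (w * S.Q γ) = w * S.Q γ → ‖(s γ' * w - w * s γ) * S.Q γ‖ ≤ δ) := by
  -- the symbols
  have h1 : ∀ γ, ∃ s ∈ S.SS γ, ‖s‖ ≤ 2 * ‖T‖ ∧ (γ ≠ 0 → ∀ h ∈ S.V γ, B.F T γ h 1 = h s) := by
    intro γ
    by_cases hγ : γ = 0
    · exact ⟨0, Submodule.zero_mem _, by simp, fun h => absurd hγ h⟩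
    obtain ⟨s, hs, hs2⟩ := S.exists_repr γ
      { toFun := fun h => B.F T γ h.1 1
        map_add' := fun h h' => by
          change B.F T γ (h.1 + h'.1) 1 = _
          rw [B.F_add T hγ h.2 h'.2]; rfl
        map_smul' := fun c h => by
          change B.F T γ (c • h.1) 1 = _
          rw [B.F_smul T hγ c h.2]; rfl }
    refine ⟨s, hs, ?_, fun _ h hh => hs2 ⟨h, hh⟩⟩
    by_cases hs0 : ‖s‖ = 0
    · rw [hs0]; positivity
    obtain ⟨v, hv1, hv2⟩ := exists_dual_vector 𝕜 s hs0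
    have h2 := hs2 ⟨_, S.corner_V γ v⟩
    have h3 : B.F T γ (act (S.Q γ) (S.Q γ) v) 1 = act (S.Q γ) (S.Q γ) v s := h2
    rw [S.corner_apply hs, hv2] at h3
    have h4 : ‖B.F T γ (act (S.Q γ) (S.Q γ) v) 1‖ ≤ 2 * ‖T‖ := by
      refine ((B.F T γ (act (S.Q γ) (S.Q γ) v)).le_opNorm _).trans ?_
      have a1 := B.norm_F T hγ (S.corner_V γ v)
      have a2 := S.norm_corner_V γ v
      rw [hv1] at a2
      have a3 := norm_one_le (𝕜 := 𝕜) (H := H)
      have a4 := norm_nonneg (B.F T γ (act (S.Q γ) (S.Q γ) v))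
      have a5 := norm_nonneg T
      nlinarith
    rw [h3] at h4
    simpa using h4
  choose s hs1 hs2 hs3 using h1
  -- the first property
  have P1 : ∀ δ > 0, ∃ N, ∀ γ, γ ≠ 0 → N ≤ D.wt γ → ∀ h ∈ S.V γ, ‖h‖ ≤ 1 →
        ‖B.F T γ h - act (s γ) 1 h‖ ≤ δ := by
    intro δ hδ
    obtain ⟨N, hN⟩ := B.comm hD S.kit T (δ := δ / 2) (by positivity)
    refine ⟨N, fun γ hγ hw h hh hh1 => ?_⟩
    have hmem : B.F T γ h - act (s γ) 1 h ∈ S.V γ := by
      refine Submodule.sub_mem _ (B.F_mem T γ h) (S.act_mem ?_ ?_ hh)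
      · rw [mul_one, S.QQ]
      · rw [S.right_of_mem (hs1 γ), S.left_of_mem (hs1 γ)]
    refine S.norm_apply_le hmem hδ.le fun b hb hb1 => ?_
    obtain ⟨M, hM⟩ : ∃ M : ℝ, M = ‖B.F T γ h - act (s γ) 1 h‖ := ⟨_, rfl⟩
    have hM0 : 0 ≤ M := by rw [hM]; exact norm_nonneg _
    obtain ⟨c, hc, hcm, hcb⟩ := S.C_dense hb hb1 (ε := δ / (2 * (M + 1))) (by positivity)
    have hk : act 1 c ∈ S.K γ := ⟨1, S.W_one γ, c, Or.inl hc, rfl⟩
    have hkh : act 1 c h ∈ S.V γ := by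
      refine S.act_mem ?_ ?_ hh
      · rw [mul_assoc, S.right_of_mem hcm]
      · rw [one_mul, S.QQ]
    have h2 := hN γ γ hγ hγ hw hw h hh hh1 _ hk hkh
    have h3 : (B.F T γ h - act (s γ) 1 h) c = - (B.F T γ (act 1 c h) - act 1 c (B.F T γ h)) 1 := by
      rw [sub_apply, sub_apply, hs3 γ hγ _ hkh]
      simp
    have h4 : ‖(B.F T γ h - act (s γ) 1 h) c‖ ≤ δ / 2 := by
      rw [h3, norm_neg]
      refine (ContinuousLinearMap.le_opNorm _ _).trans ?_
      have := norm_one_le (𝕜 := 𝕜) (H := H)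
      have a4 := norm_nonneg (B.F T γ (act 1 c h) - act 1 c (B.F T γ h))
      nlinarith
    have h5 : (B.F T γ h - act (s γ) 1 h) b = (B.F T γ h - act (s γ) 1 h) c -
        (B.F T γ h - act (s γ) 1 h) (c - b) := by rw [← map_sub]; simp
    rw [h5]
    refine (norm_sub_le _ _).trans ?_
    have h6 : ‖(B.F T γ h - act (s γ) 1 h) (c - b)‖ ≤ δ / 2 := by
      refine (ContinuousLinearMap.le_opNorm _ _).trans ?_
      rw [← hM]
      calc M * ‖c - b‖ ≤ M * (δ / (2 * (M + 1))) := by gcongr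
        _ = δ / 2 * (M / (M + 1)) := by field_simp
        _ ≤ δ / 2 * 1 := by
            gcongr
            rw [div_le_one (by positivity)]
            linarith
        _ = δ / 2 := mul_one _
    linarith
  refine ⟨s, hs1, hs2, P1, ?_⟩
  intro δ hδ
  obtain ⟨N1, hN1⟩ := P1 (δ / 8) (by positivity)
  obtain ⟨N2, hN2⟩ := B.comm hD S.kit T (δ := δ / 8) (by positivity)
  refine ⟨max N1 N2, fun γ γ' hγ hγγ hw hw' w hwW hwm => ?_⟩
  have hγ' : γ' ≠ 0 := by omega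
  have hwn := S.W_norm γ w hwW
  refine ContinuousLinearMap.opNorm_le_bound _ hδ.le fun x => ?_
  rw [mul_apply_eq_comp]
  obtain ⟨d, hd⟩ : ∃ d, d = s γ' * w - w * s γ := ⟨_, rfl⟩
  rw [← hd]
  have key : ∀ α : H, S.Q γ α = α → ‖α‖ = 1 → ‖d α‖ ≤ δ := by
    intro α hα hα1
    by_cases h0 : ‖d α‖ = 0
    · rw [h0]; exact hδ.le
    have hpos : 0 < ‖d α‖ := lt_of_le_of_ne (norm_nonneg _) (Ne.symm h0)
    -- bound for d
    have hd1 : ‖d‖ ≤ 4 * ‖T‖ := by
      rw [hd]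
      refine (norm_sub_le _ _).trans ?_
      have b1 := norm_mul_le (s γ') w
      have b2 := norm_mul_le w (s γ)
      have b3 := hs2 γ'
      have b4 := hs2 γ
      have b5 := norm_nonneg (s γ')
      have b6 := norm_nonneg (s γ)
      nlinarith
    have hdα : ‖d α‖ ≤ 4 * ‖T‖ := by
      refine (d.le_opNorm α).trans ?_
      rw [hα1, mul_one]; exact hd1
    -- the operator c
    obtain ⟨f, hf1, hfα, hfQ⟩ := S.exists_norming_functional hα hα1
    obtain ⟨c, hc, hcm, hcb⟩ := S.C_dense (m := γ) (b := ro f α) (S.ro_mem hα hfQ)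
      (by have := norm_ro_le f α; rw [hα1] at this; linarith) (ε := δ / (8 * (4 * ‖T‖ + 1)))
      (by positivity)
    have hcn := S.C_norm hc
    have hk : act w c ∈ S.K γ := ⟨w, hwW, c, Or.inl hc, rfl⟩
    have hh := S.om_mem hfQ hα
    have hh1 : ‖om f α‖ ≤ 1 := by have := norm_om_le f α; rw [hα1] at this; linarith
    have hkh : act w c (om f α) ∈ S.V γ' := by
      refine S.act_mem ?_ hwm hh
      rw [mul_assoc, S.right_of_mem (S.SS_mono hγγ hcm)]
    have h2 := hN2 γ γ' hγ hγ' (by omega) (by omega) _ hh hh1 _ hk hkh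
    have hkh1 : ‖act w c (om f α)‖ ≤ 1 := by
      refine (norm_act_apply _ _ _).trans ?_
      have b1 := norm_nonneg w
      have b2 := norm_nonneg c
      have b3 := norm_nonneg (om f α)
      calc ‖w‖ * ‖c‖ * ‖om f α‖ ≤ 1 * 1 * 1 := by gcongr
        _ = 1 := by norm_num
    have h3 := hN1 γ' hγ' (by omega) _ hkh hkh1
    have h4 := hN1 γ hγ (by omega) _ hh hh1
    have h5 : ‖act w c (B.F T γ (om f α) - act (s γ) 1 (om f α))‖ ≤ δ / 8 := by
      refine (norm_act_apply _ _ _).trans ?_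
      have b1 := norm_nonneg w
      have b2 := norm_nonneg c
      have b3 := norm_nonneg (B.F T γ (om f α) - act (s γ) 1 (om f α))
      calc ‖w‖ * ‖c‖ * ‖B.F T γ (om f α) - act (s γ) 1 (om f α)‖ ≤ 1 * 1 * (δ / 8) := by gcongr
        _ = δ / 8 := by ring
    have h6 : act d c (om f α) = act (s γ') 1 (act w c (om f α)) -
        act w c (act (s γ) 1 (om f α)) := by
      rw [act_act, act_act, one_mul, mul_one, ← act_sub_left, hd]
    have h7 : ‖act d c (om f α)‖ ≤ 3 * (δ / 8) := by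
      have : act d c (om f α) = (B.F T γ' (act w c (om f α)) - act w c (B.F T γ (om f α))) -
          (B.F T γ' (act w c (om f α)) - act (s γ') 1 (act w c (om f α))) +
          act w c (B.F T γ (om f α) - act (s γ) 1 (om f α)) := by
        rw [h6, map_sub]; abel
      rw [this]
      refine (norm_add_le _ _).trans ?_
      have := norm_sub_le (B.F T γ' (act w c (om f α)) - act w c (B.F T γ (om f α)))
        (B.F T γ' (act w c (om f α)) - act (s γ') 1 (act w c (om f α)))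
      linarith
    -- evaluate
    obtain ⟨g, hg1, hg2⟩ := exists_dual_vector 𝕜 (d α) h0
    obtain ⟨b, hb⟩ : ∃ b, b = ro g α := ⟨_, rfl⟩
    have hbn : ‖b‖ ≤ 1 := by
      rw [hb]
      refine (norm_ro_le _ _).trans ?_
      rw [hα1, hg1, one_mul]
    have hbd : b (d α) = (‖d α‖ : 𝕜) • α := by
      rw [hb, ro_apply, hg2]
    have h8 : act d c (om f α) b = (‖d α‖ : 𝕜) + (‖d α‖ : 𝕜) * f ((c - ro f α) α) := by
      rw [act_apply, om_apply]
      simp only [mul_apply_eq_comp, hbd, map_smul, sub_apply, map_sub, ro_apply, smul_eq_mul, hfα]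
      ring
    have h9 : ‖act d c (om f α) b‖ ≤ 3 * (δ / 8) := by
      refine (ContinuousLinearMap.le_opNorm _ _).trans ?_
      have := norm_nonneg (act d c (om f α))
      have := norm_nonneg b
      nlinarith
    have h10 : ‖(‖d α‖ : 𝕜) * f ((c - ro f α) α)‖ ≤ δ / 8 := by
      rw [norm_mul, norm_realK, norm_norm]
      have b1 : ‖f ((c - ro f α) α)‖ ≤ δ / (8 * (4 * ‖T‖ + 1)) := by
        refine (f.le_opNorm _).trans ?_
        have b2 : ‖(c - ro f α) α‖ ≤ ‖c - ro f α‖ := by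
          refine ((c - ro f α).le_opNorm α).trans ?_
          rw [hα1, mul_one]
        have b3 := norm_nonneg ((c - ro f α) α)
        have b4 := norm_nonneg f
        nlinarith
      calc ‖d α‖ * ‖f ((c - ro f α) α)‖ ≤ (4 * ‖T‖) * (δ / (8 * (4 * ‖T‖ + 1))) := by
            gcongr
        _ = δ / 8 * ((4 * ‖T‖) / (4 * ‖T‖ + 1)) := by field_simp
        _ ≤ δ / 8 * 1 := by
            gcongr
            rw [div_le_one (by positivity)]
            linarith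
        _ = δ / 8 := mul_one _
    have h11 : ‖d α‖ ≤ ‖act d c (om f α) b‖ + ‖(‖d α‖ : 𝕜) * f ((c - ro f α) α)‖ := by
      have h12 : ‖((‖d α‖ : ℝ) : 𝕜)‖ ≤ ‖act d c (om f α) b‖ +
          ‖(‖d α‖ : 𝕜) * f ((c - ro f α) α)‖ := by
        refine le_trans (le_of_eq ?_) (norm_sub_le _ _)
        congr 1
        rw [h8]; ring
      rwa [norm_realK, norm_norm] at h12
    linarith
  -- conclude
  by_cases hx0 : ‖S.Q γ x‖ = 0
  · rw [norm_eq_zero] at hx0
    rw [hx0, map_zero, norm_zero]; positivity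
  have hpos : 0 < ‖S.Q γ x‖ := lt_of_le_of_ne (norm_nonneg _) (Ne.symm hx0)
  have h1 := key (((‖S.Q γ x‖ : ℝ) : 𝕜)⁻¹ • S.Q γ x)
    (by
      rw [map_smul]
      congr 1
      exact DFunLike.congr_fun (S.QQ γ) x)
    (by rw [norm_smul, norm_inv, norm_realK, norm_norm, inv_mul_cancel₀ hx0])
  rw [map_smul, norm_smul, norm_inv, norm_realK, norm_norm, inv_mul_le_iff₀ hpos] at h1
  refine h1.trans ?_
  have h2 : ‖S.Q γ x‖ ≤ ‖x‖ := by
    refine ((S.Q γ).le_opNorm x).trans ?_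
    have := S.norm γ
    have := norm_nonneg x
    nlinarith
  nlinarith

end HSys

end Pool.Agent.R184CA
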