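import Mathlib

/-! Parameters of the construction: weights `β j = 4^(-2^j)` and lengths `nn j`. -/

namespace Pool.Agent.R184CA

/-- `mm j = 4^(2^j)`, the inverse weights -/
def mm (j : ℕ) : ℕ := 4 ^ (2 ^ j)

/-- the lengths -/
def nn : ℕ → ℕ
  | 0 => 16
  | (j + 1) => (mm (j + 1)) ^ 2 * (nn j + 1) ^ (2 ^ (j + 2) + 1)

/-- the weights -/
noncomputable def β (j : ℕ) : ℝ := ((mm j : ℕ) : ℝ)⁻¹

lemma mm_pos (j : ℕ) : 0 < mm j := by unfold mm; positivity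

lemma mm_succ (j : ℕ) : mm (j + 1) = mm j ^ 2 := by
  unfold mm; rw [← pow_mul, pow_succ]

lemma four_le_mm (j : ℕ) : 4 ≤ mm j := by
  unfold mm
  calc 4 = 4 ^ 1 := by norm_num
    _ ≤ 4 ^ (2 ^ j) := Nat.pow_le_pow_right (by norm_num) Nat.one_le_two_pow

lemma lt_mm (j : ℕ) : j < mm j := by
  unfold mm
  calc j < 2 ^ j := Nat.lt_two_pow_self
    _ < 4 ^ (2 ^ j) := Nat.lt_pow_self (by norm_num)

lemma mm_mono : Monotone mm := by
  intro a b h
  unfold mm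
  exact Nat.pow_le_pow_right (by norm_num) (Nat.pow_le_pow_right (by norm_num) h)

lemma β_pos (j : ℕ) : 0 < β j := by
  unfold β; have := mm_pos j; positivity

lemma β_le (j : ℕ) : β j ≤ 1 / 4 := by
  unfold β
  rw [one_div]
  apply inv_anti₀ (by norm_num)
  exact_mod_cast four_le_mm j

lemma β_le_one (j : ℕ) : β j ≤ 1 := (β_le j).trans (by norm_num)

lemma β_anti : Antitone β := by
  intro a b h
  unfold β
  apply inv_anti₀ (by exact_mod_cast mm_pos a)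
  exact_mod_cast mm_mono h

lemma β_succ (j : ℕ) : β (j + 1) = β j ^ 2 := by
  unfold β; rw [mm_succ]; push_cast; rw [inv_pow]

lemma β_sq_eq (j : ℕ) : β j ^ 2 = (1 / 4 : ℝ) ^ (2 ^ (j + 1)) := by
  rw [← β_succ]; unfold β mm; push_cast; rw [one_div, inv_pow]

lemma β_lt_inv (j : ℕ) : β j * (j : ℝ) ≤ 1 := by
  unfold β
  have h : (0 : ℝ) < mm j := by exact_mod_cast mm_pos j
  rw [inv_mul_le_iff₀ h, mul_one]
  exact_mod_cast (lt_mm j).le

lemma β_mul_le {j k : ℕ} (h : k ≤ j) : β j * (k : ℝ) ≤ 1 :=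
  (mul_le_mul_of_nonneg_left (by exact_mod_cast h) (β_pos j).le).trans (β_lt_inv j)

lemma β_mm (j : ℕ) : β j * (mm j : ℝ) = 1 := by
  unfold β
  have h : (mm j : ℝ) ≠ 0 := by exact_mod_cast (mm_pos j).ne'
  field_simp

lemma tendsto_β : Filter.Tendsto β Filter.atTop (nhds 0) := by
  have h1 : Filter.Tendsto (fun j : ℕ => (1 : ℝ) / (j : ℝ)) Filter.atTop (nhds 0) :=
    tendsto_one_div_atTop_nhds_zero_nat
  refine squeeze_zero' (Filter.Eventually.of_forall fun j => (β_pos j).le) ?_ h1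
  filter_upwards [Filter.eventually_gt_atTop 0] with j hj
  have hj' : (0 : ℝ) < j := by exact_mod_cast hj
  rw [le_div_iff₀ hj']
  exact β_lt_inv j

lemma nn_pos (j : ℕ) : 0 < nn j := by
  cases j with
  | zero => norm_num [nn]
  | succ j => unfold nn; have := mm_pos (j+1); positivity

lemma mm_sq_le_nn (j : ℕ) : mm j ^ 2 ≤ nn j := by
  cases j with
  | zero => norm_num [nn, mm]
  | succ j =>
    rw [nn]
    exact Nat.le_mul_of_pos_right _ (by positivity)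

lemma nn_succ_ge (j : ℕ) : nn j ≤ nn (j + 1) := by
  rw [nn]
  calc nn j ≤ (nn j + 1) := Nat.le_succ _
    _ = (nn j + 1) ^ 1 := (pow_one _).symm
    _ ≤ (nn j + 1) ^ (2 ^ (j + 2) + 1) := Nat.pow_le_pow_right (Nat.succ_pos _) (Nat.le_add_left 1 _)
    _ ≤ _ := Nat.le_mul_of_pos_left _ (by have := mm_pos (j+1); positivity)

lemma nn_mono : Monotone nn := monotone_nat_of_le_succ nn_succ_ge

/-- `β_j² n_j = (n_{j-1}+1)^(t_j+1)` -/
lemma β_sq_nn (j : ℕ) : β (j + 1) ^ 2 * (nn (j + 1) : ℝ) = ((nn j : ℝ) + 1) ^ (2 ^ (j + 2) + 1) := by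
  have h : (mm (j+1) : ℝ) ≠ 0 := by exact_mod_cast (mm_pos (j+1)).ne'
  rw [nn, β]
  push_cast
  field_simp

/-- `m_j / n_j ≤ β_j` -/
lemma one_le_β_sq_nn (j : ℕ) : 1 ≤ β j ^ 2 * (nn j : ℝ) := by
  have h : (0:ℝ) < (mm j : ℝ) := by exact_mod_cast (mm_pos j)
  have h2 : ((mm j : ℝ)) ^ 2 ≤ nn j := by exact_mod_cast mm_sq_le_nn j
  rw [β, inv_pow]
  rw [inv_mul_eq_div, le_div_iff₀ (by positivity), one_mul]
  exact h2

lemma β_nn_pos (j : ℕ) : 0 < β j * (nn j : ℝ) := by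
  have := β_pos j
  have h : (0:ℝ) < nn j := by exact_mod_cast nn_pos j
  positivity

/-- the lower bound for the weights in the terms of nodes of odd weight `j` -/
def Lam (j : ℕ) : ℕ := 2 * nn j ^ 2

section real

variable {𝕜 : Type*} [RCLike 𝕜]

lemma norm_realK (r : ℝ) : ‖(r : 𝕜)‖ = ‖r‖ := by
  rw [RCLike.norm_ofReal, Real.norm_eq_abs]

lemma add_reK (a b : 𝕜) : RCLike.re (a + b) = RCLike.re a + RCLike.re b := map_add _ _ _

lemma sub_reK (a b : 𝕜) : RCLike.re (a - b) = RCLike.re a - RCLike.re b := map_sub _ _ _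

lemma re_sumK {ι : Type*} (s : Finset ι) (f : ι → 𝕜) :
    RCLike.re (∑ i ∈ s, f i) = ∑ i ∈ s, (RCLike.re (f i) : ℝ) := map_sum _ _ _

lemma re_ofReal_mulK (r : ℝ) (z : 𝕜) : RCLike.re ((r : 𝕜) * z) = r * RCLike.re z :=
  RCLike.re_ofReal_mul r z

lemma abs_re_le_normK (z : 𝕜) : |(RCLike.re z : ℝ)| ≤ ‖z‖ := RCLike.abs_re_le_norm z

end real

end Pool.Agent.R184CA
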