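import Pool.Agent.R184CA.C0

/-! The commutant of a weighted shift on `c₀` and its closed ideals. -/

namespace Pool.Agent.R184CA.Rad

open Filter Topology ZeroAtInfty C0

variable {𝕜 : Type} [RCLike 𝕜]

lemma half_norm : ‖(2 : 𝕜)⁻¹‖ = 2⁻¹ := by rw [norm_inv, RCLike.norm_two]

lemma half_ne (m : ℕ) : ((2 : 𝕜)⁻¹) ^ m ≠ 0 := pow_ne_zero _ (inv_ne_zero two_ne_zero)

lemma bk_bound (k n : ℕ) : ‖((2 : 𝕜)⁻¹) ^ (k * k + 2 * n * k)‖ ≤ (2⁻¹ : ℝ) ^ (k * k) := by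
  rw [norm_pow, half_norm]
  exact pow_le_pow_of_le_one (by norm_num) (by norm_num) (Nat.le_add_right _ _)

/-- the powers of the weighted shift -/
noncomputable def Bk (k : ℕ) : C₀(ℕ, 𝕜) →L[𝕜] C₀(ℕ, 𝕜) :=
  wc (fun n => ((2 : 𝕜)⁻¹) ^ (k * k + 2 * n * k)) ((2⁻¹ : ℝ) ^ (k * k)) (bk_bound k) k

lemma Bk_apply (k : ℕ) (x : C₀(ℕ, 𝕜)) (n : ℕ) :
    Bk k x n = ((2 : 𝕜)⁻¹) ^ (k * k + 2 * n * k) * x (n + k) := rfl

lemma norm_Bk (k : ℕ) : ‖(Bk k : C₀(ℕ, 𝕜) →L[𝕜] C₀(ℕ, 𝕜))‖ ≤ (2⁻¹ : ℝ) ^ (k * k) :=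
  norm_wc_le _ _ _ _

lemma Bk_mul (j k : ℕ) : (Bk j * Bk k : C₀(ℕ, 𝕜) →L[𝕜] C₀(ℕ, 𝕜)) = Bk (j + k) := by
  ext x n
  rw [mul_apply_eq_comp, Bk_apply, Bk_apply, Bk_apply, ← mul_assoc, ← pow_add]
  congr 2
  · ring
  · rw [add_assoc]

lemma Bk_zero : (Bk 0 : C₀(ℕ, 𝕜) →L[𝕜] C₀(ℕ, 𝕜)) = 1 := by
  ext x n
  rw [Bk_apply]
  simp

lemma comm_Bk {s : C₀(ℕ, 𝕜) →L[𝕜] C₀(ℕ, 𝕜)} (hs : s * Bk 1 = Bk 1 * s) (k : ℕ) :
    s * Bk k = Bk k * s := by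
  induction k with
  | zero => rw [Bk_zero, mul_one, one_mul]
  | succ k ih => rw [← Bk_mul, ← mul_assoc, ih, mul_assoc, hs, ← mul_assoc]

lemma Bk_mul_Q (k : ℕ) : (Bk k * Q k : C₀(ℕ, 𝕜) →L[𝕜] C₀(ℕ, 𝕜)) = 0 := by
  ext x n
  rw [mul_apply_eq_comp, Bk_apply, Q_apply, if_neg (by omega), mul_zero]
  rfl

lemma Q_of_Bk {k : ℕ} {y : C₀(ℕ, 𝕜)} (h : Bk k y = 0) : Q k y = y := by
  ext n
  rw [Q_apply]
  split_ifs with hn
  · rfl
  · have h1 : Bk k y (n - k) = 0 := by rw [h]; rfl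
    rw [Bk_apply, Nat.sub_add_cancel (not_lt.1 hn)] at h1
    exact ((mul_eq_zero.1 h1).resolve_left (half_ne _)).symm

/-- the ranges of the projections are invariant -/
lemma invar {s : C₀(ℕ, 𝕜) →L[𝕜] C₀(ℕ, 𝕜)} (hs : s * Bk 1 = Bk 1 * s) (n : ℕ) :
    Q n * (s * Q n) = s * Q n := by
  ext1 x
  refine Q_of_Bk ?_
  have h1 : (Bk n * (s * Q n) : C₀(ℕ, 𝕜) →L[𝕜] C₀(ℕ, 𝕜)) = 0 := by
    rw [← mul_assoc, ← comm_Bk hs, mul_assoc, Bk_mul_Q, mul_zero]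
  exact DFunLike.congr_fun h1 x

/-- the coefficients -/
noncomputable def al (s : C₀(ℕ, 𝕜) →L[𝕜] C₀(ℕ, 𝕜)) (k : ℕ) : 𝕜 := s (e k) 0

lemma Q_eq_sum (n : ℕ) (x : C₀(ℕ, 𝕜)) : Q n x = ∑ k ∈ Finset.range n, x k • e k := by
  induction n with
  | zero => ext m; simp [Q_apply]
  | succ n ih =>
    rw [Finset.sum_range_succ, ← ih]
    ext m
    rw [Q_apply, ZeroAtInftyContinuousMap.add_apply, Q_apply, ZeroAtInftyContinuousMap.smul_apply,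
      e_apply, smul_eq_mul]
    rcases lt_trichotomy m n with h | h | h
    · rw [if_pos (by omega), if_pos h, if_neg (by omega), mul_zero, add_zero]
    · subst h
      simp
    · rw [if_neg (by omega), if_neg (by omega), if_neg (by omega), mul_zero, add_zero]

/-- conjugate phase -/
lemma exists_phase (z : 𝕜) : ∃ u : 𝕜, ‖u‖ ≤ 1 ∧ u * z = ((‖z‖ : ℝ) : 𝕜) := by
  by_cases h : z = 0
  · exact ⟨0, by simp, by simp [h]⟩
  · have hz : ((‖z‖ : ℝ) : 𝕜) ≠ 0 := by exact_mod_cast norm_ne_zero_iff.2 h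
    refine ⟨((‖z‖ : ℝ) : 𝕜) / z, ?_, ?_⟩
    · rw [norm_div, norm_realK, norm_norm, div_self (norm_ne_zero_iff.2 h)]
    · rw [div_mul_cancel₀ _ h]

lemma sum_al_le (s : C₀(ℕ, 𝕜) →L[𝕜] C₀(ℕ, 𝕜)) (n : ℕ) :
    ∑ k ∈ Finset.range n, ‖al s k‖ ≤ ‖s‖ := by
  choose u hu1 hu2 using fun k => exists_phase (al s k)
  let x : C₀(ℕ, 𝕜) := ∑ k ∈ Finset.range n, u k • e k
  have hx : ‖x‖ ≤ 1 := by
    rw [norm_le_iff _ zero_le_one]
    intro m
    have h1 : x m = ∑ k ∈ Finset.range n, u k * (e k : C₀(ℕ, 𝕜)) m := by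
      have h2 : ∀ t : Finset ℕ, (∑ k ∈ t, u k • (e k : C₀(ℕ, 𝕜))) m =
          ∑ k ∈ t, u k * (e k : C₀(ℕ, 𝕜)) m := by
        intro t
        classical
        induction t using Finset.induction_on with
        | empty => simp
        | insert a t ha ih =>
          rw [Finset.sum_insert ha, Finset.sum_insert ha, ZeroAtInftyContinuousMap.add_apply, ih,
            ZeroAtInftyContinuousMap.smul_apply, smul_eq_mul]
      exact h2 _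
    rw [h1]
    simp only [e_apply, mul_ite, mul_one, mul_zero]
    rw [Finset.sum_ite_eq]
    split_ifs
    · exact hu1 m
    · simp
  have h1 : s x 0 = ((∑ k ∈ Finset.range n, ‖al s k‖ : ℝ) : 𝕜) := by
    have h2 : ∀ t : Finset ℕ, (s (∑ k ∈ t, u k • (e k : C₀(ℕ, 𝕜)))) 0 =
        ((∑ k ∈ t, ‖al s k‖ : ℝ) : 𝕜) := by
      intro t
      classical
      induction t using Finset.induction_on with
      | empty => simp
      | insert a t ha ih =>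
        rw [Finset.sum_insert ha, Finset.sum_insert ha, map_add,
          ZeroAtInftyContinuousMap.add_apply, ih, map_smul,
          ZeroAtInftyContinuousMap.smul_apply, smul_eq_mul, RCLike.ofReal_add, ← hu2]
        rfl
    exact h2 _
  have h2 : ‖s x 0‖ ≤ ‖s‖ := by
    refine (norm_apply_le _ _).trans ((s.le_opNorm x).trans ?_)
    have := norm_nonneg s
    nlinarith
  rw [h1, norm_realK, Real.norm_of_nonneg (Finset.sum_nonneg fun _ _ => norm_nonneg _)] at h2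
  exact h2

lemma summable_al (s : C₀(ℕ, 𝕜) →L[𝕜] C₀(ℕ, 𝕜)) : Summable fun k => ‖al s k‖ :=
  summable_of_sum_range_le (fun _ => norm_nonneg _) (sum_al_le s)

lemma hasSum_apply (s : C₀(ℕ, 𝕜) →L[𝕜] C₀(ℕ, 𝕜)) (x : C₀(ℕ, 𝕜)) :
    HasSum (fun k => al s k * x k) (s x 0) := by
  have h1 : Summable fun k => al s k * x k := by
    refine Summable.of_norm_bounded ((summable_al s).mul_right ‖x‖) fun k => ?_
    rw [norm_mul]
    exact mul_le_mul_of_nonneg_left (norm_apply_le x k) (norm_nonneg _)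
  have h2 : Tendsto (fun n => ∑ k ∈ Finset.range n, al s k * x k) atTop (𝓝 (s x 0)) := by
    have h3 : (fun n => ∑ k ∈ Finset.range n, al s k * x k) = fun n => s (Q n x) 0 := by
      funext n
      induction n with
      | zero =>
        have : (Q 0 x : C₀(ℕ, 𝕜)) = 0 := by ext m; simp [Q_apply]
        rw [this, map_zero s, Finset.range_zero, Finset.sum_empty]
        rfl
      | succ n ih =>
        rw [Finset.sum_range_succ, ih, Q_eq_sum (n + 1), Finset.sum_range_succ, ← Q_eq_sum, map_add,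
          ZeroAtInftyContinuousMap.add_apply, map_smul, ZeroAtInftyContinuousMap.smul_apply,
          smul_eq_mul, mul_comm (x n)]
        rfl
    rw [h3]
    have h4 : Tendsto (fun n => s (Q n x)) atTop (𝓝 (s x)) :=
      (s.continuous.tendsto _).comp (Q_lim x)
    rw [tendsto_iff_norm_sub_tendsto_zero] at h4 ⊢
    refine squeeze_zero (fun _ => norm_nonneg _) (fun n => ?_) h4
    exact norm_apply_le (s (Q n x) - s x) 0
  rw [← tendsto_nhds_unique h1.hasSum.tendsto_sum_nat h2]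
  exact h1.hasSum

/-- the coefficients with respect to the shifts -/
noncomputable def cf (s : C₀(ℕ, 𝕜) →L[𝕜] C₀(ℕ, 𝕜)) (k : ℕ) : 𝕜 := 2 ^ (k * k) * al s k

lemma norm_cf_mul (s : C₀(ℕ, 𝕜) →L[𝕜] C₀(ℕ, 𝕜)) (k : ℕ) :
    ‖cf s k‖ * (2⁻¹ : ℝ) ^ (k * k) = ‖al s k‖ := by
  rw [cf, norm_mul, norm_pow, RCLike.norm_two, mul_right_comm, ← mul_pow]
  norm_num

lemma norm_term_le (s : C₀(ℕ, 𝕜) →L[𝕜] C₀(ℕ, 𝕜)) (k : ℕ) :
    ‖cf s k • (Bk k : C₀(ℕ, 𝕜) →L[𝕜] C₀(ℕ, 𝕜))‖ ≤ ‖al s k‖ := by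
  refine (ContinuousLinearMap.opNorm_smul_le (cf s k)
    (Bk k : C₀(ℕ, 𝕜) →L[𝕜] C₀(ℕ, 𝕜))).trans ?_
  rw [← norm_cf_mul]
  exact mul_le_mul_of_nonneg_left (norm_Bk k) (norm_nonneg _)

lemma summable_of_le {E : Type} [NormedAddCommGroup E] [CompleteSpace E] {f : ℕ → E} {a : ℕ → ℝ}
    (ha : Summable a) (h : ∀ k, ‖f k‖ ≤ a k) : Summable f := Summable.of_norm_bounded ha h

lemma summable_cf (s : C₀(ℕ, 𝕜) →L[𝕜] C₀(ℕ, 𝕜)) :
    Summable fun k => cf s k • (Bk k : C₀(ℕ, 𝕜) →L[𝕜] C₀(ℕ, 𝕜)) :=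
  summable_of_le (E := C₀(ℕ, 𝕜) →L[𝕜] C₀(ℕ, 𝕜)) (summable_al s) (norm_term_le s)

/-- evaluation of a sum at a coordinate -/
lemma hasSum_coord {f : ℕ → C₀(ℕ, 𝕜)} {x : C₀(ℕ, 𝕜)} (h : HasSum f x) (j : ℕ) :
    HasSum (fun k => f k j) (x j) := by
  let ev : C₀(ℕ, 𝕜) →+ 𝕜 :=
    { toFun := fun x => x j
      map_zero' := rfl
      map_add' := fun _ _ => rfl }
  have hc : Continuous ev := by
    refine AddMonoidHomClass.continuous_of_bound ev 1 fun x => ?_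
    rw [one_mul]
    exact norm_apply_le x j
  exact h.map ev hc

/-- every operator which commutes with the shift is the sum of its series -/
lemma hasSum_Bk {s : C₀(ℕ, 𝕜) →L[𝕜] C₀(ℕ, 𝕜)} (hs : s * Bk 1 = Bk 1 * s) :
    HasSum (fun k => cf s k • (Bk k : C₀(ℕ, 𝕜) →L[𝕜] C₀(ℕ, 𝕜))) s := by
  have h := (summable_cf s).hasSum
  have key : ∑' k, cf s k • (Bk k : C₀(ℕ, 𝕜) →L[𝕜] C₀(ℕ, 𝕜)) = s := by
    ext x j
    have h1 : HasSum (fun k => (cf s k • (Bk k : C₀(ℕ, 𝕜) →L[𝕜] C₀(ℕ, 𝕜))) x)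
        ((∑' k, cf s k • (Bk k : C₀(ℕ, 𝕜) →L[𝕜] C₀(ℕ, 𝕜))) x) :=
      h.map (ContinuousLinearMap.apply 𝕜 (C₀(ℕ, 𝕜)) x)
        (ContinuousLinearMap.apply 𝕜 (C₀(ℕ, 𝕜)) x).continuous
    have h2 := hasSum_coord h1 j
    have h3 := hasSum_apply s (Bk j x)
    have h4 : s (Bk j x) 0 = ((2 : 𝕜)⁻¹) ^ (j * j) * s x j := by
      have := DFunLike.congr_fun (comm_Bk hs j) x
      rw [mul_apply_eq_comp, mul_apply_eq_comp] at this
      rw [this, Bk_apply]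
      simp
    rw [h4] at h3
    have h5 := h3.mul_left (((2 : 𝕜)) ^ (j * j))
    have h6 : (2 : 𝕜) ^ (j * j) * (((2 : 𝕜)⁻¹) ^ (j * j) * s x j) = s x j := by
      rw [← mul_assoc, ← mul_pow, mul_inv_cancel₀ two_ne_zero, one_pow, one_mul]
    rw [h6] at h5
    have h7 : (fun k => ((cf s k • (Bk k : C₀(ℕ, 𝕜) →L[𝕜] C₀(ℕ, 𝕜))) x) j) =
        fun k => (2 : 𝕜) ^ (j * j) * (al s k * Bk j x k) := by
      funext k
      rw [smul_apply, ZeroAtInftyContinuousMap.smul_apply, smul_eq_mul, Bk_apply, Bk_apply, cf,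
        add_comm j k]
      have e1 : (2 : 𝕜) ^ (k * k) * ((2 : 𝕜)⁻¹) ^ (k * k + 2 * j * k) =
          ((2 : 𝕜)⁻¹) ^ (2 * j * k) := by
        rw [pow_add, ← mul_assoc, ← mul_pow, mul_inv_cancel₀ two_ne_zero, one_pow, one_mul]
      have e2 : (2 : 𝕜) ^ (j * j) * ((2 : 𝕜)⁻¹) ^ (j * j + 2 * k * j) =
          ((2 : 𝕜)⁻¹) ^ (2 * j * k) := by
        rw [pow_add, ← mul_assoc, ← mul_pow, mul_inv_cancel₀ two_ne_zero, one_pow, one_mul]
        congr 1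
        ring
      calc (2 : 𝕜) ^ (k * k) * al s k * (((2 : 𝕜)⁻¹) ^ (k * k + 2 * j * k) * x (k + j))
          = ((2 : 𝕜) ^ (k * k) * ((2 : 𝕜)⁻¹) ^ (k * k + 2 * j * k)) * (al s k * x (k + j)) := by
            ring
        _ = ((2 : 𝕜) ^ (j * j) * ((2 : 𝕜)⁻¹) ^ (j * j + 2 * k * j)) * (al s k * x (k + j)) := by
          rw [e1, e2]
        _ = _ := by ring
    rw [h7] at h2
    exact h2.unique h5
  rw [key] at h
  exact h

end Pool.Agent.R184CA.Rad
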