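import Pool.Agent.R184CA.Unit

/-! Spaces with an unconditional basis. -/

namespace Pool.Agent.R184CA

open Filter Topology

universe u

variable {𝕜 : Type} [RCLike 𝕜]

section

variable {ι : Type*} {E : Type u} [NormedAddCommGroup E] [NormedSpace 𝕜 E]

lemma sum_abs_le (F : Finset ι) (a : ι → ℝ) (M : ℝ) (h : ∀ G ⊆ F, |∑ i ∈ G, a i| ≤ M) :
    ∑ i ∈ F, |a i| ≤ 2 * M := by
  classical
  rw [← Finset.sum_filter_add_sum_filter_not F (fun i => 0 ≤ a i)]
  have h1 : ∑ i ∈ F with 0 ≤ a i, |a i| = ∑ i ∈ F with 0 ≤ a i, a i :=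
    Finset.sum_congr rfl fun i hi => abs_of_nonneg (Finset.mem_filter.1 hi).2
  have h2 : ∑ i ∈ F with ¬ 0 ≤ a i, |a i| = -∑ i ∈ F with ¬ 0 ≤ a i, a i := by
    rw [← Finset.sum_neg_distrib]
    exact Finset.sum_congr rfl fun i hi =>
      abs_of_nonpos (le_of_lt (not_le.1 (Finset.mem_filter.1 hi).2))
  rw [h1, h2]
  have h3 := le_abs_self (∑ i ∈ F with 0 ≤ a i, a i)
  have h4 := neg_abs_le (∑ i ∈ F with ¬ 0 ≤ a i, a i)
  have h5 := h _ (Finset.filter_subset (fun i => 0 ≤ a i) F)
  have h6 := h _ (Finset.filter_subset (fun i => ¬ 0 ≤ a i) F)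
  linarith

/-- bounded multipliers -/
lemma norm_sum_smul_le (F : Finset ι) (f : ι → E) (M : ℝ) (hM : ∀ G ⊆ F, ‖∑ i ∈ G, f i‖ ≤ M)
    (c : ι → 𝕜) (C : ℝ) (hC0 : 0 ≤ C) (hC : ∀ i ∈ F, ‖c i‖ ≤ C) :
    ‖∑ i ∈ F, c i • f i‖ ≤ 4 * C * M := by
  have hM0 : 0 ≤ M := by simpa using hM ∅ (Finset.empty_subset _)
  by_cases h0 : ‖∑ i ∈ F, c i • f i‖ = 0
  · rw [h0]; positivity
  obtain ⟨g, hg1, hg2⟩ := exists_dual_vector 𝕜 _ h0
  have h1 : ‖∑ i ∈ F, c i • f i‖ = ‖g (∑ i ∈ F, c i • f i)‖ := by
    rw [hg2, norm_realK, norm_norm]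
  rw [h1, map_sum]
  have hre : ∑ i ∈ F, |RCLike.re (g (f i))| ≤ 2 * M := by
    refine sum_abs_le F _ M fun G hG => ?_
    rw [← map_sum, ← map_sum]
    refine (RCLike.abs_re_le_norm _).trans ((g.le_opNorm _).trans ?_)
    rw [hg1, one_mul]
    exact hM G hG
  have him : ∑ i ∈ F, |RCLike.im (g (f i))| ≤ 2 * M := by
    refine sum_abs_le F _ M fun G hG => ?_
    rw [← map_sum, ← map_sum]
    refine (RCLike.abs_im_le_norm _).trans ((g.le_opNorm _).trans ?_)
    rw [hg1, one_mul]
    exact hM G hG
  calc ‖∑ i ∈ F, g (c i • f i)‖ ≤ ∑ i ∈ F, C * (|RCLike.re (g (f i))| + |RCLike.im (g (f i))|) := by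
        refine norm_sum_le_of_le _ fun i hi => ?_
        rw [map_smul, smul_eq_mul, norm_mul]
        gcongr
        · exact hC i hi
        · have h2 := norm_add_le ((RCLike.re (g (f i)) : ℝ) : 𝕜)
            (((RCLike.im (g (f i)) : ℝ) : 𝕜) * RCLike.I)
          rw [RCLike.re_add_im, norm_mul, norm_realK, norm_realK, Real.norm_eq_abs,
            Real.norm_eq_abs] at h2
          have h3 : ‖(RCLike.I : 𝕜)‖ ≤ 1 := by
            by_cases h : (RCLike.I : 𝕜) = 0
            · rw [h, norm_zero]
              norm_num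
            · exact (RCLike.norm_I_of_ne_zero h).le
          have h4 := abs_nonneg (RCLike.im (g (f i)))
          nlinarith
    _ ≤ 4 * C * M := by
        rw [← Finset.mul_sum, Finset.sum_add_distrib]
        nlinarith

lemma summable_smul [CompleteSpace E] {f : ι → E} (hf : Summable f) (c : ι → 𝕜) (C : ℝ)
    (hC0 : 0 ≤ C) (hC : ∀ i, ‖c i‖ ≤ C) : Summable fun i => c i • f i := by
  classical
  rw [summable_iff_vanishing_norm] at hf ⊢
  intro ε hε
  obtain ⟨s, hs⟩ := hf (ε / (4 * C + 1)) (by positivity)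
  refine ⟨s, fun t ht => ?_⟩
  refine lt_of_le_of_lt (norm_sum_smul_le t f (ε / (4 * C + 1)) (fun G hG =>
    (hs G (Disjoint.mono_left hG ht)).le) c C hC0 fun i _ => hC i) ?_
  rw [mul_div_assoc', div_lt_iff₀ (by positivity)]
  nlinarith

end

section

variable {U : Type u} [NormedAddCommGroup U] [NormedSpace 𝕜 U] [CompleteSpace U]
  (b : UnconditionalSchauderBasis ℕ 𝕜 U)

omit [CompleteSpace U] in
lemma coord_ext {x y : U} (h : ∀ s, b.coord s x = b.coord s y) : x = y := by
  have h1 := b.expansion x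
  have h2 := b.expansion y
  simp only [h] at h1
  exact h1.unique h2

omit [CompleteSpace U] in
lemma coord_basis (s t : ℕ) : b.coord s (b t) = if s = t then 1 else 0 := by
  rw [b.ortho]
  by_cases h : s = t
  · subst h
    simp [Pi.single]
  · simp [Pi.single, h]

omit [CompleteSpace U] in
lemma coord_of_hasSum {c : ℕ → 𝕜} {x : U} (h : HasSum (fun s => c s • b s) x) (s : ℕ) :
    b.coord s x = c s := by
  have h1 := h.mapL (b.coord s)
  simp only [map_smul, coord_basis, smul_eq_mul, mul_ite, mul_one, mul_zero] at h1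
  have h2 := hasSum_ite_eq (L := SummationFilter.unconditional ℕ) s (c s)
  refine h1.unique ?_
  convert h2 using 2 with t
  by_cases hst : s = t
  · simp [hst]
  · rw [if_neg hst, if_neg (Ne.symm hst)]

variable (hb : ∀ s, ‖b s‖ = 1)

include hb in
lemma exists_prod : ∃ m : U →L[𝕜] U →L[𝕜] U,
    ∀ x y, HasSum (fun s => (b.coord s x * b.coord s y) • b s) (m x y) := by
  obtain ⟨K, hK⟩ := b.exists_norm_proj_le
  have hK0 : 0 ≤ K := (norm_nonneg _).trans (hK ∅)
  have hco : ∀ s x, ‖b.coord s x‖ ≤ K * ‖x‖ := by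
    intro s x
    have h1 : ‖b.coord s x‖ = ‖b.proj {s} x‖ := by
      rw [GeneralSchauderBasis.proj_apply, Finset.sum_singleton, norm_smul, hb, mul_one]
    rw [h1]
    exact ((b.proj {s}).le_opNorm x).trans (mul_le_mul_of_nonneg_right (hK _) (norm_nonneg _))
  have hsum : ∀ x y, Summable fun s => (b.coord s x * b.coord s y) • b s := by
    intro x y
    have h1 := summable_smul (b.expansion y).summable (fun s => b.coord s x) (K * ‖x‖)
      (by positivity) fun s => hco s x
    simpa only [smul_smul] using h1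
  have hadd : ∀ x x' y y' : U, (∀ s, b.coord s x * b.coord s y = b.coord s x' * b.coord s y') →
    ∑' s, (b.coord s x * b.coord s y) • b s = ∑' s, (b.coord s x' * b.coord s y') • b s := by
    intro x x' y y' h
    simp only [h]
  let f : U → U → U := fun x y => ∑' s, (b.coord s x * b.coord s y) • b s
  have hf : ∀ x y s, b.coord s (f x y) = b.coord s x * b.coord s y := fun x y s =>
    coord_of_hasSum b (hsum x y).hasSum s
  let m : U →L[𝕜] U →L[𝕜] U := LinearMap.mkContinuous₂
    (LinearMap.mk₂ 𝕜 f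
      (fun x x' y => coord_ext b fun s => by simp only [hf, map_add]; ring)
      (fun c x y => coord_ext b fun s => by simp only [hf, map_smul, smul_eq_mul]; ring)
      (fun x y y' => coord_ext b fun s => by simp only [hf, map_add]; ring)
      (fun c x y => coord_ext b fun s => by simp only [hf, map_smul, smul_eq_mul]; ring))
    (4 * K * K) (fun x y => by
      change ‖f x y‖ ≤ _
      refine le_of_tendsto (hsum x y).hasSum.norm (Eventually.of_forall fun F => ?_)
      have h1 := norm_sum_smul_le F (fun s => b.coord s y • b s) (K * ‖y‖) (fun G _ => by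
        have := (b.proj G).le_opNorm y
        rw [GeneralSchauderBasis.proj_apply] at this
        exact this.trans (mul_le_mul_of_nonneg_right (hK _) (norm_nonneg _)))
        (fun s => b.coord s x) (K * ‖x‖) (by positivity) fun s _ => hco s x
      simp only [smul_smul] at h1
      refine h1.trans (le_of_eq ?_)
      ring)
  exact ⟨m, fun x y => (hsum x y).hasSum⟩

include hb in
/-- The unitization of a Banach space with a normalized unconditional basis, with the
coordinatewise multiplication, is a Calkin algebra. -/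
theorem uncond_calkin : ∃ m : U → U → U,
    (∀ x y, HasSum (fun s => (b.coord s x * b.coord s y) • b s) (m x y)) ∧
      IsCalkinMul 𝕜 (U × 𝕜) (unitMul m) := by
  obtain ⟨m, hm⟩ := exists_prod b hb
  have hmc : ∀ x y s, b.coord s (m x y) = b.coord s x * b.coord s y := fun x y s =>
    coord_of_hasSum b (hm x y) s
  obtain ⟨K, hK⟩ := b.exists_norm_proj_le
  have hp : ∀ n x s, b.coord s (b.proj (Finset.range n) x) = if s < n then b.coord s x else 0 := by
    intro n x s
    rw [GeneralSchauderBasis.proj_apply, map_sum]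
    simp only [map_smul, coord_basis, smul_eq_mul, mul_ite, mul_one, mul_zero]
    rw [Finset.sum_ite_eq]
    simp
  obtain ⟨X, i1, i2, i3, P, φ, -, -, -, -, f1, f2, f3, f4⟩ := unit_bilin m
    (fun x y z => coord_ext b fun s => by simp only [hmc]; ring)
    (fun n => b.proj (Finset.range n)) K (fun n => hK _)
    (fun k n x => by
      rw [GeneralSchauderBasis.proj_comp]
      congr 2
      ext i
      simp)
    (fun n => by
      have := b.range_proj_eq_span (Finset.range n)
      rw [this]
      exact FiniteDimensional.span_of_finite 𝕜 ((Finset.finite_toSet _).image _))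
    (fun x => by
      have h1 := (b.tendsto_proj x)
      rw [SummationFilter.unconditional_filter] at h1
      exact h1.comp tendsto_finset_range)
    (fun n x y => coord_ext b fun s => by
      simp only [hp, hmc]
      split_ifs <;> simp)
  exact ⟨fun x y => m x y, hm, isCalkinMul_of_hom _ φ f2 f3 f4⟩

end

end Pool.Agent.R184CA
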