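import Pool.Agent.R184CA.Unit

/-! Unitizations of Banach algebras as Calkin algebras, the version for normed rings. -/

namespace Pool.Agent.R184CA

open Filter Topology

universe u

variable {𝕜 : Type} [RCLike 𝕜]

/-- A unital Banach algebra with an approximating sequence of commuting finite rank projections
whose ranges are subalgebras is a Calkin algebra. -/
theorem isCalkin_of_proj {𝔸 : Type u} [NormedRing 𝔸] [NormedAlgebra 𝕜 𝔸] [CompleteSpace 𝔸]
    (p : ℕ → (𝔸 →L[𝕜] 𝔸)) (C : ℝ) (hC : ∀ n, ‖p n‖ ≤ C)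
    (hpp : ∀ m n a, p m (p n a) = p (min m n) a)
    (hfin : ∀ n, FiniteDimensional 𝕜 (LinearMap.range (p n : 𝔸 →ₗ[𝕜] 𝔸)))
    (hlim : ∀ a, Tendsto (fun n => p n a) atTop (𝓝 a))
    (hmul : ∀ n a b, p n (p n a * p n b) = p n a * p n b) :
    IsCalkin 𝕜 𝔸 := by
  obtain ⟨X, i1, i2, i3, P, φ, -, -, -, -, f1, f2, f3, f4⟩ := bilin (ContinuousLinearMap.mul 𝕜 𝔸)
    (fun a b c => by simp [mul_assoc]) 1 (fun a => by simp) (fun a => by simp) p C hC hpp hfin hlim
    (fun n a b => by simpa using hmul n a b)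
  let ψ : (X →L[𝕜] X) →ₐ[𝕜] 𝔸 := AlgHom.ofLinearMap (φ : (X →L[𝕜] X) →ₗ[𝕜] 𝔸) f1
    (fun S T => by simpa using f2 S T)
  exact isCalkin_of_hom ψ φ.continuous f3 f4

/-- The unitization of a Banach algebra with an approximating sequence of commuting finite rank
projections whose ranges are subalgebras is a Calkin algebra. -/
theorem isCalkin_unitization {𝔎 : Type u} [NonUnitalNormedRing 𝔎] [NormedSpace 𝕜 𝔎]
    [IsScalarTower 𝕜 𝔎 𝔎] [SMulCommClass 𝕜 𝔎 𝔎] [CompleteSpace 𝔎]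
    (p : ℕ → (𝔎 →L[𝕜] 𝔎)) (C : ℝ) (hC : ∀ n, ‖p n‖ ≤ C)
    (hpp : ∀ m n a, p m (p n a) = p (min m n) a)
    (hfin : ∀ n, FiniteDimensional 𝕜 (LinearMap.range (p n : 𝔎 →ₗ[𝕜] 𝔎)))
    (hlim : ∀ a, Tendsto (fun n => p n a) atTop (𝓝 a))
    (hmul : ∀ n a b, p n (p n a * p n b) = p n a * p n b) :
    IsCalkin 𝕜 (WithLp 1 (Unitization 𝕜 𝔎)) := by
  obtain ⟨X, i1, i2, i3, P, φ, -, -, -, -, f1, f2, f3, f4⟩ :=
    unit_bilin (ContinuousLinearMap.mul 𝕜 𝔎)
    (fun a b c => by simp [mul_assoc]) p C hC hpp hfin hlim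
    (fun n a b => by simpa using hmul n a b)
  let t : 𝔎 × 𝕜 →ₗ[𝕜] WithLp 1 (Unitization 𝕜 𝔎) :=
    { toFun := fun x => WithLp.toLp 1 (Unitization.inl x.2 + Unitization.inr x.1)
      map_add' := fun x y => by
        rw [← WithLp.toLp_add]
        congr 1
        ext <;> simp
      map_smul' := fun c x => by
        rw [RingHom.id_apply, ← WithLp.toLp_smul]
        congr 1
        ext <;> simp }
  have ht : ∀ x, t x = WithLp.toLp 1 (Unitization.inl x.2 + Unitization.inr x.1) := fun _ => rfl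
  have hn : ∀ x, ‖t x‖ = ‖x.2‖ + ‖x.1‖ := fun x => by
    rw [WithLp.unitization_norm_def, ht]
    simp
  have htc : Continuous t := by
    refine AddMonoidHomClass.continuous_of_bound t 2 fun x => ?_
    rw [hn]
    have h1 := norm_fst_le x
    have h2 := norm_snd_le x
    linarith
  have ht1 : t (0, 1) = 1 := by
    rw [ht]
    refine (WithLp.ofLp_injective 1) ?_
    have h1 : WithLp.ofLp (1 : WithLp 1 (Unitization 𝕜 𝔎)) = (1 : Unitization 𝕜 𝔎) := rfl
    rw [h1]
    simp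
  have htm : ∀ x y, t (unitMul (fun a b => ContinuousLinearMap.mul 𝕜 𝔎 a b) x y) = t x * t y := by
    intro x y
    refine (WithLp.ofLp_injective 1) ?_
    rw [WithLp.unitization_mul, ht, ht, ht]
    ext
    · simp [unitMul]
    · simp [unitMul]
      abel
  let ψ : (X →L[𝕜] X) →ₐ[𝕜] WithLp 1 (Unitization 𝕜 𝔎) :=
    AlgHom.ofLinearMap (t ∘ₗ (φ : (X →L[𝕜] X) →ₗ[𝕜] 𝔎 × 𝕜))
      (by rw [LinearMap.comp_apply, ContinuousLinearMap.coe_coe, f1, ht1])
      (fun S T => by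
        rw [LinearMap.comp_apply, LinearMap.comp_apply, LinearMap.comp_apply,
          ContinuousLinearMap.coe_coe, f2, htm])
  have hψ : ∀ T, ψ T = t (φ T) := fun _ => rfl
  refine isCalkin_of_hom ψ (htc.comp φ.continuous) ?_ ?_
  · intro y
    obtain ⟨T, hT⟩ := f3 ((WithLp.ofLp y).snd, (WithLp.ofLp y).fst)
    refine ⟨T, ?_⟩
    rw [hψ, hT, ht]
    refine (WithLp.ofLp_injective 1) ?_
    exact (Unitization.inl_fst_add_inr_snd_eq _)
  · intro T
    rw [← f4, hψ]
    constructor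
    · intro h
      have h1 := hn (φ T)
      rw [h, norm_zero] at h1
      have h2 := norm_nonneg (φ T).1
      have h3 := norm_nonneg (φ T).2
      have h4 : ‖(φ T).1‖ = 0 := by linarith
      have h5 : ‖(φ T).2‖ = 0 := by linarith
      exact Prod.ext (norm_eq_zero.1 h4) (norm_eq_zero.1 h5)
    · intro h
      rw [h, map_zero]

end Pool.Agent.R184CA
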